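import Mathlib
import Pool.Agent.Lib.H13V.C0

/-! # H13P, module C: the fields N/M cyclic of degree p^(n+t), N' of degree p^n over M, n ≥ 1, t ≥ 1 -/

open NumberField IsDedekindDomain WeierstrassCurve

namespace H13P

open H55P
open H13V (CycJ)

open scoped Classical

/-- M ≤ N' ≤ N, N/M Galois and cyclic of degree p^(n+t), γ a generator, N' the subfield of degree p^n over M, n ≥ 1, t ≥ 1. -/
structure CycP {F : Type} [Field F] {Ω : Type} [Field Ω] [Algebra F Ω] (p n t : ℕ) (M N' N : IntermediateField F Ω) (γ : Ω ≃ₐ[F] Ω) : Prop where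
  posn : 1 ≤ n
  pos : 1 ≤ t
  fin : FiniteDimensional F N
  le : M ≤ N'
  le' : N' ≤ N
  gam : γ ∈ M.fixingSubgroup
  nrm : ∀ s ∈ M.fixingSubgroup, ∀ x ∈ N, s x ∈ N
  gen : ∀ s ∈ M.fixingSubgroup, ∃ k : ℕ, ∃ u ∈ N.fixingSubgroup, s = γ ^ k * u
  ord : ∀ k : ℕ, γ ^ k ∈ N.fixingSubgroup ↔ p ^ (n + t) ∣ k
  mid : ∀ k : ℕ, γ ^ k ∈ N'.fixingSubgroup ↔ p ^ n ∣ k
  deg : Module.finrank F N = Module.finrank F M * p ^ (n + t)
  deg' : Module.finrank F N = Module.finrank F N' * p ^ t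

variable {F : Type} [Field F] [CharZero F] {Ω : Type} [Field Ω] [Algebra F Ω] [IsAlgClosure F Ω] {p n t : ℕ} {M N' N : IntermediateField F Ω} {γ : Ω ≃ₐ[F] Ω}

theorem cp_nN (c : CycP p n t M N' N γ) (s : Ω ≃ₐ[F] Ω) (hs : s ∈ M.fixingSubgroup) (u : Ω ≃ₐ[F] Ω) (hu : u ∈ N.fixingSubgroup) :
    s * u * s⁻¹ ∈ N.fixingSubgroup := by
  rw [IntermediateField.mem_fixingSubgroup_iff]
  intro x hx
  have h1 : s⁻¹ x ∈ N := c.nrm s⁻¹ (inv_mem hs) x hx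
  have h2 : u (s⁻¹ x) = s⁻¹ x := (IntermediateField.mem_fixingSubgroup_iff _ _).1 hu _ h1
  have h3 : (s * u * s⁻¹) x = s (u (s⁻¹ x)) := rfl
  have h4 : s (s⁻¹ x) = (s * s⁻¹) x := rfl
  rw [h3, h2, h4, mul_inv_cancel]
  rfl

omit [CharZero F] [IsAlgClosure F Ω] in
theorem cp_le (c : CycP p n t M N' N γ) : N.fixingSubgroup ≤ N'.fixingSubgroup := IntermediateField.fixingSubgroup_antitone c.le'

omit [CharZero F] [IsAlgClosure F Ω] in
theorem cp_le' (c : CycP p n t M N' N γ) : N'.fixingSubgroup ≤ M.fixingSubgroup := IntermediateField.fixingSubgroup_antitone c.le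

theorem cp_comm (c : CycP p n t M N' N γ) (a : Ω ≃ₐ[F] Ω) (ha : a ∈ M.fixingSubgroup) (b : Ω ≃ₐ[F] Ω) (hb : b ∈ M.fixingSubgroup) :
    a * b * a⁻¹ * b⁻¹ ∈ N.fixingSubgroup := by
  obtain ⟨i, u, hu, rfl⟩ := c.gen a ha
  obtain ⟨j, v, hv, rfl⟩ := c.gen b hb
  have hA : γ ^ i ∈ M.fixingSubgroup := pow_mem c.gam i
  have hB : γ ^ j ∈ M.fixingSubgroup := pow_mem c.gam j
  have hAB : γ ^ i * γ ^ j = γ ^ j * γ ^ i := by rw [← pow_add, ← pow_add, add_comm]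
  generalize γ ^ i = A at hA hAB ⊢
  generalize γ ^ j = B at hB hAB ⊢
  have h1 : B⁻¹ * A⁻¹ * B = A⁻¹ := by
    rw [← _root_.mul_inv_rev, hAB, _root_.mul_inv_rev, inv_mul_cancel_right]
  have h2 : A * u * (B * v) * (A * u)⁻¹ * (B * v)⁻¹ = A * (u * (B * (v * u⁻¹) * B⁻¹)) * A⁻¹ * (B * v⁻¹ * B⁻¹) := by
    have h3 : A * (u * (B * (v * u⁻¹) * B⁻¹)) * A⁻¹ * (B * v⁻¹ * B⁻¹) = A * u * B * v * u⁻¹ * (B⁻¹ * A⁻¹ * B) * v⁻¹ * B⁻¹ := by group
    rw [h3, h1]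
    group
  rw [h2]
  refine mul_mem (cp_nN c A hA _ (mul_mem hu (cp_nN c B hB _ (mul_mem hv (inv_mem hu))))) (cp_nN c B hB _ (inv_mem hv))

theorem cp_nN' (c : CycP p n t M N' N γ) (s : Ω ≃ₐ[F] Ω) (hs : s ∈ M.fixingSubgroup) (a : Ω ≃ₐ[F] Ω) (ha : a ∈ N'.fixingSubgroup) :
    s * a * s⁻¹ ∈ N'.fixingSubgroup := by
  have h1 : s * a * s⁻¹ = s * a * s⁻¹ * a⁻¹ * a := by rw [inv_mul_cancel_right]
  rw [h1]
  exact mul_mem (cp_le c (cp_comm c s hs a (cp_le' c ha))) ha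

theorem cp_iff (c : CycP p n t M N' N γ) (g : Ω ≃ₐ[F] Ω) (hg : g ∈ M.fixingSubgroup) :
    (∀ s, g * s * g⁻¹ ∈ N'.fixingSubgroup ↔ s ∈ N'.fixingSubgroup) ∧ (∀ s, g * s * g⁻¹ ∈ N.fixingSubgroup ↔ s ∈ N.fixingSubgroup) := by
  have e : ∀ s : Ω ≃ₐ[F] Ω, g⁻¹ * (g * s * g⁻¹) * g⁻¹⁻¹ = s := fun s => by group
  refine ⟨fun s => ⟨fun h => ?_, fun h => cp_nN' c g hg s h⟩, fun s => ⟨fun h => ?_, fun h => cp_nN c g hg s h⟩⟩
  · have h1 := cp_nN' c g⁻¹ (inv_mem hg) _ h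
    rwa [e] at h1
  · have h1 := cp_nN c g⁻¹ (inv_mem hg) _ h
    rwa [e] at h1

omit [CharZero F] [IsAlgClosure F Ω] in
theorem cp_pow (c : CycP p n t M N' N γ) : p ^ (n - 1) * p = p ^ n := by
  rw [← pow_succ, Nat.sub_add_cancel c.posn]

theorem cp_eta (c : CycP p n t M N' N γ) :
    γ ^ p ^ (n - 1) ∈ M.fixingSubgroup ∧ (γ ^ p ^ (n - 1)) ^ p ∈ N'.fixingSubgroup ∧
      (γ ^ p ^ (n - 1)) ^ (p ^ (t + 1)) ∈ N.fixingSubgroup := by
  refine ⟨pow_mem c.gam _, ?_, ?_⟩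
  · rw [← pow_mul, cp_pow c]
    exact (c.mid _).2 dvd_rfl
  · rw [← pow_mul, pow_succ' p t, ← mul_assoc, cp_pow c, ← pow_add]
    exact (c.ord _).2 dvd_rfl

theorem cp_gen (c : CycP p n t M N' N γ) (h : Ω ≃ₐ[F] Ω) (hh : h ∈ N'.fixingSubgroup) :
    ∃ i : ℕ, ∃ u ∈ N.fixingSubgroup, h = ((γ ^ p ^ (n - 1)) ^ p) ^ i * u := by
  obtain ⟨k, u, hu, rfl⟩ := c.gen h (cp_le' c hh)
  have h1 : γ ^ k ∈ N'.fixingSubgroup := by
    have h2 := mul_mem hh (inv_mem (cp_le c hu))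
    rwa [mul_inv_cancel_right] at h2
  obtain ⟨i, hi⟩ := (c.mid k).1 h1
  refine ⟨i, u, hu, ?_⟩
  rw [← pow_mul γ, cp_pow c, ← pow_mul, ← hi]

/-- N/N' is cyclic. -/
theorem cp_cyc (c : CycP p n t M N' N γ) :
    ∃ g ∈ N'.fixingSubgroup, ∀ s ∈ N'.fixingSubgroup, ∃ k : ℕ, (g ^ k)⁻¹ * s ∈ N.fixingSubgroup := by
  refine ⟨(γ ^ p ^ (n - 1)) ^ p, (cp_eta c).2.1, fun s hs => ?_⟩
  obtain ⟨i, u, hu, rfl⟩ := cp_gen c s hs
  exact ⟨i, by rwa [inv_mul_cancel_left]⟩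

theorem cp_pext (hp : 0 < p) (c : CycP p n t M N' N γ) : PExt p M N ∧ PExt p M N' ∧ PExt p N' N := by
  have hfin := c.fin
  refine ⟨⟨c.fin, c.le.trans c.le', c.nrm, n + t, c.deg⟩, ⟨?_, c.le, ?_, n, ?_⟩, ⟨c.fin, c.le', fun s hs => c.nrm s (cp_le' c hs), t, c.deg'⟩⟩
  · exact Submodule.finiteDimensional_of_le (S₁ := Subalgebra.toSubmodule N'.toSubalgebra) (S₂ := Subalgebra.toSubmodule N.toSubalgebra) c.le'
  · intro s hs x hx
    have hG : IsGalois F Ω := by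
      have h1 : Normal F Ω := IsAlgClosure.normal F Ω
      exact IsGalois.mk
    rw [← InfiniteGalois.fixedField_fixingSubgroup N', IntermediateField.mem_fixedField_iff]
    intro u hu
    have h1 := cp_nN' c s⁻¹ (inv_mem hs) u hu
    have h2 := (IntermediateField.mem_fixingSubgroup_iff _ _).1 h1 x hx
    have h3 : (s⁻¹ * u * s⁻¹⁻¹) x = s⁻¹ (u (s x)) := by
      rw [inv_inv]
      rfl
    rw [h3] at h2
    have h4 : s (s⁻¹ (u (s x))) = u (s x) := by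
      have h5 : s (s⁻¹ (u (s x))) = (s * s⁻¹) (u (s x)) := rfl
      rw [h5, mul_inv_cancel]
      rfl
    rw [← h4, h2]
  · have h1 := c.deg
    rw [c.deg', pow_add, ← mul_assoc] at h1
    exact Nat.eq_of_mul_eq_mul_right (pow_pos hp t) h1

/-- The index of a subgroup with cyclic quotient. -/
theorem cp_index {G : Type} [Group G] {A B : Subgroup G} {g : G} {m : ℕ} (hg : g ∈ A)
    (hgen : ∀ s ∈ A, ∃ k : ℕ, ∃ u ∈ B, s = g ^ k * u) (hm : 0 < m) (hord : ∀ k : ℕ, g ^ k ∈ B ↔ m ∣ k) : B.relIndex A = m := by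
  let f : Fin m → A ⧸ B.subgroupOf A := fun k => QuotientGroup.mk ⟨g ^ (k : ℕ), pow_mem hg _⟩
  have hcong : ∀ a b : ℕ, a ≤ b → ((g ^ a)⁻¹ * g ^ b ∈ B ↔ m ∣ b - a) := by
    intro a b hab
    rw [← hord]
    have h1 : (g ^ a)⁻¹ * g ^ b = g ^ (b - a) := by
      rw [inv_mul_eq_iff_eq_mul, ← pow_add]
      congr 1
      omega
    rw [h1]
  have hinj : Function.Injective f := by
    have key : ∀ a b : Fin m, (a : ℕ) ≤ b → f a = f b → a = b := by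
      intro a b hab h
      have h1 := QuotientGroup.eq.1 h
      rw [Subgroup.mem_subgroupOf] at h1
      have h2 : (g ^ (a : ℕ))⁻¹ * g ^ (b : ℕ) ∈ B := h1
      rw [hcong _ _ hab] at h2
      have h3 : (b : ℕ) - a = 0 := Nat.eq_zero_of_dvd_of_lt h2 (by omega)
      apply Fin.ext
      omega
    intro a b h
    rcases le_total (a : ℕ) b with h1 | h1
    · exact key a b h1 h
    · exact (key b a h1 h.symm).symm
  have hsur : Function.Surjective f := by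
    intro x
    obtain ⟨⟨s, hs⟩, rfl⟩ := QuotientGroup.mk_surjective x
    obtain ⟨k, u, hu, rfl⟩ := hgen s hs
    refine ⟨⟨k % m, Nat.mod_lt _ hm⟩, ?_⟩
    apply QuotientGroup.eq.2
    rw [Subgroup.mem_subgroupOf]
    show (g ^ (k % m))⁻¹ * (g ^ k * u) ∈ B
    rw [← mul_assoc]
    refine mul_mem ((hcong _ _ (Nat.mod_le k m)).2 ?_) hu
    exact ⟨k / m, by have := Nat.div_add_mod k m; omega⟩
  have h1 : B.relIndex A = Nat.card (A ⧸ B.subgroupOf A) := rfl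
  rw [h1, ← Nat.card_congr (Equiv.ofBijective f ⟨hinj, hsur⟩), Nat.card_fin]

/-- Powers modulo N. -/
theorem cp_powN (c : CycP p n t M N' N γ) {d : ℕ} {δ : Ω ≃ₐ[F] Ω}
    (h : (γ ^ d)⁻¹ * δ ∈ N.fixingSubgroup) (k : ℕ) : (γ ^ (d * k))⁻¹ * δ ^ k ∈ N.fixingSubgroup := by
  induction k with
  | zero =>
    rw [mul_zero, pow_zero, pow_zero, inv_one, one_mul]
    exact one_mem _
  | succ k ih =>
    have h5 : (γ ^ (d * (k + 1)))⁻¹ * δ ^ (k + 1) =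
        ((γ ^ d)⁻¹ * ((γ ^ (d * k))⁻¹ * δ ^ k) * ((γ ^ d)⁻¹)⁻¹) * ((γ ^ d)⁻¹ * δ) := by
      have h6 : γ ^ (d * (k + 1)) = γ ^ (d * k) * γ ^ d := by
        rw [mul_add, mul_one, pow_add]
      rw [h6, pow_succ, mul_inv_rev]
      simp only [mul_assoc, inv_inv, mul_inv_cancel_left]
    rw [h5]
    exact mul_mem (cp_nN c _ (inv_mem (pow_mem c.gam d)) _ ih) h

/-- The group of the intermediate field K j: generated by N.fix and γ^(p^(n+j)). -/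
noncomputable def cpH (hp : p.Prime) (c : CycP p n t M N' N γ) (j : ℕ) : Subgroup (Ω ≃ₐ[F] Ω) where
  carrier := {s | ∃ k : ℕ, (γ ^ (p ^ (n + j) * k))⁻¹ * s ∈ N.fixingSubgroup}
  one_mem' := ⟨0, by rw [mul_zero, pow_zero, inv_one, one_mul]; exact one_mem _⟩
  mul_mem' := by
    rintro a b ⟨k, hk⟩ ⟨l, hl⟩
    refine ⟨k + l, ?_⟩
    have h1 : γ ^ (p ^ (n + j) * (k + l)) = γ ^ (p ^ (n + j) * k) * γ ^ (p ^ (n + j) * l) := by
      rw [mul_add, pow_add]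
    have h2 : (γ ^ (p ^ (n + j) * (k + l)))⁻¹ * (a * b) =
        ((γ ^ (p ^ (n + j) * l))⁻¹ * ((γ ^ (p ^ (n + j) * k))⁻¹ * a) * ((γ ^ (p ^ (n + j) * l))⁻¹)⁻¹) * ((γ ^ (p ^ (n + j) * l))⁻¹ * b) := by
      rw [h1]
      group
    rw [h2]
    exact mul_mem (cp_nN c _ (inv_mem (pow_mem c.gam _)) _ hk) hl
  inv_mem' := by
    rintro a ⟨k, hk⟩
    have h0 : 0 < p ^ (n + t) := pow_pos hp.pos _
    have h1 : k ≤ p ^ (n + t) * k := Nat.le_mul_of_pos_left k h0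
    have h2 : k + (p ^ (n + t) * k - k) = p ^ (n + t) * k := by omega
    refine ⟨p ^ (n + t) * k - k, ?_⟩
    generalize p ^ (n + t) * k - k = l at h2 ⊢
    have h3 : γ ^ (p ^ (n + j) * k) * γ ^ (p ^ (n + j) * l) ∈ N.fixingSubgroup := by
      rw [← pow_add, ← mul_add, h2, c.ord]
      exact ⟨p ^ (n + j) * k, by ring⟩
    have hA : γ ^ (p ^ (n + j) * k) ∈ M.fixingSubgroup := pow_mem c.gam _
    have hB : γ ^ (p ^ (n + j) * l) ∈ M.fixingSubgroup := pow_mem c.gam _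
    show (γ ^ (p ^ (n + j) * l))⁻¹ * a⁻¹ ∈ N.fixingSubgroup
    generalize γ ^ (p ^ (n + j) * k) = A at hk h3 hA
    generalize γ ^ (p ^ (n + j) * l) = B at h3 hB ⊢
    have h4 : B⁻¹ * a⁻¹ = (A * B)⁻¹ * (A * (A⁻¹ * a)⁻¹ * A⁻¹) := by
      group
    rw [h4]
    exact mul_mem (inv_mem h3) (cp_nN c A hA _ (inv_mem hk))

theorem mem_cpH (hp : p.Prime) (c : CycP p n t M N' N γ) (j : ℕ) (s : Ω ≃ₐ[F] Ω) :
    s ∈ cpH hp c j ↔ ∃ k : ℕ, (γ ^ (p ^ (n + j) * k))⁻¹ * s ∈ N.fixingSubgroup := Iff.rfl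

theorem cpH_N (hp : p.Prime) (c : CycP p n t M N' N γ) (j : ℕ) : N.fixingSubgroup ≤ cpH hp c j := fun s hs =>
  ⟨0, by rwa [mul_zero, pow_zero, inv_one, one_mul]⟩

theorem cpH_M (hp : p.Prime) (c : CycP p n t M N' N γ) (j : ℕ) : cpH hp c j ≤ M.fixingSubgroup := by
  rintro s ⟨k, hk⟩
  have h1 : s = γ ^ (p ^ (n + j) * k) * ((γ ^ (p ^ (n + j) * k))⁻¹ * s) := by group
  rw [h1]
  exact mul_mem (pow_mem c.gam _) (cp_le' c (cp_le c hk))

theorem cpH_gam (hp : p.Prime) (c : CycP p n t M N' N γ) {j : ℕ} (hj : j ≤ t) (k : ℕ) : γ ^ k ∈ cpH hp c j ↔ p ^ (n + j) ∣ k := by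
  constructor
  · rintro ⟨l, hl⟩
    have h1 : (p ^ (n + t) : ℤ) ∣ (k : ℤ) - (p ^ (n + j) * l : ℕ) := by
      rcases le_total (p ^ (n + j) * l) k with h9 | h9
      · have h10 : (γ ^ (p ^ (n + j) * l))⁻¹ * γ ^ k = γ ^ (k - p ^ (n + j) * l) := by
          rw [inv_mul_eq_iff_eq_mul, ← pow_add]
          congr 1
          omega
        rw [h10, c.ord] at hl
        have h11 := Int.natCast_dvd_natCast.2 hl
        rw [Nat.cast_sub h9] at h11
        exact_mod_cast h11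
      · have h10 : (γ ^ (p ^ (n + j) * l))⁻¹ * γ ^ k = (γ ^ (p ^ (n + j) * l - k))⁻¹ := by
          rw [inv_mul_eq_iff_eq_mul, eq_mul_inv_iff_mul_eq, ← pow_add]
          congr 1
          omega
        rw [h10, inv_mem_iff, c.ord] at hl
        have h11 := Int.natCast_dvd_natCast.2 hl
        rw [Nat.cast_sub h9] at h11
        have h12 : (p ^ (n + t) : ℤ) ∣ ((p ^ (n + j) * l : ℕ) : ℤ) - k := by exact_mod_cast h11
        have h13 := (dvd_neg (α := ℤ)).2 h12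
        rwa [neg_sub] at h13
    have h2 : (p ^ (n + j) : ℤ) ∣ (p ^ (n + t) : ℤ) := pow_dvd_pow _ (by omega)
    have h3 : (p ^ (n + j) : ℤ) ∣ ((p ^ (n + j) * l : ℕ) : ℤ) := by
      push_cast
      exact dvd_mul_right _ _
    have h4 : (p ^ (n + j) : ℤ) ∣ (k : ℤ) := by
      have h5 := dvd_add (h2.trans h1) h3
      rwa [sub_add_cancel] at h5
    exact_mod_cast h4
  · rintro ⟨l, rfl⟩
    exact ⟨l, by rw [inv_mul_cancel]; exact one_mem _⟩

theorem cpH_iff (hp : p.Prime) (c : CycP p n t M N' N γ) {j : ℕ} (hj : j ≤ t) (s : Ω ≃ₐ[F] Ω) :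
    s ∈ cpH hp c j ↔ s ∈ N'.fixingSubgroup ∧ s ^ p ^ (t - j) ∈ N.fixingSubgroup := by
  constructor
  · rintro ⟨k, hk⟩
    constructor
    · have h1 : s = γ ^ (p ^ (n + j) * k) * ((γ ^ (p ^ (n + j) * k))⁻¹ * s) := by group
      rw [h1]
      refine mul_mem ((c.mid _).2 ?_) (cp_le c hk)
      rw [pow_add]
      exact ⟨p ^ j * k, by ring⟩
    · have h1 := cp_powN c hk (p ^ (t - j))
      have h2 : γ ^ (p ^ (n + j) * k * p ^ (t - j)) ∈ N.fixingSubgroup := by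
        rw [c.ord]
        have h3 : p ^ (n + t) = p ^ (n + j) * p ^ (t - j) := by
          rw [← pow_add]
          congr 1
          omega
        rw [h3]
        exact ⟨k, by ring⟩
      have h3 : s ^ p ^ (t - j) = γ ^ (p ^ (n + j) * k * p ^ (t - j)) * ((γ ^ (p ^ (n + j) * k * p ^ (t - j)))⁻¹ * s ^ p ^ (t - j)) := by group
      rw [h3]
      exact mul_mem h2 h1
  · rintro ⟨h1, h2⟩
    obtain ⟨k, u, hu, rfl⟩ := c.gen s (cp_le' c h1)
    have h3 : (γ ^ k)⁻¹ * (γ ^ k * u) ∈ N.fixingSubgroup := by rwa [inv_mul_cancel_left]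
    have h4 := cp_powN c h3 (p ^ (t - j))
    have h5 : γ ^ (k * p ^ (t - j)) ∈ N.fixingSubgroup := by
      have h6 := mul_mem h2 (inv_mem h4)
      have h7 : (γ ^ k * u) ^ p ^ (t - j) * ((γ ^ (k * p ^ (t - j)))⁻¹ * (γ ^ k * u) ^ p ^ (t - j))⁻¹ = γ ^ (k * p ^ (t - j)) := by group
      rwa [h7] at h6
    rw [c.ord] at h5
    have h6 : p ^ (n + t) = p ^ (n + j) * p ^ (t - j) := by
      rw [← pow_add]
      congr 1
      omega
    rw [h6] at h5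
    obtain ⟨l, rfl⟩ := Nat.dvd_of_mul_dvd_mul_right (pow_pos hp.pos _) h5
    exact ⟨l, by rwa [inv_mul_cancel_left]⟩

theorem cpH_anti (hp : p.Prime) (c : CycP p n t M N' N γ) (j : ℕ) : cpH hp c (j + 1) ≤ cpH hp c j := by
  rintro s ⟨k, hk⟩
  refine ⟨p * k, ?_⟩
  have h1 : p ^ (n + j) * (p * k) = p ^ (n + (j + 1)) * k := by
    rw [← add_assoc, pow_succ]
    ring
  rwa [h1]

theorem cpH_nrm (hp : p.Prime) (c : CycP p n t M N' N γ) (j : ℕ) (g : Ω ≃ₐ[F] Ω) (hg : g ∈ M.fixingSubgroup) (s : Ω ≃ₐ[F] Ω)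
    (hs : s ∈ cpH hp c j) : g * s * g⁻¹ ∈ cpH hp c j := by
  have h1 : g * s * g⁻¹ = g * s * g⁻¹ * s⁻¹ * s := by rw [inv_mul_cancel_right]
  rw [h1]
  exact mul_mem (cpH_N hp c j (cp_comm c g hg s (cpH_M hp c j hs))) hs

/-- The intermediate field. -/
noncomputable def cpK (hp : p.Prime) (c : CycP p n t M N' N γ) (j : ℕ) : IntermediateField F Ω := IntermediateField.fixedField (cpH hp c j)

theorem cpK_fix (hp : p.Prime) (c : CycP p n t M N' N γ) (j : ℕ) : (cpK hp c j).fixingSubgroup = cpH hp c j := by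
  have hG : IsGalois F Ω := by
    have h1 : Normal F Ω := IsAlgClosure.normal F Ω
    exact IsGalois.mk
  have hfin : FiniteDimensional F N := c.fin
  have h1 : IsOpen (N.fixingSubgroup : Set (Ω ≃ₐ[F] Ω)) := IntermediateField.fixingSubgroup_isOpen N
  have h2 : IsOpen (cpH hp c j : Set (Ω ≃ₐ[F] Ω)) := Subgroup.isOpen_mono (cpH_N hp c j) h1
  have h3 : IsClosed (cpH hp c j : Set (Ω ≃ₐ[F] Ω)) := Subgroup.isClosed_of_isOpen _ h2
  exact InfiniteGalois.fixingSubgroup_fixedField ⟨cpH hp c j, h3⟩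

theorem fix_inj {K L : IntermediateField F Ω} (h : K.fixingSubgroup = L.fixingSubgroup) : K = L := by
  have hG : IsGalois F Ω := by
    have h1 : Normal F Ω := IsAlgClosure.normal F Ω
    exact IsGalois.mk
  rw [← InfiniteGalois.fixedField_fixingSubgroup K, h, InfiniteGalois.fixedField_fixingSubgroup]

theorem fix_le {K L : IntermediateField F Ω} (h : K.fixingSubgroup ≤ L.fixingSubgroup) : L ≤ K := by
  have hG : IsGalois F Ω := by
    have h1 : Normal F Ω := IsAlgClosure.normal F Ω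
    exact IsGalois.mk
  rw [← InfiniteGalois.fixedField_fixingSubgroup K, ← InfiniteGalois.fixedField_fixingSubgroup L]
  exact IntermediateField.fixedField_antitone h

theorem cpK_nrm (hp : p.Prime) (c : CycP p n t M N' N γ) (j : ℕ) (s : Ω ≃ₐ[F] Ω) (hs : s ∈ M.fixingSubgroup) (x : Ω) (hx : x ∈ cpK hp c j) :
    s x ∈ cpK hp c j := by
  unfold cpK at hx ⊢
  rw [IntermediateField.mem_fixedField_iff] at hx ⊢
  intro u hu
  have h1 := hx _ (cpH_nrm hp c j s⁻¹ (inv_mem hs) u hu)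
  have h3 : (s⁻¹ * u * s⁻¹⁻¹) x = s⁻¹ (u (s x)) := by
    rw [inv_inv]
    rfl
  rw [h3] at h1
  have h4 : s (s⁻¹ (u (s x))) = u (s x) := by
    have h5 : s (s⁻¹ (u (s x))) = (s * s⁻¹) (u (s x)) := rfl
    rw [h5, mul_inv_cancel]
    rfl
  rw [← h4, h1]

theorem cpK_deg (hp : p.Prime) (c : CycP p n t M N' N γ) {j : ℕ} (hj : j ≤ t) :
    Module.finrank F (cpK hp c j) = Module.finrank F M * p ^ (n + j) := by
  have hG : IsGalois F Ω := by
    have h1 : Normal F Ω := IsAlgClosure.normal F Ω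
    exact IsGalois.mk
  rw [IntermediateField.finrank_eq_fixingSubgroup_index, IntermediateField.finrank_eq_fixingSubgroup_index, cpK_fix,
    ← Subgroup.relIndex_mul_index (cpH_M hp c j), mul_comm]
  congr 1
  refine cp_index c.gam (fun s hs => ?_) (pow_pos hp.pos _) (cpH_gam hp c hj)
  obtain ⟨k, u, hu, hk⟩ := c.gen s hs
  exact ⟨k, u, cpH_N hp c j hu, hk⟩

/-- The intermediate fields: K j is the fixed field of γ^(p^(n+j)) in N. -/
theorem cp_lay (hp : p.Prime) (c : CycP p n t M N' N γ) :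
    ∃ K : ℕ → IntermediateField F Ω, K 0 = N' ∧ K t = N ∧ (∀ j < t, CycJ p (n + j) 1 M (K j) (K (j + 1)) γ) ∧
      ∀ j ≤ t, ∀ s, s ∈ (K j).fixingSubgroup ↔ s ∈ N'.fixingSubgroup ∧ s ^ p ^ (t - j) ∈ N.fixingSubgroup := by
  have hlt : ∀ j, cpK hp c j ≤ N := fun j => fix_le (by rw [cpK_fix]; exact cpH_N hp c j)
  refine ⟨cpK hp c, fix_inj ?_, fix_inj ?_, fun j hj => ?_, fun j hj s => ?_⟩
  · rw [cpK_fix]
    ext s
    rw [cpH_iff hp c (Nat.zero_le t)]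
    refine ⟨fun h => h.1, fun h => ⟨h, ?_⟩⟩
    obtain ⟨k, u, hu, rfl⟩ := c.gen s (cp_le' c h)
    have h3 : (γ ^ k)⁻¹ * (γ ^ k * u) ∈ N.fixingSubgroup := by rwa [inv_mul_cancel_left]
    have h1 : γ ^ k ∈ N'.fixingSubgroup := by
      have h2 := mul_mem h (inv_mem (cp_le c hu))
      rwa [mul_inv_cancel_right] at h2
    obtain ⟨l, rfl⟩ := (c.mid k).1 h1
    have h4 := cp_powN c h3 (p ^ (t - 0))
    have h5 : γ ^ (p ^ n * l * p ^ (t - 0)) ∈ N.fixingSubgroup := by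
      rw [c.ord, Nat.sub_zero, pow_add]
      exact ⟨l, by ring⟩
    have h6 : (γ ^ (p ^ n * l) * u) ^ p ^ (t - 0) =
        γ ^ (p ^ n * l * p ^ (t - 0)) * ((γ ^ (p ^ n * l * p ^ (t - 0)))⁻¹ * (γ ^ (p ^ n * l) * u) ^ p ^ (t - 0)) := by group
    rw [h6]
    exact mul_mem h5 h4
  · rw [cpK_fix]
    ext s
    rw [cpH_iff hp c le_rfl, Nat.sub_self, pow_zero, pow_one]
    exact ⟨fun h => h.2, fun h => ⟨cp_le c h, h⟩⟩
  · have hfin : FiniteDimensional F N := c.fin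
    refine ⟨le_rfl, c.posn.trans (Nat.le_add_right n j), ?_, fix_le ?_, fix_le ?_, c.gam, cpK_nrm hp c (j + 1), fun s hs => ?_, fun k => ?_,
      fun k => ?_, ?_, ?_⟩
    · exact Submodule.finiteDimensional_of_le (S₁ := Subalgebra.toSubmodule (cpK hp c (j + 1)).toSubalgebra)
        (S₂ := Subalgebra.toSubmodule N.toSubalgebra) (hlt (j + 1))
    · rw [cpK_fix]
      exact cpH_M hp c j
    · rw [cpK_fix, cpK_fix]
      exact cpH_anti hp c j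
    · obtain ⟨k, u, hu, hk⟩ := c.gen s hs
      refine ⟨k, u, ?_, hk⟩
      rw [cpK_fix]
      exact cpH_N hp c _ hu
    · rw [cpK_fix]
      exact cpH_gam hp c (show j + 1 ≤ t by omega) k
    · rw [cpK_fix]
      exact cpH_gam hp c (show j ≤ t by omega) k
    · exact cpK_deg hp c (show j + 1 ≤ t by omega)
    · rw [cpK_deg hp c (show j + 1 ≤ t by omega), cpK_deg hp c (show j ≤ t by omega), mul_assoc, ← pow_add, ← add_assoc]
  · rw [cpK_fix]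
    exact cpH_iff hp c hj s

end H13P
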