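import Mathlib
import Pool.Agent.Lib.H13P.C0
import Pool.Agent.Lib.H13V.C8

/-! # H13P, module C, file C1: the relaxed places (ports of H13V C5, C6, C8 to the structure CycP) -/

open NumberField IsDedekindDomain WeierstrassCurve

namespace H13P

open H55P H55K H55K.TQ H55K.S
open H35P (WAB)
open H13S (Abv)
open H13X (DecN)
open H13Z (SelNon)
open H55G (OkM LocOk)
open H13T (RV AnW exists_dta c3_fix c4_pow c5_red c7_cob cV mem_cV c1_in c1_dec c1_rv ce_p ce_val ce_bel ce_below ce_top)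
open H41G (lo_below lo_main lo_cases lo_pow)
open H13V (eN ri_main ri_ne sel_absurd)

open scoped Classical

variable {F : Type} [Field F] [NumberField F] [IQ F] {W₀ : WeierstrassCurve (𝓞 F)} {Om : ℂ}
  {m : Ideal (𝓞 F)} {ψ : Ideal (𝓞 F) →*₀ 𝓞 F} {p n t : ℕ} {M N' N : IntermediateField F (AlgebraicClosure F)}
  {γ : AlgebraicClosure F ≃ₐ[F] AlgebraicClosure F}

theorem cp_p (hp : PrimeH F W₀ p) [NumberField N'] [NumberField N] (c : CycP p n t M N' N γ) (hU : UnrP p N)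
    {w : HeightOneSpectrum (𝓞 N')} (hw : w ∈ AnW p W₀ N' N) : (p : 𝓞 N') ∉ w.asIdeal := by
  exact H13R.g6_ram_p hp.prime (cp_pext hp.prime.pos c).2.2 c.le' le_rfl hU hw.2.1

theorem cp_n (hp : PrimeH F W₀ p) [NumberField N'] [NumberField N] (c : CycP p n t M N' N γ) (hU : UnrP p N)
    {w : HeightOneSpectrum (𝓞 N')} (hw : w ∈ AnW p W₀ N' N) : p ∣ Ideal.absNorm w.asIdeal - 1 := by
  exact H55P.ram_norm p hp.prime N' N (cp_pext hp.prime.pos c).2.2 N c.le' le_rfl hU w hw.2.1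

/-- A relaxed place lies above a prime in AnW. -/
theorem cp_below (hH : BaseH F W₀ Om m ψ) (hp : PrimeH F W₀ p) [NumberField M] [NumberField N'] [NumberField N]
    (c : CycP p n t M N' N γ) (hU : UnrP p N) (hB : OkM p W₀ M) {V : ValuationSubring (AlgebraicClosure F)}
    (hV : RV (W₀⁄F) p N' N V) : ∃ w ∈ AnW p W₀ N' N, Abv N' V w := by
  obtain ⟨⟨s, hs, hin, hsN⟩, T, hT0, hTp, hTf⟩ := hV
  have hPE := (cp_pext hp.prime.pos c).2.2
  have hVt : V ≠ ⊤ := by
    rintro rfl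
    apply hsN
    rw [H13T.ce_top hin]
    exact one_mem _
  obtain ⟨w, hw⟩ := H13T.ce_below hVt N'
  have hbel : Below V N' w.asIdeal := H13T.ce_bel hw
  have hfN := c.fin
  have hfN' : FiniteDimensional F N' := H55P.s13_fin c.le'
  have hram : Ram N' N w.asIdeal := by
    by_contra hr
    refine hsN (H55P.inert_mem N' N c.le' hPE.norm V (fun v hv hrv => hr ?_) s hs hin)
    have e : v.asIdeal = w.asIdeal := by
      ext x
      exact (hv x).trans (hbel x).symm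
    rwa [e] at hrv
  have hpw : (p : 𝓞 N') ∉ w.asIdeal := H13R.g6_ram_p hp.prime hPE c.le' le_rfl hU hram
  have hΔ : algebraMap (𝓞 F) (𝓞 N') W₀.Δ ∉ w.asIdeal := by
    intro hΔw
    obtain ⟨v, hv, hvΔ⟩ := lo_below c.le hbel
    exact hT0 (lo_main hH hp (cp_pext hp.prime.pos c).1 hB c.le' hv ((hvΔ _).2 hΔw) T hTp fun t ht htd => hTf t ht htd)
  refine ⟨w, ⟨hΔ, hram, ?_⟩, hw⟩
  by_contra hc
  exact hT0 (H55P.fix_local W₀ p hp.prime N' V w hbel hΔ hpw hc T hTp hTf)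

/-- The decomposition group over M of a relaxed place fixes all points killed by p. -/
theorem cp_dec (hH : BaseH F W₀ Om m ψ) (hp : PrimeH F W₀ p) [NumberField M] [NumberField N'] [NumberField N]
    (c : CycP p n t M N' N γ) (hU : UnrP p N) (hB : OkM p W₀ M) {V : ValuationSubring (AlgebraicClosure F)}
    (hV : RV (W₀⁄F) p N' N V) (φ : AlgebraicClosure F ≃ₐ[F] AlgebraicClosure F) (hφ : φ ∈ M.fixingSubgroup) (hd : Dec V φ)
    (T : Pt (W₀⁄F) (AlgebraicClosure F)) (hT : p • T = 0) : ac (W₀⁄F) φ T = T := by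
  obtain ⟨w, hw, hVw⟩ := cp_below hH hp c hU hB hV
  obtain ⟨-, T0, hT00, hT0p, hT0f⟩ := hV
  obtain ⟨A, B, j, act, hA, hB', dta⟩ := exists_dta hH hp
  obtain ⟨r, s, t, Θ, -, -, hΘ⟩ := H13R.r6_iso (Ω := AlgebraicClosure F) W₀ hH.data.ell hA hB'
  obtain ⟨T1, rfl⟩ := Θ.surjective T0
  have hT10 : T1 ≠ 0 := by
    rintro rfl
    exact hT00 (map_zero Θ)
  have hT1p : p • T1 = 0 := by
    apply Θ.injective
    rw [map_nsmul, hT0p, map_zero]
  have hT1f : ∀ s, DecN N' V s → ac (WAB A B) s T1 = T1 := by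
    intro s hs
    apply Θ.injective
    rw [← hΘ, hT0f s hs.1 hs.2]
  obtain ⟨k, hk⟩ := H55P.PExt.pow p hp.prime M N' (cp_pext hp.prime.pos c).2.1
  obtain ⟨S, rfl⟩ := Θ.surjective T
  have hS : p • S = 0 := by
    apply Θ.injective
    rw [map_nsmul, hT, map_zero]
  rw [hΘ]
  refine congrArg Θ (c4_pow dta dta.unr φ k (fun S' hS' => ?_) S hS)
  refine c3_fix dta dta.unr N' hVw (cp_p hp c hU hw) (cp_n hp c hU hw) hT10 hT1p hT1f _ ⟨hk φ hφ, ?_⟩ S' hS'
  have h1 : φ ∈ H55P.decS F V := hd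
  exact pow_mem h1 (p ^ k)

/-- Congruent exponents give the same class modulo N'. -/
theorem cp_cong (c : CycP p n t M N' N γ) {a b : ℕ} (h : a ≡ b [MOD p ^ n]) : (γ ^ a)⁻¹ * γ ^ b ∈ N'.fixingSubgroup := by
  rcases le_total a b with h9 | h9
  · have h10 : (γ ^ a)⁻¹ * γ ^ b = γ ^ (b - a) := by
      rw [inv_mul_eq_iff_eq_mul, ← pow_add]
      congr 1
      omega
    rw [h10, c.mid]
    exact (Nat.modEq_iff_dvd' h9).1 h
  · have h10 : (γ ^ a)⁻¹ * γ ^ b = (γ ^ (a - b))⁻¹ := by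
      rw [inv_mul_eq_iff_eq_mul, eq_mul_inv_iff_mul_eq, ← pow_add]
      congr 1
      omega
    rw [h10]
    apply inv_mem
    rw [c.mid]
    exact (Nat.modEq_iff_dvd' h9).1 h.symm

/-- Powers of a representative of the class of γ^d. -/
theorem cp_powc (c : CycP p n t M N' N γ) {d : ℕ} {δ : AlgebraicClosure F ≃ₐ[F] AlgebraicClosure F}
    (h : (γ ^ d)⁻¹ * δ ∈ N'.fixingSubgroup) (k : ℕ) : (γ ^ (d * k))⁻¹ * δ ^ k ∈ N'.fixingSubgroup := by
  induction k with
  | zero =>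
    rw [mul_zero, pow_zero, pow_zero, inv_one, one_mul]
    exact one_mem _
  | succ k ih =>
    have h5 : (γ ^ (d * (k + 1)))⁻¹ * δ ^ (k + 1) =
        ((γ ^ d)⁻¹ * ((γ ^ (d * k))⁻¹ * δ ^ k) * ((γ ^ d)⁻¹)⁻¹) * ((γ ^ d)⁻¹ * δ) := by
      have h6 : γ ^ (d * (k + 1)) = γ ^ (d * k) * γ ^ d := by
        rw [mul_add, mul_one, pow_add]
      rw [h6, pow_succ, mul_inv_rev]
      simp only [mul_assoc, inv_inv, mul_inv_cancel_left]
    rw [h5]
    exact mul_mem (((cp_iff c _ (inv_mem (pow_mem c.gam d))).1 _).2 ih) h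

omit [IQ F] in
/-- Ramified means that the ramification index is not one. -/
theorem cp_eN_ne [NumberField N'] [NumberField N] (c : CycP p n t M N' N γ) (hp : 0 < p) (w : HeightOneSpectrum (𝓞 N')) :
    Ram N' N w.asIdeal ↔ eN c.le' w ≠ 1 := by
  have hfin : FiniteDimensional F N := c.fin
  obtain ⟨-, -, hx⟩ := cp_pext hp c
  exact H41S.ram_es N' N c.le' w (s13_galois N' N c.le' hx.norm)

omit [IQ F] in
/-- The inertia group at a place above w. -/
theorem cp_ri [NumberField N'] [NumberField N] (c : CycP p n t M N' N γ) (hp : 0 < p)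
    {V : ValuationSubring (AlgebraicClosure F)} {w : HeightOneSpectrum (𝓞 N')} (hV : Abv N' V w) :
    ∃ τ ∈ N'.fixingSubgroup, Inert V τ ∧
      (∀ s ∈ N'.fixingSubgroup, Inert V s → ∃ k : ℕ, (τ ^ k)⁻¹ * s ∈ N.fixingSubgroup) ∧
      (∀ m : ℕ, τ ^ m ∈ N.fixingSubgroup ↔ eN c.le' w ∣ m) ∧
      ∀ a ∈ N', a ≠ 0 → ∃ x ∈ N, V.valuation x ^ eN c.le' w = V.valuation a := by
  obtain ⟨-, -, hx⟩ := cp_pext hp c
  exact ri_main c.fin c.le' hx.norm (cp_cyc c) hV

/-- A prime of N' ramified in N does not contain p, and p divides its norm minus one; some inertia element does not fix N. -/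
theorem cp_norm (hp : PrimeH F W₀ p) [NumberField N'] [NumberField N] (c : CycP p n t M N' N γ) (hU : UnrP p N)
    {V : ValuationSubring (AlgebraicClosure F)} {w : HeightOneSpectrum (𝓞 N')} (hV : Abv N' V w) (hr : Ram N' N w.asIdeal) :
    (p : 𝓞 N') ∉ w.asIdeal ∧ p ∣ Ideal.absNorm w.asIdeal - 1 ∧
      ∃ s ∈ N'.fixingSubgroup, Inert V s ∧ s ∉ N.fixingSubgroup := by
  obtain ⟨-, -, hx⟩ := cp_pext hp.prime.pos c
  obtain ⟨τ, h1, h2, -, h4, -⟩ := cp_ri c hp.prime.pos hV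
  have h5 : τ ∉ N.fixingSubgroup := by
    intro h
    have h6 := (h4 1).1 (by rwa [pow_one])
    exact (cp_eN_ne c hp.prime.pos w).1 hr (Nat.dvd_one.1 h6)
  refine ⟨fun h => ?_, H55P.ram_norm p hp.prime N' N hx N c.le' le_rfl hU w hr, τ, h1, h2, h5⟩
  have h6 := (ce_val hV p).1 h
  rw [ce_p hp hU h2 h5] at h6
  exact lt_irrefl _ h6

/-- The relaxed places are the places above the primes in AnW. -/
theorem cp_rv (hH : BaseH F W₀ Om m ψ) (hp : PrimeH F W₀ p) [NumberField M] [NumberField N'] [NumberField N]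
    (c : CycP p n t M N' N γ) (hB : OkM p W₀ M) (hU : UnrP p N)
    {V : ValuationSubring (AlgebraicClosure F)} {w : HeightOneSpectrum (𝓞 N')} (hV : Abv N' V w) :
    RV (W₀⁄F) p N' N V ↔ w ∈ AnW p W₀ N' N := by
  constructor
  · intro h
    obtain ⟨w', hw', hVw'⟩ := cp_below hH hp c hU hB h
    rwa [H13T.abv_unique hV hVw']
  · rintro ⟨hΔ, hr, hc⟩
    obtain ⟨hpw, -, hs⟩ := cp_norm hp c hU hV hr
    refine ⟨hs, ?_⟩
    obtain ⟨A, B, j, act, hA, hB', dta⟩ := SSG.exists_dtaAB hH hp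
    obtain ⟨Θ, hΘ⟩ := SSG.short_iso W₀ hA hB' hH.data.ell (Ω := AlgebraicClosure F)
    obtain ⟨T, hT0, hT, hfT⟩ := H13R.lk_decR dta.cma W₀ hH.data.ell hA hB' N' hΔ hV hp.prime hp.five hpw hc
    refine ⟨Θ.symm T, ?_, ?_, fun s hs hd => ?_⟩
    · rw [Ne, EmbeddingLike.map_eq_zero_iff]
      exact hT0
    · rw [← map_nsmul, hT, map_zero]
    · apply Θ.injective
      rw [hΘ, Θ.apply_symm_apply, hfT s ⟨hs, hd⟩]

/-- The prime of M below a relaxed place is unramified in N' (theorem X: the Selmer group over N' is zero). -/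
theorem cp_unram (hH : BaseH F W₀ Om m ψ) (hp : PrimeH F W₀ p) [NumberField M] [NumberField N'] [NumberField N]
    (c : CycP p n t M N' N γ) (hU : UnrP p N) (hB : OkM p W₀ M) (hS : SelG p W₀ N') {V : ValuationSubring (AlgebraicClosure F)}
    (hV : RV (W₀⁄F) p N' N V) : ∃ v : HeightOneSpectrum (𝓞 M), Abv M V v ∧ algebraMap (𝓞 F) (𝓞 M) W₀.Δ ∉ v.asIdeal ∧
      (p : 𝓞 M) ∉ v.asIdeal ∧ ∀ s ∈ M.fixingSubgroup, Inert V s → s ∈ N'.fixingSubgroup := by
  obtain ⟨w, hw, hVw⟩ := cp_below hH hp c hU hB hV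
  have hVt := ri_ne hVw
  obtain ⟨v, hv⟩ := ce_below hVt M
  have hbv : Below V M v.asIdeal := ce_bel hv
  have hbw : Below V N' w.asIdeal := ce_bel hVw
  have hΔ : algebraMap (𝓞 F) (𝓞 M) W₀.Δ ∉ v.asIdeal := by
    intro h
    apply hw.1
    rw [hbw]
    exact (hbv _).1 h
  have hpv : (p : 𝓞 M) ∉ v.asIdeal := by
    intro h
    exact cp_p hp c hU hw ((ce_val hVw p).2 ((ce_val hv p).1 h))
  have hfin : FiniteDimensional F N := c.fin
  have hx := (cp_pext hp.prime.pos c).2.1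
  have hfin' : FiniteDimensional F N' := hx.fin
  refine ⟨v, hv, hΔ, hpv, H55P.inert_mem M N' c.le hx.norm V fun v' hv' hr => ?_⟩
  have e : v' = v := by
    apply HeightOneSpectrum.ext
    ext x
    rw [hv' x, hbv x]
  rw [e] at hr
  have hUN : UnrP p N' := H13R.unr_le hp.prime c.le' hU
  have hno : H13R.NoRel p W₀ M N' := by
    by_contra hn
    exact sel_absurd hS (H13R.nonselR hH hp hx hUN c.le le_rfl hn)
  have hc := hno v hr hΔ
  obtain ⟨-, T, hT0, hTp, -⟩ := id hV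
  exact hT0 (H55P.fix_local W₀ p hp.prime M V v hbv hΔ hpv hc T hTp fun s hs hd => cp_dec hH hp c hU hB hV s hs hd T hTp)

omit [IQ F] in
theorem cp_fin [NumberField N'] [NumberField N] (c : CycP p n t M N' N γ) : (AnW p W₀ N' N).Finite := by
  have hfd : FiniteDimensional F N := c.fin
  let _ := s13_alg c.le'
  have hgal : IsGalois N' N := s13_galois N' N c.le'
    (fun g hg x hx => c.nrm g (IntermediateField.fixingSubgroup_antitone c.le hg) x hx)
  have hD : differentIdeal (𝓞 N') (𝓞 N) ≠ ⊥ := differentIdeal_ne_bot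
  refine Set.Finite.subset (Set.Finite.image (fun W : HeightOneSpectrum (𝓞 N) => W.under (𝓞 N'))
    (Ideal.finite_factors (I := differentIdeal (𝓞 N') (𝓞 N)) hD)) ?_
  rintro w ⟨-, ⟨W, hWp, hW⟩, -⟩
  have hwm := w.isMaximal
  have hle : w.asIdeal.map (algebraMap (𝓞 N') (𝓞 N)) ≤ W ^ 2 :=
    Ideal.map_le_iff_le_comap.2 fun x hx => hW x (algebraMap (𝓞 N') (𝓞 N) x) hx rfl
  have hne : W ≠ ⊥ := by
    intro h1
    have h2 : W ^ 2 = ⊥ := by
      rw [h1]
      exact zero_pow two_ne_zero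
    rw [h2, le_bot_iff] at hle
    exact w.ne_bot ((Ideal.map_eq_bot_iff_of_injective (FaithfulSMul.algebraMap_injective (𝓞 N') (𝓞 N))).1 hle)
  refine ⟨⟨W, hWp, hne⟩, ?_, ?_⟩
  · have h2 : W ^ 2 ∣ w.asIdeal.map (algebraMap (𝓞 N') (𝓞 N)) := Ideal.dvd_iff_le.2 hle
    have h3 := pow_sub_one_dvd_differentIdeal (𝓞 N') W _ w.ne_bot h2
    have h4 : (2 - 1 : ℕ) = 1 := rfl
    rw [h4, pow_one] at h3
    exact h3
  · apply HeightOneSpectrum.ext
    have h5 : w.asIdeal ≤ W.comap (algebraMap (𝓞 N') (𝓞 N)) :=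
      Ideal.map_le_iff_le_comap.1 (hle.trans (Ideal.pow_le_self two_ne_zero))
    exact (hwm.eq_of_le (Ideal.comap_ne_top _ hWp.ne_top) h5).symm

/-- The local conditions at the places which are not relaxed. -/
theorem cp_loc (hH : BaseH F W₀ Om m ψ) (hp : PrimeH F W₀ p) [NumberField M] [NumberField N'] [NumberField N]
    (c : CycP p n t M N' N γ) (hU : UnrP p N) (hB : OkM p W₀ M) {V : ValuationSubring (AlgebraicClosure F)}
    (hV : ¬ RV (W₀⁄F) p N' N V) : (∀ s ∈ N'.fixingSubgroup, Inert V s → s ∈ N.fixingSubgroup) ∨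
      ((∀ s ∈ N'.fixingSubgroup, Inert V s → ∀ (k : ℕ) (P : Pt (W₀⁄F) (AlgebraicClosure F)),
          p ^ k • (ac (W₀⁄F) s P - P) = 0 → ac (W₀⁄F) s P = P) ∧
        ∀ T : Pt (W₀⁄F) (AlgebraicClosure F), p • T = 0 → (∀ s ∈ N'.fixingSubgroup, Dec V s → ac (W₀⁄F) s T = T) → T = 0) ∨
      (V.valuation (p : AlgebraicClosure F) = 1 ∧ ∀ T : Pt (W₀⁄F) (AlgebraicClosure F), p • T = 0 →
        (∀ s ∈ N'.fixingSubgroup, Inert V s → ac (W₀⁄F) s T = T) → T = 0) := by
  have hpp := hp.prime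
  obtain ⟨hMN, -, hNN⟩ := cp_pext hpp.pos c
  have hfin : FiniteDimensional F N := c.fin
  have hfin' : FiniteDimensional F N' := inferInstance
  rcases below_cases N' V with ⟨w, hw⟩ | h
  swap
  · left
    intro s _ hi
    rw [h s hi]
    exact one_mem _
  by_cases hin : ∀ s ∈ N'.fixingSubgroup, Inert V s → s ∈ N.fixingSubgroup
  · exact Or.inl hin
  right
  have hin' : ∃ s ∈ N'.fixingSubgroup, Inert V s ∧ s ∉ N.fixingSubgroup := by
    by_contra h1
    exact hin fun s hs hi => by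
      by_contra h2
      exact h1 ⟨s, hs, hi, h2⟩
  have hno : ∀ T : Pt (W₀⁄F) (AlgebraicClosure F), p • T = 0 → (∀ s ∈ N'.fixingSubgroup, Dec V s → ac (W₀⁄F) s T = T) → T = 0 := by
    intro T hT hs
    by_contra hT0
    exact hV ⟨hin', T, hT0, hT, hs⟩
  have hram : Ram N' N w.asIdeal := by
    by_contra hr
    refine hin (inert_mem N' N c.le' (fun s hs x hx => c.nrm s (IntermediateField.fixingSubgroup_antitone c.le hs) x hx) V fun v hv => ?_)
    have e1 : v = w := by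
      apply HeightOneSpectrum.ext
      ext x
      rw [hv x, hw x]
    rw [e1]
    exact hr
  have hpw : (p : 𝓞 N') ∉ w.asIdeal := H13R.g6_ram_p hpp hNN c.le' le_rfl hU hram
  by_cases hΔ : algebraMap (𝓞 F) (𝓞 N') W₀.Δ ∈ w.asIdeal
  · obtain ⟨v, hv, hvΔ⟩ := lo_below c.le hw
    rcases lo_cases hH hp hMN hB c.le' hv ((hvΔ _).2 hΔ) with h1 | h1
    · exact Or.inr ⟨val_below N' V w hw p hpw, h1⟩
    · exact Or.inl ⟨fun s hs hi k P h =>
        lo_pow h1 (IntermediateField.fixingSubgroup_antitone c.le hs) hi k P h, hno⟩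
  · left
    exact ⟨fun s _ hi k P h => c5_red hH hp hΔ hpw hw s hi k P h, hno⟩

end H13P
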