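import Mathlib
import Pool.Agent.Lib.H13V.U4

/-!
# H13P: the algebraic side of theorem (T+): definitions

G is a group acting on an abelian group M (ρ), U a family of open subgroups, I v the inertia groups, D v the decomposition groups (v in Vs).
L 0 ≥ L 1 ≥ ... ≥ L t are the groups of the fields K' = K_0 ⊆ K_1 ⊆ ... ⊆ K_t = K, of degree p^j over K', H₀ the group of M₀, K/M₀ abelian, η in H₀,
η^(p^(j+1)) generates L j modulo L (j+1). R v: the relaxed places. Everything is used for G = Gal(Ω/F), M = E(Ω).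
PROOF of the structure theorem: PROOF.md.
-/

namespace H13P

open H55P H13T H13V

variable {G M Vs : Type} [Group G] [AddCommGroup M]

/-- The data. -/
structure TP (ρ : G →* AddMonoid.End M) (p t : ℕ) (U : Set (Subgroup G)) (I D : Vs → Subgroup G) (L : ℕ → Subgroup G) (H₀ : Subgroup G)
    (η : G) (R : Vs → Prop) : Prop where
  hp : p.Prime
  hUi : ∀ O ∈ U, ∀ O' ∈ U, O ⊓ O' ∈ U
  hUc : ∀ O ∈ U, ∀ g : G, ∃ O' ∈ U, ∀ s ∈ O', g * s * g⁻¹ ∈ O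
  hLU : ∀ j ≤ t, L j ∈ U
  /-- L j is the subgroup of index p^j of the group L 0, which is cyclic modulo L t -/
  hLm : ∀ j ≤ t, ∀ s, s ∈ L j ↔ s ∈ L 0 ∧ s ^ p ^ (t - j) ∈ L t
  hLg : ∀ j < t, ∀ h ∈ L j, ∃ i : ℕ, ∃ n ∈ L (j + 1), h = (η ^ p ^ (j + 1)) ^ i * n
  hLη : ∀ j ≤ t, η ^ p ^ (j + 1) ∈ L j
  hHH : L 0 ≤ H₀
  hcomm : ∀ a ∈ H₀, ∀ b ∈ H₀, a * b * a⁻¹ * b⁻¹ ∈ L t
  hη : η ∈ H₀
  hconj : ∀ g ∈ H₀, ∀ v, ∃ v', (∀ s, s ∈ I v' ↔ g * s * g⁻¹ ∈ I v) ∧ (R v' ↔ R v)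
  hDI : ∀ v, ∀ φ ∈ D v, ∀ s ∈ I v, φ * s * φ⁻¹ ∈ I v
  h0 : ∀ T : M, p • T = 0 → (∀ s ∈ L t, ρ s T = T) → T = 0
  hdiv : ∀ T : M, ∃ T', p • T' = T
  hfix : ∀ T : M, ∃ O ∈ U, ∀ s ∈ O, ρ s T = T
  /-- the alternatives at the places which are not relaxed, in every step: unramified in the step; good and not anomalous; no p-torsion fixed by
  inertia -/
  hloc : ∀ j < t, ∀ v, ¬ R v → (∀ s ∈ L j, s ∈ I v → s ∈ L (j + 1)) ∨
      ((∀ s ∈ L j, s ∈ I v → ∀ (k : ℕ) (P : M), p ^ k • (ρ s P - P) = 0 → ρ s P = P) ∧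
        ∀ T : M, p • T = 0 → (∀ s ∈ L j, s ∈ D v → ρ s T = T) → T = 0) ∨
      (∀ c : G → M, IsC ρ (L j ⊓ I v) c → (∀ s ∈ L j ⊓ I v, p • c s = 0) → Cont U (L j ⊓ I v) c →
        ∃ T : M, p • T = 0 ∧ ∀ s ∈ L j ⊓ I v, c s = ρ s T - T)
  /-- the relaxed places: inertia acts trivially; the class of η modulo L 0 is represented by an element of the decomposition group which acts
  trivially on the points killed by p -/
  hR : ∀ v, R v → (∀ s ∈ L 0, s ∈ I v → ∀ (k : ℕ) (P : M), p ^ k • (ρ s P - P) = 0 → ρ s P = P) ∧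
      ∃ φ ∈ D v, φ ∈ H₀ ∧ φ⁻¹ * η ∈ L 0 ∧ ∀ T : M, p • T = 0 → ρ φ T = T
  sel : SelA ρ p U I (L 0)

/-- The index set of the relaxed primes of K': a place v w, an element τ w of its inertia group generating it modulo L t, of order p^(ex w) modulo
L t; every relaxed place is conjugate under L 0 to one of them. -/
structure TX (p t : ℕ) (I : Vs → Subgroup G) (L : ℕ → Subgroup G) (R : Vs → Prop) (ι : Type) (v : ι → Vs) (τ : ι → G) (ex : ι → ℕ) :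
    Prop where
  rel : ∀ w, R (v w)
  mem : ∀ w, τ w ∈ L 0
  ine : ∀ w, τ w ∈ I (v w)
  gen : ∀ w, ∀ s ∈ L 0, s ∈ I (v w) → ∃ i : ℕ, ∃ n ∈ L t, n ∈ I (v w) ∧ s = τ w ^ i * n
  cov : ∀ u, R u → ∃ w, ∃ h ∈ L 0, ∀ s, s ∈ I u ↔ h * s * h⁻¹ ∈ I (v w)
  ord : ∀ w (m : ℕ), τ w ^ m ∈ L t ↔ p ^ ex w ∣ m
  le : ∀ w, ex w ≤ t

section

variable {ρ : G →* AddMonoid.End M} {p t : ℕ} {U : Set (Subgroup G)} {I D : Vs → Subgroup G}
  {L : ℕ → Subgroup G} {H₀ : Subgroup G} {η : G} {R : Vs → Prop}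

theorem TP.mono (S : TP ρ p t U I D L H₀ η R) {i j : ℕ} (hij : i ≤ j) (hj : j ≤ t) : L j ≤ L i := by
  intro s hs
  obtain ⟨h1, h2⟩ := (S.hLm j hj s).1 hs
  refine (S.hLm i (hij.trans hj) s).2 ⟨h1, ?_⟩
  have h3 : p ^ (t - i) = p ^ (t - j) * p ^ (j - i) := by
    rw [← pow_add]
    congr 1
    omega
  rw [h3, pow_mul]
  exact (L t).pow_mem h2 _

theorem TP.hNH (S : TP ρ p t U I D L H₀ η R) : L t ≤ L 0 := S.mono (Nat.zero_le t) le_rfl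

theorem TP.hN (S : TP ρ p t U I D L H₀ η R) : L t ∈ U := S.hLU t le_rfl

theorem TP.hηp (S : TP ρ p t U I D L H₀ η R) : η ^ p ∈ L 0 := by
  have h := S.hLη 0 (Nat.zero_le t)
  rwa [zero_add, pow_one] at h

theorem TP.hηpp (S : TP ρ p t U I D L H₀ η R) : η ^ (p ^ (t + 1)) ∈ L t := S.hLη t le_rfl

theorem TP.hgen (S : TP ρ p t U I D L H₀ η R) : ∀ h ∈ L 0, ∃ i : ℕ, ∃ n ∈ L t, h = (η ^ p) ^ i * n := by
  have key : ∀ j ≤ t, ∀ h ∈ L 0, ∃ i : ℕ, ∃ n ∈ L j, h = (η ^ p) ^ i * n := by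
    intro j
    induction j with
    | zero => exact fun _ h hh => ⟨0, h, hh, by rw [pow_zero, one_mul]⟩
    | succ j ih =>
      intro hj h hh
      obtain ⟨i, n, hn, rfl⟩ := ih (by omega) h hh
      obtain ⟨i', n', hn', rfl⟩ := S.hLg j (by omega) n hn
      refine ⟨i + p ^ j * i', n', hn', ?_⟩
      have e : (η ^ p ^ (j + 1)) ^ i' = (η ^ p) ^ (p ^ j * i') := by
        rw [← pow_mul, ← pow_mul]
        congr 1
        rw [pow_succ]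
        ring
      rw [e, ← mul_assoc, ← pow_add]
  exact key t le_rfl

end

end H13P
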