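import Mathlib
import Pool.Agent.Lib.H13P.C1
import Pool.Agent.Lib.H13P.D
import Pool.Agent.Lib.H13V.CE

/-! # H13P, module C, file C2: the index set, the Frobenius elements over M -/

open NumberField IsDedekindDomain WeierstrassCurve

namespace H13P

open H55P (IQ embF eF LF Per IsHecke Pt ac acR Inert Dec Nm Coc PExt UnrP Ram RamF SelZero SelG inS decS Below)
open H35P (WAB Ker tt)
open H55K H55K.TQ
open H55K.S
open H13S (Abv)
open H13X
open H13R
open H55G (OkM LocOk)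
open H13T (IsC Cont Tr RV AnW ce_p ce_val ce_bel ce_below ce_top ce_ne inert_conj abv_unique c5_red c9_hI c11_fin)
open H13V (eN ri_main ri_ne j_num)

open scoped Classical

variable {F : Type} [Field F] [NumberField F] [IQ F] {W₀ : WeierstrassCurve (𝓞 F)} {Om : ℂ}
    {m : Ideal (𝓞 F)} {ψ : Ideal (𝓞 F) →*₀ 𝓞 F} {p n t : ℕ} {M N' N : IntermediateField F (AlgebraicClosure F)}
    [NumberField M] [NumberField N'] [NumberField N] {γ : AlgebraicClosure F ≃ₐ[F] AlgebraicClosure F}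

omit [IQ F] [NumberField M] in
/-- The ramification index is a power of p, at most p^t. -/
theorem eP_pow (c : CycP p n t M N' N γ) (hp : p.Prime) (w : HeightOneSpectrum (𝓞 N')) : ∃ i ≤ t, eN c.le' w = p ^ i := by
  obtain ⟨V, hV⟩ := H13S.exists_above (Ω := AlgebraicClosure F) N' w
  obtain ⟨τ, h1, -, -, h4, -⟩ := cp_ri c hp.pos hV
  obtain ⟨i, u, hu, hτ⟩ := cp_gen c τ h1
  have h5 : (γ ^ (p ^ n * i))⁻¹ * τ ∈ N.fixingSubgroup := by
    rw [hτ, ← pow_mul γ, cp_pow c, ← pow_mul, inv_mul_cancel_left]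
    exact hu
  have h6 : ∀ k : ℕ, (γ ^ (p ^ n * i * k))⁻¹ * τ ^ k ∈ N.fixingSubgroup := by
    intro k
    induction k with
    | zero =>
      rw [mul_zero, pow_zero, pow_zero, inv_one, one_mul]
      exact one_mem _
    | succ k ih =>
      have h7 : (γ ^ (p ^ n * i * (k + 1)))⁻¹ * τ ^ (k + 1) =
          ((γ ^ (p ^ n * i))⁻¹ * ((γ ^ (p ^ n * i * k))⁻¹ * τ ^ k) * ((γ ^ (p ^ n * i))⁻¹)⁻¹) * ((γ ^ (p ^ n * i))⁻¹ * τ) := by
        have h8 : γ ^ (p ^ n * i * (k + 1)) = γ ^ (p ^ n * i * k) * γ ^ (p ^ n * i) := by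
          rw [mul_add, mul_one, pow_add]
        rw [h8, pow_succ, mul_inv_rev]
        simp only [mul_assoc, inv_inv, mul_inv_cancel_left]
      rw [h7]
      exact mul_mem (((cp_iff c _ (inv_mem (Subgroup.pow_mem _ c.gam _))).2 _).2 ih) h5
  have h7 : τ ^ p ^ t ∈ N.fixingSubgroup := by
    have h8 : γ ^ (p ^ n * i * p ^ t) ∈ N.fixingSubgroup := by
      rw [c.ord, pow_add]
      exact ⟨i, by ring⟩
    have h9 : τ ^ p ^ t = γ ^ (p ^ n * i * p ^ t) * ((γ ^ (p ^ n * i * p ^ t))⁻¹ * τ ^ p ^ t) := by group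
    rw [h9]
    exact mul_mem h8 (h6 _)
  obtain ⟨k, hk, hk'⟩ := (Nat.dvd_prime_pow hp).1 ((h4 _).1 h7)
  exact ⟨k, hk, hk'⟩

/-- The exponent of the ramification index. -/
noncomputable def exP (c : CycP p n t M N' N γ) (w : AnW p W₀ N' N) : ℕ := (eN c.le' w.1).factorization p

omit [IQ F] [NumberField M] in
theorem exP_pow (c : CycP p n t M N' N γ) (hp : p.Prime) (w : AnW p W₀ N' N) : eN c.le' w.1 = p ^ exP c w ∧ exP c w ≤ t := by
  obtain ⟨i, hi, h⟩ := eP_pow c hp w.1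
  have h1 : exP c w = i := by
    unfold exP
    rw [h, hp.factorization_pow]
    simp
  rw [h1]
  exact ⟨h, hi⟩

/-- p is unramified in N'. -/
theorem cp_unr (hp : PrimeH F W₀ p) (c : CycP p n t M N' N γ) (hU : UnrP p N) : UnrP p N' :=
  H13R.unr_le hp.prime c.le' hU

/-- The index set of the relaxed primes. -/
theorem cp_ti (hH : BaseH F W₀ Om m ψ) (hp : PrimeH F W₀ p) (c : CycP p n t M N' N γ) (hB : OkM p W₀ M) (hU : UnrP p N)
    {L : ℕ → Subgroup (AlgebraicClosure F ≃ₐ[F] AlgebraicClosure F)} (hL0 : L 0 = N'.fixingSubgroup) (hLt : L t = N.fixingSubgroup) :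
    ∃ (v : AnW p W₀ N' N → ValuationSubring (AlgebraicClosure F)) (τ : AnW p W₀ N' N → AlgebraicClosure F ≃ₐ[F] AlgebraicClosure F),
      (∀ w : AnW p W₀ N' N, Abv N' (v w) w.1) ∧
      (∀ w : AnW p W₀ N' N, ∀ a ∈ N', a ≠ 0 → ∃ x ∈ N, (v w).valuation x ^ p ^ exP c w = (v w).valuation a) ∧
      (∀ w : AnW p W₀ N' N, 1 ≤ exP c w) ∧ (∀ w, ∀ s ∈ N'.fixingSubgroup, Inert (v w) s → ∃ k : ℕ, (τ w ^ k)⁻¹ * s ∈ N.fixingSubgroup) ∧
      TX p t (inS F) L (RV (W₀⁄F) p N' N) (AnW p W₀ N' N) v τ (exP c) := by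
  choose v hv using fun w : AnW p W₀ N' N => H13S.exists_above (Ω := AlgebraicClosure F) N' w.1
  choose τ h1 h2 h3 h4 h5 using fun w : AnW p W₀ N' N => cp_ri c hp.prime.pos (hv w)
  refine ⟨v, τ, hv, fun w a ha ha0 => ?_, fun w => ?_, h3, fun w => (cp_rv hH hp c hB hU (hv w)).2 w.2, fun w => ?_, h2,
    fun w s hs hi => ?_, fun u hu => ?_, fun w m => ?_, fun w => (exP_pow c hp.prime w).2⟩
  · obtain ⟨x, hx, hxa⟩ := h5 w a ha ha0
    exact ⟨x, hx, by rw [← (exP_pow c hp.prime w).1, hxa]⟩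
  · by_contra h
    have h6 : exP c w = 0 := by omega
    have h7 := (exP_pow c hp.prime w).1
    rw [h6, pow_zero] at h7
    exact (cp_eN_ne c hp.prime.pos w.1).1 w.2.2.1 h7
  · rw [hL0]
    exact h1 w
  · rw [hL0] at hs
    obtain ⟨k, hk⟩ := h3 w s hs hi
    rw [← hLt] at hk
    refine ⟨k, _, hk, ?_, ?_⟩
    · exact mul_mem (inv_mem ((inS F (v w)).pow_mem (h2 w) k)) hi
    · rw [mul_inv_cancel_left]
  · obtain ⟨w, hw⟩ := ce_below (ce_ne hu) N'
    have hwA := (cp_rv hH hp c hB hU hw).1 hu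
    obtain ⟨h, hh, hhx⟩ := trans_V N' hw (hv ⟨w, hwA⟩)
    refine ⟨⟨w, hwA⟩, h, by rwa [hL0], fun s => ⟨fun hs => ?_, fun hs => ?_⟩⟩
    · have e1 : ∀ x, h⁻¹ x ∈ u ↔ x ∈ v ⟨w, hwA⟩ := fun x => by
        rw [← hhx]
        have e2 : h (h⁻¹ x) = x := h.apply_symm_apply x
        rw [e2]
      have h4 := inert_conj e1 hs
      rwa [inv_inv] at h4
    · have h4 := inert_conj hhx hs
      have e1 : h⁻¹ * (h * s * h⁻¹) * h = s := by group
      rwa [e1] at h4
  · rw [hLt, h4, (exP_pow c hp.prime w).1]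

omit [NumberField F] [IQ F] [NumberField M] [NumberField N] in
/-- If x^q = x in the residue field, then it has at most q elements. -/
theorem frob_card {V : ValuationSubring (AlgebraicClosure F)} {w : HeightOneSpectrum (𝓞 N')} (hw : Below V N' w.asIdeal) {q : ℕ}
    (hq : 2 ≤ q) (h : ∀ y : 𝓞 N', V.valuation (((y ^ q - y : 𝓞 N') : N') : AlgebraicClosure F) < 1) : Ideal.absNorm w.asIdeal ≤ q := by
  have hmax := w.isMaximal
  let _ : Field (𝓞 N' ⧸ w.asIdeal) := Ideal.Quotient.field w.asIdeal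
  have hfin : Finite (𝓞 N' ⧸ w.asIdeal) := Ideal.finiteQuotientOfFreeOfNeBot w.asIdeal w.ne_bot
  have hcard : Nat.card (𝓞 N' ⧸ w.asIdeal) = Ideal.absNorm w.asIdeal := by
    rw [Ideal.absNorm_apply, Submodule.cardQuot_apply]
  have hx : ∀ x : 𝓞 N' ⧸ w.asIdeal, x ^ q = x := by
    intro x
    obtain ⟨y, rfl⟩ := Ideal.Quotient.mk_surjective x
    rw [← map_pow, Ideal.Quotient.eq, hw]
    exact h y
  obtain ⟨g, hg⟩ := IsCyclic.exists_generator (α := (𝓞 N' ⧸ w.asIdeal)ˣ)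
  have h1 : orderOf g = Nat.card (𝓞 N' ⧸ w.asIdeal)ˣ := orderOf_eq_card_of_forall_mem_zpowers hg
  have h2 : g ^ (q - 1) = 1 := by
    have h3 : g ^ q = g := by
      apply Units.ext
      rw [Units.val_pow_eq_pow_val]
      exact hx g
    have h4 : g ^ (q - 1) * g = g := by
      rw [← pow_succ, Nat.sub_add_cancel (by omega), h3]
    exact mul_eq_right.1 h4
  have h3 := orderOf_dvd_of_pow_eq_one h2
  rw [h1, Nat.card_units, hcard] at h3
  have h4 := Nat.le_of_dvd (by omega) h3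
  omega

omit [IQ F] [NumberField N] in
/-- If the Frobenius element over M of V fixes N', then the residue fields have the same number of elements. -/
theorem frob_eq (hle : M ≤ N') {V : ValuationSubring (AlgebraicClosure F)} {v : HeightOneSpectrum (𝓞 M)} {w : HeightOneSpectrum (𝓞 N')}
    (hv : Abv M V v) (hw : Abv N' V w) {φ : AlgebraicClosure F ≃ₐ[F] AlgebraicClosure F} (hφ : φ ∈ N'.fixingSubgroup)
    (hF : ∀ x ∈ V, V.valuation (φ x - x ^ Ideal.absNorm v.asIdeal) < 1) : Ideal.absNorm v.asIdeal = Ideal.absNorm w.asIdeal := by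
  have two : ∀ (K : IntermediateField F (AlgebraicClosure F)) [NumberField K] (u : HeightOneSpectrum (𝓞 K)), 2 ≤ Ideal.absNorm u.asIdeal := by
    intro K _ u
    have h1 : Ideal.absNorm u.asIdeal ≠ 0 := fun h => u.ne_bot (Ideal.absNorm_eq_zero_iff.1 h)
    have h2 : Ideal.absNorm u.asIdeal ≠ 1 := fun h => u.isPrime.ne_top (Ideal.absNorm_eq_one_iff.1 h)
    omega
  apply le_antisymm
  · refine frob_card (ce_bel hv) (two N' w) fun y => ?_
    have hmax := w.isMaximal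
    let _ : Field (𝓞 N' ⧸ w.asIdeal) := Ideal.Quotient.field w.asIdeal
    have hfin : Finite (𝓞 N' ⧸ w.asIdeal) := Ideal.finiteQuotientOfFreeOfNeBot w.asIdeal w.ne_bot
    let _ : Fintype (𝓞 N' ⧸ w.asIdeal) := Fintype.ofFinite _
    have hcard : Fintype.card (𝓞 N' ⧸ w.asIdeal) = Ideal.absNorm w.asIdeal := by
      rw [← Nat.card_eq_fintype_card, Ideal.absNorm_apply, Submodule.cardQuot_apply]
    let y' : 𝓞 N' := ⟨IntermediateField.inclusion hle (y : M),
      (RingOfIntegers.isIntegral_coe y).map ((IntermediateField.inclusion hle).restrictScalars ℤ)⟩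
    have h1 : y' ^ Ideal.absNorm w.asIdeal - y' ∈ w.asIdeal := by
      rw [← Ideal.Quotient.eq, map_pow, ← hcard, FiniteField.pow_card]
    rw [ce_bel hw] at h1
    exact h1
  · refine frob_card (ce_bel hw) (two M v) fun y => ?_
    have h1 := hF _ ((hw (y : N')).2 (w.valuation_le_one y))
    have h2 : φ ((y : N') : AlgebraicClosure F) = ((y : N') : AlgebraicClosure F) := (IntermediateField.mem_fixingSubgroup_iff _ _).1 hφ _ (y : N').2
    rw [h2, V.valuation.map_sub_swap] at h1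
    exact h1

/-- The decomposition group over M of a relaxed place contains an element of the class of γ^(p^(n-1)) modulo N'. -/
theorem cp_phi (hH : BaseH F W₀ Om m ψ) (hp : PrimeH F W₀ p) (c : CycP p n t M N' N γ) (hU : UnrP p N) (hB : OkM p W₀ M)
    (nsp : ∀ w ∈ AnW p W₀ N' N, ∀ (v : HeightOneSpectrum (𝓞 M)) (V : ValuationSubring (AlgebraicClosure F)), Abv N' V w → Abv M V v →
      Ideal.absNorm v.asIdeal ≠ Ideal.absNorm w.asIdeal)
    {V : ValuationSubring (AlgebraicClosure F)} (hV : RV (W₀⁄F) p N' N V) :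
    ∃ φ ∈ M.fixingSubgroup, Dec V φ ∧ φ⁻¹ * γ ^ p ^ (n - 1) ∈ N'.fixingSubgroup := by
  obtain ⟨w, hwA, hw⟩ := cp_below hH hp c hU hB hV
  obtain ⟨v, hv⟩ := ce_below (ri_ne hw) M
  obtain ⟨φ, hφ, hφD, hφF⟩ := exists_frobK (F := F) M hv
  obtain ⟨k, u, hu, hφk⟩ := c.gen φ hφ
  have hφk' : (γ ^ k)⁻¹ * φ ∈ N'.fixingSubgroup := by
    rw [hφk, inv_mul_cancel_left]
    exact cp_le c hu
  have hnd : ¬ p ^ n ∣ k := by
    intro hd
    have h1 : φ ∈ N'.fixingSubgroup := by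
      rw [hφk]
      exact mul_mem ((c.mid k).2 hd) (cp_le c hu)
    exact nsp w hwA v V hw hv (frob_eq c.le hv hw h1 hφF)
  have hpn : 0 < p ^ n := pow_pos hp.prime.pos n
  have hd0 : 0 < k % p ^ n := Nat.pos_of_ne_zero fun h => hnd (Nat.dvd_of_mod_eq_zero h)
  obtain ⟨e, he⟩ := j_num (t := 1) hp.prime le_rfl c.posn hd0 (by
    rw [Nat.add_sub_cancel]
    exact Nat.mod_lt _ hpn)
  have he' : k * e ≡ p ^ (n - 1) [MOD p ^ n] := ((Nat.mod_modEq k (p ^ n)).symm.mul_right e).trans he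
  refine ⟨φ ^ e, Subgroup.pow_mem _ hφ e, Subgroup.pow_mem (decS F V) (show φ ∈ decS F V from hφD) e, ?_⟩
  have h11 : (φ ^ e)⁻¹ * γ ^ p ^ (n - 1) = ((γ ^ (k * e))⁻¹ * φ ^ e)⁻¹ * ((γ ^ (k * e))⁻¹ * γ ^ p ^ (n - 1)) := by
    group
  rw [h11]
  exact mul_mem (inv_mem (cp_powc c hφk' e)) (cp_cong c he')

end H13P
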