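import Mathlib
import Pool.Agent.Lib.H13P.C2

/-! # H13P, module C, file C3A: the ramification index divides the number of elements of the residue field minus one -/

open NumberField IsDedekindDomain WeierstrassCurve

namespace H13P

open H55P H55K H55K.TQ H55K.S
open H13S (Abv)
open H13X (DecN)
open H13T (RV AnW ce_p ce_val ce_bel ce_below ce_top)
open H13V (eN ri_main ri_ne)

open scoped Classical

variable {F : Type} [Field F] [NumberField F] [IQ F] {W₀ : WeierstrassCurve (𝓞 F)}
  {p n t : ℕ} {M N' N : IntermediateField F (AlgebraicClosure F)}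
  {γ : AlgebraicClosure F ≃ₐ[F] AlgebraicClosure F}

theorem tm_res {Ω : Type} [Field Ω] (V : ValuationSubring Ω) (a b : V) :
    IsLocalRing.residue V a = IsLocalRing.residue V b ↔ V.valuation ((a : Ω) - b) < 1 := by
  rw [← sub_eq_zero, ← map_sub, IsLocalRing.residue_eq_zero_iff, V.valuation_lt_one_iff]
  rfl

/-- (helper13) The ramification index e of w divides the number of elements of the residue field of w minus one. -/
theorem cp_tame (hp : PrimeH F W₀ p) [NumberField N'] [NumberField N] (c : CycP p n t M N' N γ) (hU : UnrP p N)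
    {w : HeightOneSpectrum (𝓞 N')} (hw : w ∈ AnW p W₀ N' N) : eN c.le' w ∣ Ideal.absNorm w.asIdeal - 1 := by
  have hpp := hp.prime
  obtain ⟨V, hV⟩ := H13S.exists_above (Ω := AlgebraicClosure F) N' w
  obtain ⟨τ, hτ, hτi, hgen, hord, hval⟩ := cp_ri c hpp.pos hV
  obtain ⟨i, -, hi⟩ := eP_pow c hpp w
  rcases Nat.eq_zero_or_pos i with rfl | hipos
  · rw [hi, pow_zero]
    exact one_dvd _
  obtain ⟨i', rfl⟩ : ∃ i', i = i' + 1 := ⟨i - 1, by omega⟩
  have hvp : V.valuation (p : AlgebraicClosure F) = 1 := by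
    refine ce_p hp hU hτi fun h => ?_
    have h1 := (hord 1).1 (by rwa [pow_one])
    rw [hi, Nat.dvd_one] at h1
    exact (Nat.one_lt_pow (by omega) hpp.one_lt).ne' h1
  obtain ⟨a, ha⟩ := w.valuation_exists_uniformizer N'
  have ha0 : a ≠ 0 := by
    rintro rfl
    rw [map_zero] at ha
    exact WithZero.exp_ne_zero ha.symm
  have ha0' : (a : AlgebraicClosure F) ≠ 0 := fun h => ha0 (Subtype.ext h)
  obtain ⟨x, hxN, hx⟩ := hval a a.2 ha0'
  have he : eN c.le' w ≠ 0 := by
    rw [hi]
    exact pow_ne_zero _ hpp.ne_zero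
  have hva : V.valuation (a : AlgebraicClosure F) ≠ 0 := (Valuation.ne_zero_iff _).2 ha0'
  have hx0 : x ≠ 0 := by
    rintro rfl
    rw [map_zero, zero_pow he] at hx
    exact hva hx.symm
  -- elements of the decomposition group preserve the valuations
  have hdv : ∀ s ∈ N'.fixingSubgroup, Dec V s → ∀ y, V.valuation y ^ eN c.le' w = V.valuation (a : AlgebraicClosure F) →
      V.valuation (s y) = V.valuation y := by
    intro s hs hd y hy
    have hsa : s a = a := (IntermediateField.mem_fixingSubgroup_iff _ _).1 hs a a.2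
    have h1 : V.valuation (s y) ^ eN c.le' w = V.valuation (a : AlgebraicClosure F) := by
      rw [← map_pow, ← map_pow]
      rw [← map_pow] at hy
      refine le_antisymm ?_ ?_
      · have h2 := (H13S.dv_le s hd (y ^ eN c.le' w) (a : AlgebraicClosure F)).2 hy.le
        rwa [hsa] at h2
      · have h2 := (H13S.dv_le s hd (a : AlgebraicClosure F) (y ^ eN c.le' w)).2 hy.ge
        rwa [hsa] at h2
    exact (pow_left_inj₀ zero_le zero_le he).1 (h1.trans hy.symm)
  have hvx : V.valuation x ≠ 0 := (Valuation.ne_zero_iff _).2 hx0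
  have hτd : Dec V τ := H55P.inert_dec V τ hτi
  have hdpow : ∀ (s : AlgebraicClosure F ≃ₐ[F] AlgebraicClosure F) (k : ℕ), Dec V s → Dec V (s ^ k) := fun s k h =>
    (H55P.decS F V).pow_mem (show s ∈ H55P.decS F V from h) k
  have hxs : ∀ s ∈ N'.fixingSubgroup, Dec V s → V.valuation (s x) = V.valuation x := fun s hs hd => hdv s hs hd x hx
  have hmem : ∀ s ∈ N'.fixingSubgroup, Dec V s → s x / x ∈ V := by
    intro s hs hd
    rw [← V.valuation_le_one_iff, map_div₀, hxs s hs hd, div_self hvx]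
  -- the residue classes of τ^k x / x
  obtain ⟨z, hz⟩ : ∃ z : V, (z : AlgebraicClosure F) = τ x / x := ⟨⟨_, hmem τ hτ hτd⟩, rfl⟩
  obtain ⟨ζ, hζ⟩ : ∃ ζ, ζ = IsLocalRing.residue V z := ⟨_, rfl⟩
  have hτk : ∀ k : ℕ, τ ^ k ∈ N'.fixingSubgroup := fun k => pow_mem hτ k
  have hk : ∀ (k : ℕ) (u : V), (u : AlgebraicClosure F) = (τ ^ k) x / x → IsLocalRing.residue V u = ζ ^ k := by
    intro k
    induction k with
    | zero =>
      intro u hu
      have h1 : u = 1 := by
        apply Subtype.ext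
        rw [hu, pow_zero]
        exact div_self hx0
      rw [h1, map_one, pow_zero]
    | succ k ih =>
      intro u hu
      obtain ⟨u', hu'⟩ : ∃ u' : V, (u' : AlgebraicClosure F) = (τ ^ k) x / x := ⟨⟨_, hmem _ (hτk k) (hdpow τ k hτd)⟩, rfl⟩
      obtain ⟨u'', hu''⟩ : ∃ u'' : V, (u'' : AlgebraicClosure F) = τ u' := ⟨⟨_, (hτd _).2 u'.2⟩, rfl⟩
      have h1 : u = u'' * z := by
        apply Subtype.ext
        show (u : AlgebraicClosure F) = (u'' : AlgebraicClosure F) * z
        have hτx : τ x ≠ 0 := (map_ne_zero τ).2 hx0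
        rw [hu, hu'', hu', hz, map_div₀, pow_succ']
        show τ ((τ ^ k) x) / x = τ ((τ ^ k) x) / τ x * (τ x / x)
        field_simp
      have h2 : IsLocalRing.residue V u'' = IsLocalRing.residue V u' := by
        rw [tm_res, hu'']
        exact hτi _ u'.2
      rw [h1, map_mul, h2, ih u' hu', ← hζ, pow_succ]
  have hNfix : ∀ s ∈ N.fixingSubgroup, ∀ y ∈ N, s y = y := fun s hs y hy => (IntermediateField.mem_fixingSubgroup_iff _ _).1 hs y hy
  have hNn : ∀ s ∈ N'.fixingSubgroup, ∀ y ∈ N, s y ∈ N := fun s hs y hy => c.nrm s (cp_le' c hs) y hy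
  -- ζ^e = 1
  have hζe : ζ ^ p ^ (i' + 1) = 1 := by
    rw [← hk (p ^ (i' + 1)) 1 ?_, map_one]
    show (1 : AlgebraicClosure F) = _
    rw [← hi, hNfix _ ((hord _).2 dvd_rfl) x hxN, div_self hx0]
  -- ζ^(e/p) is not 1
  have hζn : ¬ ζ ^ p ^ i' = 1 := by
    intro h1
    obtain ⟨σ, hσ⟩ : ∃ σ, σ = τ ^ p ^ i' := ⟨_, rfl⟩
    have hσN' : σ ∈ N'.fixingSubgroup := by
      rw [hσ]
      exact hτk _
    have hσd : Dec V σ := by
      rw [hσ]
      exact hdpow _ _ hτd
    have hσp : σ ^ p ∈ N.fixingSubgroup := by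
      rw [hσ, ← pow_mul, ← pow_succ, ← hi]
      exact (hord _).2 dvd_rfl
    obtain ⟨y, hy⟩ : ∃ y, y = ∑ k ∈ Finset.range p, (σ ^ k) x := ⟨_, rfl⟩
    have hyN : y ∈ N := by
      rw [hy]
      exact sum_mem fun k _ => hNn _ (pow_mem hσN' k) x hxN
    have hσy : σ y = y := by
      have h2 : σ y + x = y + (σ ^ p) x := by
        have h3 := Finset.sum_range_succ (fun k => (σ ^ k) x) p
        have h4 := Finset.sum_range_succ' (fun k => (σ ^ k) x) p
        rw [h3, ← hy] at h4
        rw [h4, hy, map_sum]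
        congr 1
        refine Finset.sum_congr rfl fun k _ => ?_
        rw [pow_succ']
        rfl
      rw [hNfix _ hσp x hxN] at h2
      exact add_right_cancel h2
    have hyx : V.valuation (y / x - p) < 1 := by
      have h2 : y / x - p = ∑ k ∈ Finset.range p, ((σ ^ k) x / x - 1) := by
        rw [Finset.sum_sub_distrib, Finset.sum_const, Finset.card_range, nsmul_eq_mul, mul_one, hy, Finset.sum_div]
      rw [h2]
      refine Valuation.map_sum_lt _ one_ne_zero fun k _ => ?_
      obtain ⟨u, hu⟩ : ∃ u : V, (u : AlgebraicClosure F) = (τ ^ (p ^ i' * k)) x / x := ⟨⟨_, hmem _ (hτk _) (hdpow τ _ hτd)⟩, rfl⟩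
      have h3 := hk _ u hu
      rw [pow_mul, h1, one_pow, ← map_one (IsLocalRing.residue V), tm_res, hu] at h3
      rw [hσ, ← pow_mul]
      exact h3
    have hvyx : V.valuation (y / x) = 1 := by
      have h2 : y / x = (p : AlgebraicClosure F) + (y / x - p) := by ring
      rw [h2, Valuation.map_add_eq_of_lt_left _ (by rw [hvp]; exact hyx), hvp]
    have hvy : V.valuation y = V.valuation x := by
      rw [map_div₀, div_eq_one_iff_eq hvx] at hvyx
      exact hvyx
    have hy0 : y ≠ 0 := by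
      rintro rfl
      rw [map_zero] at hvy
      exact hvx hvy.symm
    obtain ⟨y', hy'⟩ : ∃ y', y' = ∏ k ∈ Finset.range (p ^ i'), (τ ^ k) y := ⟨_, rfl⟩
    have hy'N : y' ∈ N := by
      rw [hy']
      exact prod_mem fun k _ => hNn _ (hτk k) y hyN
    have hτy' : τ y' = y' := by
      have h2 : τ y' * y = y' * (τ ^ p ^ i') y := by
        have h3 := Finset.prod_range_succ (fun k => (τ ^ k) y) (p ^ i')
        have h4 := Finset.prod_range_succ' (fun k => (τ ^ k) y) (p ^ i')
        rw [h3, ← hy'] at h4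
        rw [h4, hy', map_prod]
        congr 1
        refine Finset.prod_congr rfl fun k _ => ?_
        rw [pow_succ']
        rfl
      rw [← hσ, hσy] at h2
      exact mul_right_cancel₀ hy0 h2
    have hy'0 : y' ≠ 0 := by
      rw [hy', Finset.prod_ne_zero_iff]
      exact fun k _ => (map_ne_zero (τ ^ k)).2 hy0
    have hvy' : V.valuation y' = V.valuation x ^ p ^ i' := by
      rw [hy', map_prod, Finset.prod_congr rfl (fun k _ => hdv _ (hτk k) (hdpow τ k hτd) y (by rw [hvy, hx])), Finset.prod_const,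
        Finset.card_range, hvy]
    obtain ⟨b, hb0, hb⟩ := H13S.value_fixed N' V y' hy'0 (fun s hs hsi => by
      obtain ⟨k, hk'⟩ := hgen s hs hsi
      have h2 : s y' = (τ ^ k) (((τ ^ k)⁻¹ * s) y') := by
        show s y' = (τ ^ k) ((τ ^ k)⁻¹ (s y'))
        exact ((τ ^ k).apply_symm_apply (s y')).symm
      rw [h2, hNfix _ hk' y' hy'N]
      clear h2 hk'
      induction k with
      | zero => rw [pow_zero]; rfl
      | succ k ih =>
        rw [pow_succ]
        show (τ ^ k) (τ y') = y'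
        rw [hτy', ih])
    have h5 : V.valuation ((b ^ p : N') : AlgebraicClosure F) = V.valuation (a : AlgebraicClosure F) := by
      have e1 : ((b ^ p : N') : AlgebraicClosure F) = (b : AlgebraicClosure F) ^ p := rfl
      rw [e1, map_pow, ← hb, hvy', ← pow_mul, ← pow_succ, ← hi, hx]
    have h6 : w.valuation N' (b ^ p) = w.valuation N' a := le_antisymm ((hV.le _ _).1 h5.le) ((hV.le _ _).1 h5.ge)
    rw [map_pow, ha] at h6
    obtain ⟨r, hr⟩ : ∃ r : ℤ, w.valuation N' b = WithZero.exp r := by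
      have h7 : w.valuation N' b ≠ 0 := (Valuation.ne_zero_iff _).2 hb0
      exact ⟨WithZero.log (w.valuation N' b), (WithZero.exp_log h7).symm⟩
    rw [hr, ← WithZero.exp_nsmul, WithZero.exp_inj] at h6
    have h7 : (p : ℤ) ∣ 1 := by
      rw [nsmul_eq_mul] at h6
      exact ⟨-r, by linarith⟩
    have h8 := Int.le_of_dvd one_pos h7
    have := hpp.two_le
    omega
  have hfact : Fact p.Prime := ⟨hpp⟩
  have hordζ : orderOf ζ = p ^ (i' + 1) := orderOf_eq_prime_pow hζn hζe
  -- the Frobenius element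
  obtain ⟨φ, hφ, hφd, hφq⟩ := H13X.exists_frobK (F := F) N' hV
  have hζq : ζ ^ Ideal.absNorm w.asIdeal = ζ := by
    obtain ⟨u, hu⟩ : ∃ u : V, (u : AlgebraicClosure F) = φ z := ⟨⟨_, (hφd _).2 z.2⟩, rfl⟩
    have h1 : IsLocalRing.residue V u = ζ ^ Ideal.absNorm w.asIdeal := by
      rw [hζ, ← map_pow, tm_res, hu]
      exact hφq _ z.2
    rw [← h1]
    obtain ⟨g, hg⟩ : ∃ g : V, (g : AlgebraicClosure F) = φ x / x := ⟨⟨_, hmem φ hφ hφd⟩, rfl⟩
    obtain ⟨g', hg'⟩ : ∃ g' : V, (g' : AlgebraicClosure F) = τ g := ⟨⟨_, (hτd _).2 g.2⟩, rfl⟩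
    have hgg : IsLocalRing.residue V g' = IsLocalRing.residue V g := by
      rw [tm_res, hg']
      exact hτi _ g.2
    have hφx : φ x ≠ 0 := (map_ne_zero φ).2 hx0
    have hτx : τ x ≠ 0 := (map_ne_zero τ).2 hx0
    have hcom : φ (τ x) = τ (φ x) := by
      have h2 := cp_comm c φ (cp_le' c hφ) τ (cp_le' c hτ)
      have h3 := hNfix _ h2 (τ (φ x)) (hNn τ hτ _ (hNn φ hφ x hxN))
      have h4 : (φ * τ * φ⁻¹ * τ⁻¹) (τ (φ x)) = φ (τ x) := by
        show φ (τ (φ⁻¹ (τ⁻¹ (τ (φ x))))) = φ (τ x)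
        have e1 : τ⁻¹ (τ (φ x)) = φ x := τ.symm_apply_apply _
        have e2 : φ⁻¹ (φ x) = x := φ.symm_apply_apply _
        rw [e1, e2]
      rw [← h4, h3]
    have h5 : u * g = g' * z := by
      apply Subtype.ext
      show (u : AlgebraicClosure F) * g = g' * z
      rw [hu, hg, hg', hg, hz, map_div₀, map_div₀, hcom]
      field_simp
    have h6 : IsLocalRing.residue V u * IsLocalRing.residue V g = IsLocalRing.residue V g * ζ := by
      have h8 := congrArg (IsLocalRing.residue V) h5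
      rwa [map_mul, map_mul, hgg, ← hζ] at h8
    have h7 : IsLocalRing.residue V g ≠ 0 := by
      rw [Ne, IsLocalRing.residue_eq_zero_iff, V.valuation_lt_one_iff, hg, map_div₀, hxs φ hφ hφd, div_self hvx]
      exact lt_irrefl _
    rw [mul_comm] at h6
    exact mul_left_cancel₀ h7 h6
  have hζ0 : ζ ≠ 0 := by
    intro h
    rw [h, zero_pow (pow_ne_zero _ hpp.ne_zero)] at hζe
    exact zero_ne_one hζe
  have hq : 0 < Ideal.absNorm w.asIdeal := Nat.pos_of_ne_zero (by
    rw [Ne, Ideal.absNorm_eq_zero_iff]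
    exact w.ne_bot)
  rw [hi, ← hordζ, orderOf_dvd_iff_pow_eq_one]
  have h8 : ζ * ζ ^ (Ideal.absNorm w.asIdeal - 1) = ζ * 1 := by
    rw [← pow_succ', Nat.sub_add_cancel hq, hζq, mul_one]
  exact mul_left_cancel₀ hζ0 h8

end H13P
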