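import Mathlib
import Pool.Agent.Lib.H13R.R6

/-! # H13P, module C, file C3B: points over the residue field and points fixed by the Frobenius element -/

open NumberField IsDedekindDomain WeierstrassCurve

namespace H13P

open H55P (IQ embF eF LF Per IsHecke Pt ac Inert Dec Nm Coc PExt UnrP Ram RamF)
open H35P (WAB Ker tt GoodW IntW)
open H55K (Tor ak xc yc CMA Dta GV GMod)
open H55K H55K.MG
open H13S (Abv)
open H13X H13R

section abs

variable {F : Type} [Field F] [NumberField F] {Ω : Type} [Field Ω] [DecidableEq Ω]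
  [Algebra F Ω] {V : ValuationSubring Ω}

/-- l^k divides the number of points modulo v: l^k points X with different classes modulo the kernel of reduction, with l^k X in it and the classes
fixed by the Frobenius element. -/
theorem c3b_X0 [IsAlgClosed Ω] (W₀ : WeierstrassCurve (𝓞 F)) (hG : GoodW ((W₀⁄F)⁄Ω) V)
    (v₀ : HeightOneSpectrum (𝓞 F)) (hΔ : W₀.Δ ∉ v₀.asIdeal)
    (hv : ∀ a : 𝓞 F, a ∈ v₀.asIdeal → V.valuation (ak Ω a) < 1) {l k : ℕ} (hl : l.Prime)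
    (hpts : l ^ k ∣ Nat.card (W₀⁄(𝓞 F ⧸ v₀.asIdeal)).toAffine.Point)
    (s : Ω ≃ₐ[F] Ω) (hs : ∀ x ∈ V, V.valuation (s x - x ^ Ideal.absNorm v₀.asIdeal) < 1) :
    ∃ X : Fin (l ^ k) → Pt (W₀⁄F) Ω, (∀ i, Ker V (l ^ k • X i) ∧ Ker V (ac (W₀⁄F) s (X i) - X i)) ∧
      ∀ i i', Ker V (X i - X i') → i = i' := by
  have hm := v₀.isMaximal
  let C : AddSubgroup (Pt (W₀⁄F) Ω ⧸ kerR hG) :=
    { carrier := {c | ∃ X : Pt (W₀⁄F) Ω, (X : Pt (W₀⁄F) Ω ⧸ kerR hG) = c ∧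
        Ker V (ac (W₀⁄F) s X - X)}
      add_mem' := by
        rintro _ _ ⟨X, rfl, hX⟩ ⟨Y, rfl, hY⟩
        refine ⟨X + Y, rfl, ?_⟩
        have e : ac (W₀⁄F) s (X + Y) - (X + Y) = (ac (W₀⁄F) s X - X) + (ac (W₀⁄F) s Y - Y) := by
          rw [map_add]
          abel
        rw [e]
        exact (kerR hG).add_mem hX hY
      zero_mem' := by
        refine ⟨0, rfl, ?_⟩
        rw [map_zero, sub_zero]
        trivial
      neg_mem' := by
        rintro _ ⟨X, rfl, hX⟩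
        refine ⟨-X, rfl, ?_⟩
        have e : ac (W₀⁄F) s (-X) - (-X) = -(ac (W₀⁄F) s X - X) := by
          rw [map_neg]
          abel
        rw [e]
        exact (kerR hG).neg_mem hX }
  have hcard : Nat.card (W₀⁄(𝓞 F ⧸ v₀.asIdeal)).toAffine.Point = Nat.card C :=
    red_cardR W₀ hG v₀ hΔ hv s hs
  have hfin : Finite C := by
    let _ : Field (𝓞 F ⧸ v₀.asIdeal) := Ideal.Quotient.field _
    have hf : Finite (𝓞 F ⧸ v₀.asIdeal) := Ideal.finiteQuotientOfFreeOfNeBot _ v₀.ne_bot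
    have h1 : Finite (W₀⁄(𝓞 F ⧸ v₀.asIdeal)).toAffine.Point := H13X.lk_fin _
    have h2 : Nat.card (W₀⁄(𝓞 F ⧸ v₀.asIdeal)).toAffine.Point ≠ 0 := Nat.card_pos.ne'
    rw [hcard] at h2
    exact Nat.finite_of_card_ne_zero h2
  have hfact : Fact l.Prime := ⟨hl⟩
  rw [hcard] at hpts
  obtain ⟨H, hH⟩ := Sylow.exists_subgroup_card_pow_prime (G := Multiplicative C) l hpts
  have hfH : Finite H := Nat.finite_of_card_ne_zero (by rw [hH]; exact pow_ne_zero _ hl.ne_zero)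
  let e : Fin (l ^ k) ≃ H := (Finite.equivFinOfCardEq hH).symm
  have hX : ∀ i : Fin (l ^ k), ∃ X : Pt (W₀⁄F) Ω, (X : Pt (W₀⁄F) Ω ⧸ kerR hG) = (Multiplicative.toAdd (e i : Multiplicative C) : C).1 ∧
      Ker V (ac (W₀⁄F) s X - X) := fun i => (Multiplicative.toAdd (e i : Multiplicative C) : C).2
  choose X hX1 hX2 using hX
  refine ⟨X, fun i => ⟨?_, hX2 i⟩, fun i i' h => ?_⟩
  · have h1 : (e i) ^ (l ^ k) = 1 := by
      have h0 : ∀ x : H, x ^ (l ^ k) = 1 := fun x => by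
        rw [← hH]
        exact pow_card_eq_one'
      exact h0 (e i)
    have h2 : (e i : Multiplicative C) ^ (l ^ k) = 1 := by
      rw [← Subgroup.coe_pow, h1, Subgroup.coe_one]
    have h3 : (l ^ k) • (Multiplicative.toAdd (e i : Multiplicative C) : C) = 0 := by
      rw [← toAdd_pow, h2, toAdd_one]
    have h4 : ((l ^ k • X i : Pt (W₀⁄F) Ω) : Pt (W₀⁄F) Ω ⧸ kerR hG) = 0 := by
      have h5 := congrArg Subtype.val h3
      rw [AddSubgroup.coe_nsmul, ← hX1 i, ← QuotientAddGroup.mk_nsmul] at h5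
      exact h5
    exact (QuotientAddGroup.eq_zero_iff _).1 h4
  · have h1 : ((X i - X i' : Pt (W₀⁄F) Ω) : Pt (W₀⁄F) Ω ⧸ kerR hG) = 0 := (QuotientAddGroup.eq_zero_iff _).2 h
    rw [QuotientAddGroup.mk_sub, sub_eq_zero, hX1, hX1] at h1
    have h2 : (e i : Multiplicative C) = e i' := Multiplicative.toAdd.injective (Subtype.ext h1)
    exact e.injective (Subtype.ext h2)

end abs

section up

variable {F : Type} [Field F] [NumberField F] {Ω : Type} [Field Ω] [DecidableEq Ω]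
  [Algebra F Ω] [IsAlgClosure F Ω] {l : ℕ}

theorem c3b_XM (W₀ : WeierstrassCurve (𝓞 F)) (M : IntermediateField F Ω) [NumberField M] {v : HeightOneSpectrum (𝓞 M)}
    (hΔ : algebraMap (𝓞 F) (𝓞 M) W₀.Δ ∉ v.asIdeal) {V : ValuationSubring Ω} (hV : Abv M V v)
    (hG : GoodW ((W₀⁄F)⁄Ω) V) (hl : l.Prime) {k : ℕ}
    (hpts : l ^ k ∣ Nat.card (W₀⁄(𝓞 M ⧸ v.asIdeal)).toAffine.Point)
    {s : Ω ≃ₐ[F] Ω} (hsM : s ∈ M.fixingSubgroup) (hs : ∀ x ∈ V, V.valuation (s x - x ^ Ideal.absNorm v.asIdeal) < 1) :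
    ∃ X : Fin (l ^ k) → Pt (W₀⁄F) Ω, (∀ i, Ker V (l ^ k • X i) ∧ Ker V (ac (W₀⁄F) s (X i) - X i)) ∧
      ∀ i i', Ker V (X i - X i') → i = i' := by
  have hcl0 : IsAlgClosed Ω := IsAlgClosure.isAlgClosed F
  let s' : Ω ≃ₐ[M] Ω := AlgEquiv.ofRingEquiv (f := (s : Ω ≃+* Ω)) (fun x =>
    (IntermediateField.mem_fixingSubgroup_iff M s).1 hsM (x : Ω) x.2)
  have hss : s'.restrictScalars F = s := by
    ext x
    rfl
  have eΔ : (W₀⁄(𝓞 M)).Δ = algebraMap (𝓞 F) (𝓞 M) W₀.Δ := W₀.map_Δ _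
  have hcur : (W₀⁄(𝓞 M))⁄(𝓞 M ⧸ v.asIdeal) = W₀⁄(𝓞 M ⧸ v.asIdeal) := rfl
  have hG' : GoodW (((W₀⁄(𝓞 M))⁄M)⁄Ω) V := by
    rw [r3_eq]
    exact hG
  obtain ⟨X, h1, h2⟩ := c3b_X0 (F := M) (Ω := Ω) (V := V) (W₀⁄(𝓞 M)) hG' v (by rw [eΔ]; exact hΔ)
    (fun a ha => (hV.lt (a : M)).2 ((v.valuation_lt_one_iff_mem a).2 ha)) hl (by rw [hcur]; exact hpts) s' hs
  refine ⟨fun i => castPt (r3_eq M W₀) (X i), fun i => ⟨?_, ?_⟩, fun i i' h => h2 i i' ?_⟩
  · rw [← map_nsmul, castPt_ker]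
    exact (h1 i).1
  · have h4 := r3_ac M W₀ s' (X i)
    rw [hss] at h4
    rw [← h4, ← map_sub, castPt_ker]
    exact (h1 i).2
  · rwa [← map_sub, castPt_ker] at h

end up

variable {F : Type} [Field F] [NumberField F] [IQ F] {Ω : Type} [Field Ω] [DecidableEq Ω]
  [Algebra F Ω] [IsAlgClosure F Ω] {A B : F} {Om : ℂ} {j : Ω →+* ℂ}
  {act : 𝓞 F →+* AddMonoid.End (Pt (WAB A B) Ω)} {l : ℕ}

/-- Points whose multiple by l^k lies in the kernel of reduction are congruent to points killed by l^k. -/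
theorem c3b_surj (h : CMA F A B Om j act) (W₀ : WeierstrassCurve (𝓞 F)) {r s t : F} (hVC : VC (WAB A B) (W₀⁄F) 1 r s t)
    {Θ : Pt (WAB A B) Ω ≃+ Pt (W₀⁄F) Ω} [(WAB A B).IsElliptic]
    (hΘ : Crd (algebraMap F Ω 1) (algebraMap F Ω r) (algebraMap F Ω s) (algebraMap F Ω t) Θ)
    {V : ValuationSubring Ω} (hG : GoodW ((W₀⁄F)⁄Ω) V) (hl : l.Prime) (h5 : 5 ≤ l) (hlV : V.valuation (l : Ω) = 1) :
    ∀ (k : ℕ) (X : Pt (WAB A B) Ω), Ker V (Θ (l ^ k • X)) → ∃ T : Pt (WAB A B) Ω, l ^ k • T = 0 ∧ Ker V (Θ (X - T)) := by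
  have hcl0 : IsAlgClosed Ω := IsAlgClosure.isAlgClosed F
  have hal0 : Algebra.IsAlgebraic F Ω := IsAlgClosure.isAlgebraic
  have hc0' : CharZero Ω := charZero_of_injective_algebraMap (algebraMap F Ω).injective
  intro k
  induction k with
  | zero =>
    intro X hX
    rw [pow_zero, one_smul] at hX
    exact ⟨0, smul_zero _, by rwa [sub_zero]⟩
  | succ k ih =>
    intro X hX
    rw [pow_succ', mul_smul] at hX
    obtain ⟨T₁, hT₁, hK₁⟩ := surj_lR h W₀ hVC hΘ hG hl h5 hlV hX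
    obtain ⟨T₂, rfl⟩ := H55P.div_pt (WAB A B) (l ^ k) (pow_pos hl.pos k) T₁
    rw [← smul_sub] at hK₁
    obtain ⟨T₃, hT₃, hK₃⟩ := ih (X - T₂) hK₁
    refine ⟨T₂ + T₃, ?_, ?_⟩
    · rw [pow_succ', mul_smul, smul_add, smul_add, hT₁, hT₃, smul_zero, add_zero]
    · rwa [← sub_sub]

omit [NumberField F] [IQ F] [IsAlgClosure F Ω] in
theorem c3b_fg {W : WeierstrassCurve F} {V : ValuationSubring Ω} (hG : GoodW (W⁄Ω) V) (hlV : V.valuation (l : Ω) = 1) :
    ∀ (k : ℕ) (P : Pt W Ω), l ^ k • P = 0 → Ker V P → P = 0 := by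
  intro k
  induction k with
  | zero =>
    intro P h _
    rwa [pow_zero, one_smul] at h
  | succ k ih =>
    intro P h hK
    refine ih P ?_ hK
    refine H35P.fg hG.toIntW _ l hlV ?_ ((kerR hG).nsmul_mem hK _)
    rw [← mul_smul, ← pow_succ']
    exact h

/-- (helper13) If l^k divides the number of points modulo v, then at least l^k points killed by l^k are fixed by a given Frobenius element.
PROOF: as H13R.lk_decR (Lib/H13R/R6.lean) with lk_XM (R3.lean): the subgroup C of Pt / kerR has l^k | card C, so C has a subgroup of order l^k (Sylow.exists_subgroup_card_pow_prime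
for Multiplicative C, or AddCommGroup structure); its elements are classes of X with l^k X in Ker V and φ X - X in Ker V. H13R.surj_lR iterated k times (or a
direct induction: for X with l^k X in Ker V there is T with l^k T = 0 and X - T in Ker V: apply surj_lR to l^(k-1) X: T₁ with l T₁ = 0, l^(k-1) X - T₁ in Ker V; divide T₁ by l^(k-1)
(H55P.div_pt): T₁ = l^(k-1) T₂, X - T₂ has l^(k-1) (X - T₂) in Ker V; induction). φ T = T as at the end of lk_decR (H35P.fg with l^k: or by induction on the power of l). Different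
classes give different T. -/
theorem cnt_fix (hA : CMA F A B Om j act) (W₀ : WeierstrassCurve (𝓞 F)) (hell : W₀.Δ ≠ 0)
    (hA' : A = -(algebraMap (𝓞 F) F W₀.c₄) / 48) (hB' : B = -(algebraMap (𝓞 F) F W₀.c₆) / 864)
    (M : IntermediateField F Ω) [NumberField M] {v : HeightOneSpectrum (𝓞 M)}
    (hΔ : algebraMap (𝓞 F) (𝓞 M) W₀.Δ ∉ v.asIdeal) {V : ValuationSubring Ω} (hV : Abv M V v) (hl : l.Prime) (h5 : 5 ≤ l)
    (hlv : (l : 𝓞 M) ∉ v.asIdeal) {k : ℕ} (hpts : l ^ k ∣ Nat.card (W₀⁄(𝓞 M ⧸ v.asIdeal)).toAffine.Point)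
    {φ : Ω ≃ₐ[F] Ω} (hφ : φ ∈ M.fixingSubgroup) (hφD : Dec V φ)
    (hφF : ∀ x ∈ V, V.valuation (φ x - x ^ Ideal.absNorm v.asIdeal) < 1) :
    ∃ S : Finset (Pt (WAB A B) Ω), S.card = l ^ k ∧ ∀ T ∈ S, l ^ k • T = 0 ∧ ac (WAB A B) φ T = T := by
  have hcl0 : IsAlgClosed Ω := IsAlgClosure.isAlgClosed F
  have hal0 : Algebra.IsAlgebraic F Ω := IsAlgClosure.isAlgebraic
  have hc0' : CharZero Ω := charZero_of_injective_algebraMap (algebraMap F Ω).injective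
  have hd := H55K.y3_ne W₀ hA' hB' hell
  have hΔA : (WAB A B).Δ ≠ 0 := by
    have e : (WAB A B).Δ = -16 * (4 * A ^ 3 + 27 * B ^ 2) := by
      unfold WAB WeierstrassCurve.Δ WeierstrassCurve.b₂ WeierstrassCurve.b₄ WeierstrassCurve.b₆ WeierstrassCurve.b₈
      ring
    rw [e]
    exact mul_ne_zero (by norm_num) hd
  have hE : (WAB A B).IsElliptic := ⟨isUnit_iff_ne_zero.2 hΔA⟩
  have hbel : H55P.Below V M v.asIdeal := fun x => by
    rw [← v.valuation_lt_one_iff_mem (K := M) x]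
    exact (hV.lt (x : M)).symm
  have hG : GoodW ((W₀⁄F)⁄Ω) V := H55P.good_below W₀ M V v hbel hΔ
  have hlV : V.valuation (l : Ω) = 1 := H55P.val_below M V v hbel l hlv
  obtain ⟨r, s', t', Θ, hVC, hΘ, hcom⟩ := r6_iso (Ω := Ω) W₀ hell hA' hB'
  obtain ⟨X', hX1, hX2⟩ := c3b_XM W₀ M hΔ hV hG hl hpts hφ hφF
  have hex : ∀ i, ∃ T : Pt (WAB A B) Ω, l ^ k • T = 0 ∧ Ker V (Θ (Θ.symm (X' i) - T)) := fun i =>
    c3b_surj hA W₀ hVC hΘ hG hl h5 hlV k (Θ.symm (X' i)) (by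
      rw [map_nsmul, AddEquiv.apply_symm_apply]
      exact (hX1 i).1)
  choose T hT hXT using hex
  have hφT : ∀ i, ac (WAB A B) φ (T i) = T i := by
    intro i
    have h1 : Θ (ac (WAB A B) φ (T i) - T i) = (ac (W₀⁄F) φ (X' i) - X' i) -
        (ac (W₀⁄F) φ (Θ (Θ.symm (X' i) - T i)) - Θ (Θ.symm (X' i) - T i)) := by
      rw [hcom, map_sub, map_sub, map_sub, ← hcom, ← hcom, AddEquiv.apply_symm_apply]
      rw [map_sub, AddEquiv.apply_symm_apply]
      abel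
    have h2 : Ker V (Θ (ac (WAB A B) φ (T i) - T i)) := by
      rw [h1]
      exact (kerR hG).sub_mem (hX1 i).2 ((kerR hG).sub_mem (r6_ker hφD (hXT i)) (hXT i))
    have h3 : Θ (ac (WAB A B) φ (T i) - T i) = 0 := c3b_fg hG hlV k _ (by
      rw [← map_nsmul, smul_sub, ← map_nsmul, hT, map_zero, sub_zero, map_zero]) h2
    exact sub_eq_zero.1 ((map_eq_zero_iff Θ Θ.injective).1 h3)
  have hinj : Function.Injective T := by
    intro i i' h
    refine hX2 i i' ?_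
    have h1 : X' i - X' i' = Θ (Θ.symm (X' i) - T i) - Θ (Θ.symm (X' i') - T i') := by
      rw [← map_sub, h, sub_sub_sub_cancel_right, map_sub, AddEquiv.apply_symm_apply, AddEquiv.apply_symm_apply]
    rw [h1]
    exact (kerR hG).sub_mem (hXT i) (hXT i')
  refine ⟨Finset.univ.map ⟨T, hinj⟩, by rw [Finset.card_map, Finset.card_univ, Fintype.card_fin], fun Q hQ => ?_⟩
  obtain ⟨i, -, rfl⟩ := Finset.mem_map.1 hQ
  exact ⟨hT i, hφT i⟩

end H13P
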