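import Mathlib
import Pool.Agent.Lib.H13P.C2
import Pool.Agent.Lib.H13P.C3A
import Pool.Agent.Lib.H13P.C3B

/-! # H13P, module C, file C3: the decomposition groups over N' of the relaxed places fix the points killed by the ramification index -/

open NumberField IsDedekindDomain WeierstrassCurve

namespace H13P

open H55P (IQ embF eF LF Per IsHecke Pt ac acR Inert Dec Nm Coc PExt UnrP Ram RamF SelZero SelG inS decS Below)
open H35P (WAB Ker tt)
open H55K (Tor ak xc yc CMA Dta GV GMod cj cj_cj mul_cj cj_prime cj_dvd cj_nat Nm_cj Nm_mul Nm_nat)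
open H55K.TQ
open H55K.S
open H13S (Abv)
open H13X
open H13R
open H55G (OkM LocOk)
open H13T (RV AnW ce_p ce_val ce_bel ce_below ce_top ce_ne c5_red)
open H13V (eN PT exists_pt ka1_root kb12_gen ka4_tor)

open scoped Classical

section gen

variable {F : Type} [Field F] [NumberField F] [IQ F] {A B : F} {Om : ℂ} {Ω : Type} [Field Ω] [DecidableEq Ω]
  [Algebra F Ω] [IsAlgClosure F Ω] {j : Ω →+* ℂ} {act : 𝓞 F →+* AddMonoid.End (Pt (WAB A B) Ω)} {mo : Ideal (𝓞 F)}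
  {ψ : Ideal (𝓞 F) →*₀ 𝓞 F} {π : 𝓞 F} {l : ℕ} {V : ValuationSubring Ω}

/-- A fixed point of order at least β^i fixes all points killed by β^i. -/
theorem fx_gen (hA : CMA F A B Om j act) {β : 𝓞 F} (hβ : Prime β) {φ : Ω ≃ₐ[F] Ω} {k i : ℕ} (hi : 1 ≤ i) {T : Pt (WAB A B) Ω}
    (hk : act (β ^ k) T = 0) (hne : act (β ^ (i - 1)) T ≠ 0) (hφ : ac (WAB A B) φ T = T) :
    ∀ R ∈ Tor act (β ^ i), ac (WAB A B) φ R = R := by
  have hex : ∃ s, act (β ^ s) T = 0 := ⟨k, hk⟩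
  obtain ⟨s, hs, hmin⟩ : ∃ s, act (β ^ s) T = 0 ∧ ∀ r < s, act (β ^ r) T ≠ 0 := ⟨Nat.find hex, Nat.find_spec hex, fun r hr => Nat.find_min hex hr⟩
  have hsi : i ≤ s := by
    by_contra h
    apply hne
    have h1 : β ^ (i - 1) = β ^ (i - 1 - s) * β ^ s := by
      rw [← pow_add]
      congr 1
      omega
    rw [h1, act_mul, hs, map_zero]
  have h3 : act (β ^ (s - i)) T ∈ Tor act (β ^ i) := by
    rw [mem_Tor, ← act_mul, ← pow_add, Nat.add_sub_cancel' hsi]
    exact hs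
  have h4 : act (β ^ (i - 1)) (act (β ^ (s - i)) T) ≠ 0 := by
    rw [← act_mul, ← pow_add]
    exact hmin _ (by omega)
  intro R hR
  obtain ⟨a, rfl⟩ := kb12_gen hA hβ hi h3 h4 hR
  rw [ac_act hA, ac_act hA, hφ]

omit [NumberField F] [IQ F] [DecidableEq Ω] [IsAlgClosure F Ω] in
/-- The Frobenius element fixes the roots of unity of order dividing q - 1. -/
theorem frob_root {n q : ℕ} (hn : n ≠ 0) (hV : V.valuation (n : Ω) = 1) (hq1 : 1 ≤ q) (hq : n ∣ q - 1) {s : Ω ≃ₐ[F] Ω}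
    (hs : ∀ x ∈ V, V.valuation (s x - x ^ q) < 1) {ξ : Ω} (hξ : ξ ^ n = 1) : s ξ = ξ := by
  have hz1 : V.valuation ξ = 1 := by
    have h1 : V.valuation ξ ^ n = 1 := by rw [← map_pow, hξ, map_one]
    exact (pow_eq_one_iff_of_nonneg zero_le hn).1 h1
  have hzV : ξ ∈ V := (V.valuation_le_one_iff ξ).1 hz1.le
  have hξ0 : ξ ≠ 0 := by
    rintro rfl
    rw [zero_pow hn] at hξ
    exact zero_ne_one hξ
  have h2 : ξ ^ q = ξ := by
    obtain ⟨r, hr⟩ := hq
    have h3 : q = n * r + 1 := by omega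
    rw [h3, pow_succ, pow_mul, hξ, one_pow, one_mul]
  have hξl : (s ξ / ξ) ^ n = 1 := by
    rw [div_pow, ← map_pow, hξ, map_one, div_one]
  have hξv : V.valuation (s ξ / ξ - 1) < 1 := by
    have h1 : s ξ / ξ - 1 = (s ξ - ξ ^ q) / ξ := by
      rw [h2]
      field_simp
    rw [h1, map_div₀, hz1, div_one]
    exact hs ξ hzV
  exact (div_eq_one_iff_eq hξ0).1 (ka1_root hξl hV hξv)

/-- If the Frobenius element fixes the points killed by π^i, then it fixes the points killed by (cj π)^i. -/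
theorem fx_cj (D : Dat A B Om j act mo ψ π l) (hl : V.valuation (l : Ω) = 1) {q i : ℕ} (hq1 : 1 ≤ q) (hq : l ^ i ∣ q - 1)
    {φ : Ω ≃ₐ[F] Ω} (hφF : ∀ x ∈ V, V.valuation (φ x - x ^ q) < 1) (h : ∀ R ∈ Tor act (π ^ i), ac (WAB A B) φ R = R) :
    ∀ R ∈ Tor act (cj π ^ i), ac (WAB A B) φ R = R := by
  obtain ⟨e, he⟩ := exists_pt D.dta D.pr D.dvd i
  have hA := D.dta.cma
  have hl0 : l ≠ 0 := D.dta.prime.ne_zero
  have hli : V.valuation ((l ^ i : ℕ) : Ω) = 1 := by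
    rw [Nat.cast_pow, map_pow, hl, one_pow]
  intro X hX
  refine sub_eq_zero.1 (he.nondeg _ (sub_mem (ac_mem hA φ hX) hX) fun T hT => ?_)
  have h1 : e (ac (WAB A B) φ X) T = e X T := by
    have h2 := he.gal φ X hX T hT
    rw [h T hT] at h2
    rw [← h2]
    exact frob_root (pow_ne_zero i hl0) hli hq1 hq hφF (he.root X hX T hT)
  rw [he.sub_left hl0 (ac_mem hA φ hX) hX hT, h1, div_self (he.ne hl0 hX hT)]

/-- Many fixed points: the Frobenius element fixes all points killed by l^i. -/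
theorem ful_fix (D : Dat A B Om j act mo ψ π l) (hl : V.valuation (l : Ω) = 1) {q i : ℕ} (hi : 1 ≤ i) (hq1 : 1 ≤ q) (hq : l ^ i ∣ q - 1)
    {φ : Ω ≃ₐ[F] Ω} (hφF : ∀ x ∈ V, V.valuation (φ x - x ^ q) < 1) {S : Finset (Pt (WAB A B) Ω)} (hS : S.card = l ^ (2 * i))
    (hST : ∀ T ∈ S, l ^ (2 * i) • T = 0 ∧ ac (WAB A B) φ T = T) (T : Pt (WAB A B) Ω) (hT : l ^ i • T = 0) : ac (WAB A B) φ T = T := by
  have hA := D.dta.cma
  have hlp : l.Prime := D.dta.prime
  have hl0 : (l : 𝓞 F) ≠ 0 := Nat.cast_ne_zero.2 hlp.ne_zero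
  -- a fixed point which is not killed by l^(i-1)
  obtain ⟨T₁, h1, h2, h3⟩ : ∃ T₁ : Pt (WAB A B) Ω, act ((l : 𝓞 F) ^ (2 * i)) T₁ = 0 ∧ ac (WAB A B) φ T₁ = T₁ ∧ act ((l : 𝓞 F) ^ (i - 1)) T₁ ≠ 0 := by
    by_contra hcon
    have h4 : ∀ T ∈ S, T ∈ Tor act ((l : 𝓞 F) ^ (i - 1)) := by
      intro T hT
      by_contra h
      exact hcon ⟨T, (ka4_tor l (2 * i)).2 (hST T hT).1, (hST T hT).2, h⟩
    have h5 : Nat.card (Tor act ((l : 𝓞 F) ^ (i - 1))) = Nm ((l : 𝓞 F) ^ (i - 1)) := H55K.tor_card hA (pow_ne_zero _ hl0)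
    have h6 : Nm ((l : 𝓞 F) ^ (i - 1)) = l ^ (2 * (i - 1)) := by
      rw [← Nat.cast_pow, Nm_nat, ← pow_mul, mul_comm]
    rw [h6] at h5
    have hfin : Finite (Tor act ((l : 𝓞 F) ^ (i - 1))) := Nat.finite_of_card_ne_zero (by
      rw [h5]
      exact pow_ne_zero _ hlp.ne_zero)
    have h7 : S.card ≤ Nat.card (Tor act ((l : 𝓞 F) ^ (i - 1))) := by
      rw [← Fintype.card_coe S, ← Nat.card_eq_fintype_card]
      exact Nat.card_le_card_of_injective (fun x : S => (⟨x.1, h4 x.1 x.2⟩ : Tor act ((l : 𝓞 F) ^ (i - 1))))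
        (fun x y h => Subtype.ext (congrArg (fun z : Tor act ((l : 𝓞 F) ^ (i - 1)) => (z : Pt (WAB A B) Ω)) h))
    rw [hS, h5] at h7
    have h8 : l ^ (2 * (i - 1)) < l ^ (2 * i) := Nat.pow_lt_pow_right hlp.one_lt (by omega)
    omega
  have key : ∀ (β : 𝓞 F), Prime β → ∀ T ∈ Tor act (β ^ (2 * i)), ac (WAB A B) φ T = T → act (β ^ (i - 1)) T ≠ 0 →
      ∀ R ∈ Tor act (β ^ i), ac (WAB A B) φ R = R := fun β hβ T hT hφ hne => fx_gen hA hβ hi hT hne hφ
  rcases dichotomy hlp D.dta.unr D.pr D.dvd with ⟨-, -, has⟩ | ⟨-, hnd, -, hll⟩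
  · have e : ∀ k : ℕ, Tor act ((l : 𝓞 F) ^ k) = Tor act (π ^ k) := fun k => tor_assoc (has.pow_pow)
    refine key π D.pr T₁ (by rw [← e]; exact h1) h2 (fun h => h3 ?_) T ?_
    · have h4 : T₁ ∈ Tor act ((l : 𝓞 F) ^ (i - 1)) := by
        rw [e]
        exact h
      exact h4
    · rw [← e]
      exact (ka4_tor l i).2 hT
  · have hcop : ∀ a b : ℕ, IsCoprime (π ^ a) (cj π ^ b) := by
      intro a b
      refine IsCoprime.pow ?_
      exact (H13V.ka4_cop (cj_prime D.pr) hnd).symm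
    have hor : (∀ R ∈ Tor act (π ^ i), ac (WAB A B) φ R = R) ∨ ∀ R ∈ Tor act (cj π ^ i), ac (WAB A B) φ R = R := by
      by_contra hcon
      apply h3
      have h4 : act (π ^ (i - 1) * cj π ^ (2 * i)) T₁ = 0 := by
        by_contra h
        apply hcon
        left
        refine key π D.pr (act (cj π ^ (2 * i)) T₁) ?_ ?_ ?_
        · rw [mem_Tor, ← act_mul, ← mul_pow, hll]
          exact h1
        · rw [ac_act hA, h2]
        · rw [← act_mul]
          exact h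
      have h5 : act (cj π ^ (i - 1) * π ^ (2 * i)) T₁ = 0 := by
        by_contra h
        apply hcon
        right
        refine key (cj π) (cj_prime D.pr) (act (π ^ (2 * i)) T₁) ?_ ?_ ?_
        · rw [mem_Tor, ← act_mul, ← mul_pow, mul_comm (cj π), hll]
          exact h1
        · rw [ac_act hA, h2]
        · rw [← act_mul]
          exact h
      obtain ⟨x, y, hxy⟩ := hcop (i + 1) (i + 1)
      have h6 : (l : 𝓞 F) ^ (i - 1) = x * (cj π ^ (i - 1) * π ^ (2 * i)) + y * (π ^ (i - 1) * cj π ^ (2 * i)) := by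
        obtain ⟨k, rfl⟩ : ∃ k, i = k + 1 := ⟨i - 1, by omega⟩
        rw [Nat.add_sub_cancel, ← hll, mul_pow]
        have h7 : π ^ k * cj π ^ k = π ^ k * cj π ^ k * (x * π ^ (k + 1 + 1) + y * cj π ^ (k + 1 + 1)) := by
          rw [hxy, mul_one]
        rw [h7]
        have h8 : 2 * (k + 1) = k + (k + 1 + 1) := by ring
        rw [h8, pow_add π k, pow_add (cj π) k]
        ring
      rw [h6, act_add, act_mul x, act_mul y, h4, h5, map_zero, map_zero, add_zero]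
    have hboth : (∀ R ∈ Tor act (π ^ i), ac (WAB A B) φ R = R) ∧ ∀ R ∈ Tor act (cj π ^ i), ac (WAB A B) φ R = R := by
      rcases hor with h | h
      · exact ⟨h, fx_cj D hl hq1 hq hφF h⟩
      · refine ⟨?_, h⟩
        have h4 := fx_cj D.conj hl hq1 hq hφF h
        rwa [cj_cj] at h4
    have hT' : act ((l : 𝓞 F) ^ i) T = 0 := (ka4_tor l i).2 hT
    obtain ⟨x, y, hxy⟩ := hcop i i
    have h4 : T = act x (act (π ^ i) T) + act y (act (cj π ^ i) T) := by
      rw [← act_mul, ← act_mul, ← act_add, hxy, act_one]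
    have h5 : ac (WAB A B) φ (act (π ^ i) T) = act (π ^ i) T := hboth.2 _ (by
      rw [mem_Tor, ← act_mul, ← mul_pow, mul_comm (cj π), hll]
      exact hT')
    have h6 : ac (WAB A B) φ (act (cj π ^ i) T) = act (cj π ^ i) T := hboth.1 _ (by
      rw [mem_Tor, ← act_mul, ← mul_pow, hll]
      exact hT')
    rw [h4, map_add, ac_act hA φ x, ac_act hA φ y, h5, h6]

end gen

variable {F : Type} [Field F] [NumberField F] [IQ F] {W₀ : WeierstrassCurve (𝓞 F)} {Om : ℂ}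
    {m : Ideal (𝓞 F)} {ψ : Ideal (𝓞 F) →*₀ 𝓞 F} {p n t : ℕ} {M N' N : IntermediateField F (AlgebraicClosure F)}
    [NumberField M] [NumberField N'] [NumberField N] {γ : AlgebraicClosure F ≃ₐ[F] AlgebraicClosure F}

/-- The decomposition group over N' of a relaxed place fixes the points killed by the ramification index. -/
theorem cp_ful (hH : BaseH F W₀ Om m ψ) (hp : PrimeH F W₀ p) (c : CycP p n t M N' N γ) (hU : UnrP p N) (w : AnW p W₀ N' N)
    (ful : eN c.le' w.1 ^ 2 ∣ Nat.card (W₀⁄(𝓞 N' ⧸ w.1.asIdeal)).toAffine.Point) {V : ValuationSubring (AlgebraicClosure F)}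
    (hV : Abv N' V w.1) {s : AlgebraicClosure F ≃ₐ[F] AlgebraicClosure F} (hs : DecN N' V s) {T : Pt (W₀⁄F) (AlgebraicClosure F)}
    (hT : p ^ exP c w • T = 0) : ac (W₀⁄F) s T = T := by
  have hpp := hp.prime
  obtain ⟨hep, -⟩ := exP_pow c hpp w
  have hΔ := w.2.1
  have hpw := cp_p hp c hU w.2
  obtain ⟨A, B, j, act, hA, hB', dta⟩ := SSG.exists_dtaAB hH hp
  obtain ⟨Θ, hΘ⟩ := SSG.short_iso W₀ hA hB' hH.data.ell (Ω := AlgebraicClosure F)
  obtain ⟨π, hπ, hπp⟩ := exists_prime_above (F := F) hpp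
  have D : Dat A B Om j act m ψ π p := ⟨dta, hπ, hπp⟩
  have hpV : V.valuation (p : AlgebraicClosure F) = 1 := H55P.val_below N' V w.1 (ce_bel hV) p hpw
  have hi : 1 ≤ exP c w := by
    by_contra h
    have h6 : exP c w = 0 := by omega
    rw [h6, pow_zero] at hep
    exact (cp_eN_ne c hpp.pos w.1).1 w.2.2.1 hep
  obtain ⟨φ, hφ, hφD, hφF⟩ := exists_frobK (F := F) N' hV
  obtain ⟨S, hS, hST⟩ := cnt_fix dta.cma W₀ hH.data.ell hA hB' N' hΔ hV hpp hp.five hpw (k := 2 * exP c w) (by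
    rw [hep, ← pow_mul, mul_comm] at ful
    exact ful) hφ hφD hφF
  have htame := cp_tame hp c hU w.2
  rw [hep] at htame
  have hq1 : 1 ≤ Ideal.absNorm w.1.asIdeal := Nat.one_le_iff_ne_zero.2 fun h => w.1.ne_bot (Ideal.absNorm_eq_zero_iff.1 h)
  have hfix := ful_fix D hpV hi hq1 htame hφF hS hST
  obtain ⟨T, rfl⟩ := Θ.symm.surjective T
  have hT' : p ^ exP c w • T = 0 := by
    apply Θ.symm.injective
    rw [map_nsmul, hT, map_zero]
  have hΘ' : ∀ (s : AlgebraicClosure F ≃ₐ[F] AlgebraicClosure F) (P : Pt (WAB A B) (AlgebraicClosure F)),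
      Θ.symm (ac (WAB A B) s P) = ac (W₀⁄F) s (Θ.symm P) := fun s P => by
    apply Θ.injective
    rw [hΘ, Θ.apply_symm_apply, Θ.apply_symm_apply]
  rw [← hΘ']
  congr 1
  have h0 := dec_gen (A := A) (B := B) (d := fun s => ac (WAB A B) s T - T) hV (fun s _ _ t _ _ => by
      show ac (WAB A B) (s * t) T - T = (ac (WAB A B) s T - T) + ac (WAB A B) s (ac (WAB A B) t T - T)
      rw [ac_mul, map_sub]
      abel)
    ⟨IntermediateField.adjoin F {H55K.xc T, H55K.yc T}, lp_fin T, fun s _ hs _ => by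
      show ac (WAB A B) s T - T = 0
      rw [lp_adj s T hs, sub_self]⟩
    (fun s _ hi => by
      show ac (WAB A B) s T - T = 0
      rw [sub_eq_zero]
      apply Θ.symm.injective
      rw [hΘ']
      refine c5_red hH hp hΔ hpw (ce_bel hV) s hi (exP c w) (Θ.symm T) ?_
      rw [smul_sub, hT, sub_zero, ← map_nsmul, hT, map_zero])
    hφ hφD hφF (by show ac (WAB A B) φ T - T = 0; rw [hfix T hT', sub_self]) hs.1 hs.2
  exact sub_eq_zero.1 h0

end H13P
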