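import Mathlib
import Pool.Agent.Lib.H13P.C2

/-! # H13P, module C, file C4: the data TP for the curve -/

open NumberField IsDedekindDomain WeierstrassCurve

namespace H13P

open H55P H55K H55K.TQ H55K.S
open H35P (WAB)
open H13S (Abv)
open H13X (DecN)
open H55G (OkM LocOk)
open H13T (RV AnW exists_dta c3_fix c4_pow c5_red c7_cob cV mem_cV c1_in c1_dec c1_rv ce_p ce_val ce_bel ce_below ce_top)
open H13V (CycJ)

open scoped Classical

variable {F : Type} [Field F] [NumberField F] [IQ F] {W₀ : WeierstrassCurve (𝓞 F)} {Om : ℂ}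
  {m : Ideal (𝓞 F)} {ψ : Ideal (𝓞 F) →*₀ 𝓞 F} {p n t : ℕ} {M N' N : IntermediateField F (AlgebraicClosure F)}
  {γ : AlgebraicClosure F ≃ₐ[F] AlgebraicClosure F}

/-- A relaxed place of a step is a relaxed place. -/
theorem cp_step (hH : BaseH F W₀ Om m ψ) (hp : PrimeH F W₀ p) [NumberField M] {K₁ K₂ : IntermediateField F (AlgebraicClosure F)}
    [NumberField K₁] [NumberField K₂] {k : ℕ} (c : CycJ p k 1 M K₁ K₂ γ) (hU : UnrP p K₂) (hB : OkM p W₀ M) (h1 : N' ≤ K₁) (h2 : K₂ ≤ N)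
    (hMN : M ≤ N') {V : ValuationSubring (AlgebraicClosure F)} (hV : RV (W₀⁄F) p K₁ K₂ V) : RV (W₀⁄F) p N' N V := by
  have hd := H13V.j_dec hH hp c hU hB hV
  obtain ⟨⟨s, hs1, hs2, hs3⟩, T, hT0, hT, -⟩ := hV
  exact ⟨⟨s, IntermediateField.fixingSubgroup_antitone h1 hs1, hs2, fun h => hs3 (IntermediateField.fixingSubgroup_antitone h2 h)⟩, T, hT0, hT,
    fun s hs hsd => hd s (IntermediateField.fixingSubgroup_antitone hMN hs) hsd T hT⟩

/-- The data TP. -/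
theorem cp_tp (hH : BaseH F W₀ Om m ψ) (hp : PrimeH F W₀ p) [NumberField M] [NumberField N'] [NumberField N]
    (c : CycP p n t M N' N γ) (hU : UnrP p N) (hB : OkM p W₀ M) (hS : SelG p W₀ N')
    (nsp : ∀ w ∈ AnW p W₀ N' N, ∀ (v : HeightOneSpectrum (𝓞 M)) (V : ValuationSubring (AlgebraicClosure F)), Abv N' V w → Abv M V v →
      Ideal.absNorm v.asIdeal ≠ Ideal.absNorm w.asIdeal)
    {K : ℕ → IntermediateField F (AlgebraicClosure F)} (hK0 : K 0 = N') (hKt : K t = N)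
    (hKc : ∀ j < t, CycJ p (n + j) 1 M (K j) (K (j + 1)) γ)
    (hKf : ∀ j ≤ t, ∀ s, s ∈ (K j).fixingSubgroup ↔ s ∈ N'.fixingSubgroup ∧ s ^ p ^ (t - j) ∈ N.fixingSubgroup) :
    TP (SSG.galS (W₀⁄F) (AlgebraicClosure F)).act p t (SSG.galS (W₀⁄F) (AlgebraicClosure F)).U (inS F) (decS F)
      (fun j => (K j).fixingSubgroup) M.fixingSubgroup (γ ^ p ^ (n - 1)) (RV (W₀⁄F) p N' N) := by
  have hNf : FiniteDimensional F N := c.fin
  have hell : (W₀⁄F).IsElliptic := gen_ell W₀ hH.data.ell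
  obtain ⟨hp1, hp2, hp3⟩ := cp_pext hp.prime.pos c
  obtain ⟨he1, he2, he3⟩ := cp_eta c
  have hUM : UnrP p M := H13R.unr_le hp.prime (c.le.trans c.le') hU
  have hKN : ∀ j ≤ t, K j ≤ N := fun j hj => fix_le fun s hs => (hKf j hj s).2 ⟨cp_le c hs, Subgroup.pow_mem _ hs _⟩
  have hKfin : ∀ j ≤ t, FiniteDimensional F (K j) := fun j hj =>
    Submodule.finiteDimensional_of_le (S₁ := Subalgebra.toSubmodule (K j).toSubalgebra)
      (S₂ := Subalgebra.toSubmodule N.toSubalgebra) (hKN j hj)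
  have hN'K : ∀ j ≤ t, N' ≤ K j := fun j hj => fix_le fun s hs => ((hKf j hj s).1 hs).1
  refine
    { hp := hp.prime
      hUi := ?_
      hUc := ?_
      hLU := fun j hj => ⟨K j, hKfin j hj, rfl⟩
      hLm := fun j hj s => ?_
      hLg := fun j hj h hh => ?_
      hLη := fun j hj => ?_
      hHH := ?_
      hcomm := ?_
      hη := he1
      hconj := fun g hg v => ⟨cV v g, fun s => c1_in v g s,
        c1_rv (W₀⁄F) p N' N v g (cp_iff c g hg).1 (cp_iff c g hg).2⟩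
      hDI := fun v φ hφ s hs => inS_dec v φ hφ s hs
      h0 := fun T hT hf => H13R.tors_KR hH hp hUM hp1 le_rfl T hT (by
        have hf' : ∀ s ∈ (K t).fixingSubgroup, (SSG.galS (W₀⁄F) (AlgebraicClosure F)).act s T = T := hf
        rw [hKt] at hf'
        exact hf')
      hdiv := fun T => div_pt (W₀⁄F) p hp.prime.pos T
      hfix := ?_
      hloc := ?_
      hR := ?_
      sel := ?_ }
  · rintro _ ⟨L, hL, rfl⟩ _ ⟨L', hL', rfl⟩
    exact ⟨L ⊔ L', IntermediateField.finiteDimensional_sup L L',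
      (IntermediateField.fixingSubgroup_sup).symm⟩
  · rintro _ ⟨L, hL, rfl⟩ g
    refine ⟨(L.map (g⁻¹ : AlgebraicClosure F ≃ₐ[F] AlgebraicClosure F).toAlgHom).fixingSubgroup, ⟨_, ?_, rfl⟩, ?_⟩
    · exact LinearEquiv.finiteDimensional
        (IntermediateField.equivMap L (g⁻¹ : AlgebraicClosure F ≃ₐ[F] AlgebraicClosure F).toAlgHom).toLinearEquiv
    · intro s hs
      rw [s3_mem] at hs ⊢
      intro x hx
      have h1 : g (g⁻¹ x) = x := g.apply_symm_apply x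
      have h2 : s (g⁻¹ x) = g⁻¹ x := hs _ ⟨x, hx, rfl⟩
      rw [AlgEquiv.mul_apply, AlgEquiv.mul_apply, h2, h1]
  · show s ∈ (K j).fixingSubgroup ↔ s ∈ (K 0).fixingSubgroup ∧ s ^ p ^ (t - j) ∈ (K t).fixingSubgroup
    rw [hK0, hKt]
    exact hKf j hj s
  · obtain ⟨i, u, hu, hi⟩ := H13V.j_gen (hKc j hj) h hh
    refine ⟨i, u, hu, ?_⟩
    have h1 := c.posn
    have h2 : (γ ^ p ^ (n - 1)) ^ p ^ (j + 1) = (γ ^ p ^ (n + j - 1)) ^ p := by
      rw [← pow_mul, ← pow_mul, ← pow_add, ← pow_succ]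
      congr 2
      omega
    rw [h2]
    exact hi
  · show (γ ^ p ^ (n - 1)) ^ p ^ (j + 1) ∈ (K j).fixingSubgroup
    have h1 := c.posn
    have h2 : (γ ^ p ^ (n - 1)) ^ p ^ (j + 1) = γ ^ p ^ (n + j) := by
      rw [← pow_mul, ← pow_add]
      congr 2
      omega
    rw [h2, hKf j hj, c.mid, ← pow_mul, c.ord, ← pow_add]
    exact ⟨pow_dvd_pow p (Nat.le_add_right n j), pow_dvd_pow p (by omega)⟩
  · show (K 0).fixingSubgroup ≤ M.fixingSubgroup
    rw [hK0]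
    exact IntermediateField.fixingSubgroup_antitone c.le
  · intro a ha b hb
    show a * b * a⁻¹ * b⁻¹ ∈ (K t).fixingSubgroup
    rw [hKt]
    exact cp_comm c a ha b hb
  · intro T
    obtain ⟨L, hL, h⟩ := pt_open (W₀⁄F) T
    exact ⟨L.fixingSubgroup, ⟨L, hL, rfl⟩, h⟩
  · intro j hj v hv
    have hf1 := hKfin j hj.le
    have hf2 := hKfin (j + 1) hj
    have hn1 : NumberField (K j) := NumberField.of_module_finite F (K j)
    have hn2 : NumberField (K (j + 1)) := NumberField.of_module_finite F (K (j + 1))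
    have hU2 : UnrP p (K (j + 1)) := H13R.unr_le hp.prime (hKN (j + 1) hj) hU
    have hv' : ¬ RV (W₀⁄F) p (K j) (K (j + 1)) v := fun h =>
      hv (cp_step hH hp (hKc j hj) hU2 hB (hN'K j hj.le) (hKN (j + 1) hj) c.le h)
    rcases H13V.j_loc hH hp (hKc j hj) hU2 hB hv' with h | h | ⟨h1, h2⟩
    · exact Or.inl h
    · exact Or.inr (Or.inl h)
    · refine Or.inr (Or.inr fun d hd hpd hco => ?_)
      obtain ⟨O, ⟨L, hL, rfl⟩, hO⟩ := hco
      exact c7_cob hH hp v h1 h2 d hd hpd ⟨L, hL, hO⟩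
  · intro v hv
    obtain ⟨w, hw, hwV⟩ := cp_below hH hp c hU hB hv
    obtain ⟨φ, h1, h2, h3⟩ := cp_phi hH hp c hU hB nsp hv
    refine ⟨fun s _ hs k P h => c5_red hH hp hw.1 (cp_p hp c hU hw) (ce_bel hwV) s hs k P h, φ, h2, h1, ?_, fun T hT => ?_⟩
    · show φ⁻¹ * γ ^ p ^ (n - 1) ∈ (K 0).fixingSubgroup
      rw [hK0]
      exact h3
    · exact cp_dec hH hp c hU hB hv φ h1 h2 T hT
  · show SelA (SSG.galS (W₀⁄F) (AlgebraicClosure F)).act p (SSG.galS (W₀⁄F) (AlgebraicClosure F)).U (inS F) (K 0).fixingSubgroup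
    rw [hK0]
    exact (sel_iff (W₀⁄F) p N').1 hS

end H13P
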