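import Mathlib

/-! # H13P, V1: the ideal m = (p, x - 1) (commutative algebra) -/

namespace H13P

/-- x^(p^i) - 1 lies in m^(i+1). -/
theorem om_mem {A : Type} [CommRing A] (p : ℕ) (x : A) (i : ℕ) :
    x ^ p ^ i - 1 ∈ (Ideal.span {(p : A), x - 1}) ^ (i + 1) := by
  obtain ⟨m, hm⟩ : ∃ m : Ideal A, m = Ideal.span {(p : A), x - 1} := ⟨_, rfl⟩
  rw [← hm]
  have hpm : (p : A) ∈ m := by
    rw [hm]
    exact Ideal.subset_span (Set.mem_insert _ _)
  have hxm : x - 1 ∈ m := by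
    rw [hm]
    exact Ideal.subset_span (Set.mem_insert_of_mem _ rfl)
  induction i with
  | zero =>
    rw [pow_zero, pow_one]
    rw [pow_one]
    exact hxm
  | succ i ih =>
    obtain ⟨y, hy⟩ : ∃ y, y = x ^ p ^ i := ⟨_, rfl⟩
    have e0 : x ^ p ^ (i + 1) = y ^ p := by rw [hy, ← pow_mul, ← pow_succ]
    rw [← hy] at ih
    have e1 : y ^ p - 1 = (∑ k ∈ Finset.range p, y ^ k) * (y - 1) := (geom_sum_mul _ _).symm
    have h1 : y - 1 ∈ m := Ideal.pow_le_self (Nat.succ_ne_zero i) ih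
    have h2 : ∑ k ∈ Finset.range p, y ^ k ∈ m := by
      have e2 : ∑ k ∈ Finset.range p, y ^ k = ∑ k ∈ Finset.range p, (y ^ k - 1) + (p : A) := by
        rw [Finset.sum_sub_distrib, Finset.sum_const, Finset.card_range, nsmul_eq_mul, mul_one, sub_add_cancel]
      rw [e2]
      refine m.add_mem (m.sum_mem fun k _ => ?_) hpm
      obtain ⟨q, hq⟩ : y - 1 ∣ y ^ k - 1 := by
        have h := sub_dvd_pow_sub_pow y 1 k
        rwa [one_pow] at h
      rw [hq]
      exact m.mul_mem_right _ h1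
    rw [e0, e1, pow_succ m, mul_comm (∑ k ∈ Finset.range p, y ^ k)]
    exact Ideal.mul_mem_mul ih h2

/-- A power of m lies in an ideal containing p^k and x^(p^r) - 1. -/
theorem m_pow {A : Type} [CommRing A] (p : ℕ) (hp : p.Prime) (k r : ℕ) (J : Ideal A) (x : A) (hk : (p : A) ^ k ∈ J)
    (hx : x ^ (p ^ r) - 1 ∈ J) : ∃ K : ℕ, (Ideal.span {(p : A), x - 1}) ^ K ≤ J := by
  obtain ⟨y, hy⟩ : ∃ y, y = x - 1 := ⟨_, rfl⟩
  have hxy : x = y + 1 := by rw [hy, sub_add_cancel]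
  rw [← hy]
  have hnil : ∃ n, y ^ n ∈ J := by
    obtain ⟨a, ha⟩ := Commute.exists_add_pow_prime_pow_eq hp (Commute.all y (1 : A)) r
    refine ⟨p ^ r * k, ?_⟩
    have h1 : y ^ p ^ r = (x ^ p ^ r - 1) - (p : A) * (y * a) := by
      rw [hxy, ha, one_pow]
      ring
    rw [pow_mul, h1]
    obtain ⟨q, hq⟩ := sub_dvd_pow_sub_pow ((x ^ p ^ r - 1) - (p : A) * (y * a)) (-((p : A) * (y * a))) k
    have h3 : ((x ^ p ^ r - 1) - (p : A) * (y * a)) ^ k = (x ^ p ^ r - 1) * q + (p : A) ^ k * (-(y * a)) ^ k := by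
      have h2 : ((x ^ p ^ r - 1) - (p : A) * (y * a)) - (-((p : A) * (y * a))) = x ^ p ^ r - 1 := by ring
      rw [h2] at hq
      rw [← hq, ← mul_pow]
      ring
    rw [h3]
    exact J.add_mem (J.mul_mem_right _ hx) (J.mul_mem_right _ hk)
  obtain ⟨n, hn⟩ := hnil
  refine ⟨k + n, ?_⟩
  rw [Ideal.span_insert]
  refine (Ideal.sup_pow_add_le_pow_sup_pow).trans (sup_le ?_ ?_)
  · rw [Ideal.span_singleton_pow, Ideal.span_singleton_le_iff_mem]
    exact hk
  · rw [Ideal.span_singleton_pow, Ideal.span_singleton_le_iff_mem]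
    exact hn

/-- Nakayama's lemma: if g ω in J implies m^j g in J, ω lies in m^(j+1) and a power of m lies in J, then m^j lies in J. -/
theorem v2_ring {A : Type} [CommRing A] (m J : Ideal A) (ω : A) (j K : ℕ) (hK : m ^ K ≤ J) (hω : ω ∈ m ^ (j + 1))
    (h0 : ∀ g, ω * g ∈ J → ∀ a ∈ m ^ j, a * g ∈ J) : m ^ j ≤ J := by
  induction K with
  | zero =>
    rw [pow_zero, Ideal.one_eq_top, top_le_iff] at hK
    rw [hK]
    exact le_top
  | succ K ih =>
    rcases Nat.lt_or_ge K j with h | h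
    · exact (Ideal.pow_le_pow_right h).trans hK
    · refine ih ?_
      have e1 : m ^ K = m ^ j * m ^ (K - j) := by
        rw [← pow_add]
        congr 1
        omega
      rw [e1]
      refine Ideal.mul_le.2 fun a ha g hg => h0 g ?_ a ha
      refine hK ?_
      have e2 : K + 1 = (j + 1) + (K - j) := by omega
      rw [e2, pow_add]
      exact Ideal.mul_mem_mul hω hg

end H13P
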