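import Mathlib
import Pool.Agent.Lib.H13P.D

/-! # H13P, V3: a class over L (j + 1) invariant under η^(p^(j+1)) comes from a class over L j -/

namespace H13P

open H55P H13T H13V

variable {G M Vs : Type} [Group G] [AddCommGroup M] {ρ : G →* AddMonoid.End M} {p t : ℕ} {U : Set (Subgroup G)} {I D : Vs → Subgroup G}
  {L : ℕ → Subgroup G} {H₀ : Subgroup G} {η : G} {R : Vs → Prop}

theorem fix_pow (S : TP ρ p t U I D L H₀ η R) (k : ℕ) (T : M) (hT : p ^ k • T = 0) (hf : ∀ s ∈ L t, ρ s T = T) : T = 0 := by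
  induction k with
  | zero => rwa [pow_zero, one_smul] at hT
  | succ k ih =>
    refine ih (S.h0 _ ?_ ?_)
    · rw [← mul_smul, ← pow_succ']
      exact hT
    · intro s hs
      rw [map_nsmul, hf s hs]

theorem TP.comm (S : TP ρ p t U I D L H₀ η R) {j : ℕ} (hj : j ≤ t) : ∀ a ∈ H₀, ∀ b ∈ H₀, a * b * a⁻¹ * b⁻¹ ∈ L j :=
  fun a ha b hb => S.mono hj le_rfl (S.hcomm a ha b hb)

theorem TP.le0 (S : TP ρ p t U I D L H₀ η R) {j : ℕ} (hj : j ≤ t) : L j ≤ H₀ := (S.mono (Nat.zero_le j) hj).trans S.hHH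

theorem tp_ext (S : TP ρ p t U I D L H₀ η R) {j : ℕ} (hj : j < t) (k : ℕ) (c : G → M) (hc : IsC ρ (L (j + 1)) c)
    (hk : ∀ s ∈ L (j + 1), p ^ k • c s = 0)
    (hb : ∃ T : M, p ^ k • T = 0 ∧ ∀ s ∈ L (j + 1), ρ (η ^ p ^ (j + 1)) (c ((η ^ p ^ (j + 1))⁻¹ * s * η ^ p ^ (j + 1))) - c s = ρ s T - T) :
    ∃ d : G → M, IsC ρ (L j) d ∧ (∀ s ∈ L j, p ^ k • d s = 0) ∧ ∀ s ∈ L (j + 1), d s = c s := by
  have hNH : L (j + 1) ≤ L j := S.mono (Nat.le_succ j) hj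
  have hHH : L j ≤ H₀ := S.le0 hj.le
  have hcH : ∀ a ∈ L j, ∀ b ∈ L j, a * b * a⁻¹ * b⁻¹ ∈ L (j + 1) := fun a ha b hb => S.comm hj a (hHH ha) b (hHH hb)
  obtain ⟨θ, hθ⟩ : ∃ θ, θ = η ^ p ^ (j + 1) := ⟨_, rfl⟩
  have hθL : θ ∈ L j := by
    rw [hθ]
    exact S.hLη j hj.le
  rw [← hθ] at hb
  have hn := sa3_norm hNH hcH
  have hn' := sa3_norm' hNH hcH
  have hI : sa3_I ρ (p ^ k) (L (j + 1)) c θ := hb
  have hI1 : ∀ n ∈ L (j + 1), sa3_I ρ (p ^ k) (L (j + 1)) c n := fun n hn => ⟨c n, hk n hn, fun s hs => sa3_self hc n hn s hs⟩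
  have hI2 : ∀ i : ℕ, sa3_I ρ (p ^ k) (L (j + 1)) c (θ ^ i) := by
    intro i
    induction i with
    | zero =>
      rw [pow_zero]
      exact hI1 1 (one_mem _)
    | succ i ih =>
      rw [pow_succ' θ i]
      exact sa3_I_mul (hn' _ hθL) hI ih
  have hinv : ∀ g ∈ L j, sa3_I ρ (p ^ k) (L (j + 1)) c g := by
    intro g hg
    obtain ⟨i, n, hnN, rfl⟩ := S.hLg j hj g hg
    rw [← hθ]
    exact sa3_I_mul (hn' _ ((L j).pow_mem hθL i)) (hI2 i) (hI1 n hnN)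
  exact ext_coc ρ (p ^ k) (L (j + 1)) (L j) hNH hn
    (fun T hT hf => fix_pow S k T hT fun s hs => hf s (S.mono hj le_rfl hs)) c hc hk hinv

theorem pow_mem (S : TP ρ p t U I D L H₀ η R) {j : ℕ} (hj : j < t) (s : G) (hs : s ∈ L j) : s ^ p ∈ L (j + 1) := by
  obtain ⟨h1, h2⟩ := (S.hLm j hj.le s).1 hs
  refine (S.hLm (j + 1) hj _).2 ⟨(L 0).pow_mem h1 p, ?_⟩
  rw [← pow_mul, ← pow_succ']
  have e : t - (j + 1) + 1 = t - j := by omega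
  rw [e]
  exact h2

theorem tp_rel (S : TP ρ p t U I D L H₀ η R) {j : ℕ} (hj : j < t) (k : ℕ) (c : G → M) (hc : IsC ρ (L (j + 1)) c)
    (hk : ∀ s ∈ L (j + 1), p ^ k • c s = 0) (hco : Cont U (L (j + 1)) c) (hl : ∀ v, Tr ρ (L (j + 1)) (I v) c)
    (hb : ∃ T : M, p ^ k • T = 0 ∧ ∀ s ∈ L (j + 1), ρ (η ^ p ^ (j + 1)) (c ((η ^ p ^ (j + 1))⁻¹ * s * η ^ p ^ (j + 1))) - c s = ρ s T - T) :
    ∃ d : G → M, IsC ρ (L j) d ∧ Cont U (L j) d ∧ (∀ s ∈ L j, p ^ k • d s = 0) ∧ (∀ s ∈ L (j + 1), d s = c s) ∧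
      (∀ v, ¬ R v → Tr ρ (L j) (I v) d) ∧ (∀ v, R v → ∀ s ∈ L j, s ∈ I v → p • d s = 0) ∧
      ∀ v, R v → ∀ s ∈ L (j + 1), s ∈ I v → d s = 0 := by
  obtain ⟨d, hd1, hd2, hd3⟩ := tp_ext S hj k c hc hk hb
  obtain ⟨O, hO, hO1⟩ := hco
  have hNO : L (j + 1) ⊓ O ∈ U := S.hUi _ (S.hLU (j + 1) hj) O hO
  have hdO : ∀ s ∈ L j, s ∈ L (j + 1) ⊓ O → d s = 0 := fun s _ h => by rw [hd3 s h.1, hO1 s h.1 h.2]
  have hNH : L (j + 1) ≤ L j := S.mono (Nat.le_succ j) hj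
  have hHH : L j ≤ H₀ := S.le0 hj.le
  have hH0 : L j ≤ L 0 := S.mono (Nat.zero_le j) hj.le
  have hcommH : ∀ a ∈ L j, ∀ b ∈ L j, a * b * a⁻¹ * b⁻¹ ∈ L (j + 1) := fun a ha b hb => S.comm hj a (hHH ha) b (hHH hb)
  -- the places which are not relaxed
  have ha : ∀ v, ¬ R v → Tr ρ (L j) (I v) d := by
    intro v hv
    rcases S.hloc j hj v hv with h | ⟨h1, h2⟩ | h3
    · obtain ⟨P, hP⟩ := hl v
      exact ⟨P, fun s hs hI => by rw [hd3 s (h s hs hI), hP s (h s hs hI) hI]⟩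
    · refine sa3_loc (p ^ k) I D (L (j + 1)) (L j) hNH hcommH S.hDI v (Or.inr ⟨fun s hs hI P hP => h1 s hs hI k P hP, ?_⟩)
        c d (hl v) hk hd1 hd2 hd3
      intro T hT hf
      exact u4_fix ρ p (fun s => s ∈ L j ∧ s ∈ D v) (fun T hT hf => h2 T hT fun s hs hD => hf s ⟨hs, hD⟩) k T hT
        fun s hs => hf s hs.1 hs.2
    · obtain ⟨T, _, hT⟩ := pow_all ρ S.hUi S.hdiv S.hfix h3 k d (fun s hs t ht => hd1 s hs.1 t ht.1)
        (fun s hs => hd2 s hs.1) ⟨L (j + 1) ⊓ O, hNO, fun s hs h => hdO s hs.1 h⟩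
      exact ⟨T, fun s hs hI => hT s ⟨hs, hI⟩⟩
  -- the relaxed places
  have hz : ∀ v, R v → ∀ s ∈ L (j + 1), s ∈ I v → d s = 0 := by
    intro v hv s hs hI
    obtain ⟨hRv, -⟩ := S.hR v hv
    obtain ⟨P, hP⟩ := hl v
    have h2 := hP s hs hI
    have h3 : ρ s P = P := hRv s (hH0 (hNH hs)) hI k P (by rw [← h2]; exact hk s hs)
    rw [hd3 s hs, h2, h3, sub_self]
  refine ⟨d, hd1, ⟨L (j + 1) ⊓ O, hNO, hdO⟩, hd2, hd3, ha, fun v hv s hs hI => ?_, hz⟩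
  obtain ⟨hRv, -⟩ := S.hR v hv
  have triv : ∀ t ∈ L j, t ∈ I v → ∀ x : M, p ^ k • x = 0 → ρ t x = x := by
    intro t ht hIt x hx
    refine hRv t (hH0 ht) hIt k x ?_
    rw [smul_sub, ← map_nsmul, hx, map_zero, sub_zero]
  have h1 : d 1 = 0 := by
    have := hd1 1 (one_mem _) 1 (one_mem _)
    rw [mul_one, sa3_one] at this
    exact left_eq_add.1 this
  have hdp : ∀ i : ℕ, d (s ^ i) = i • d s := by
    intro i
    induction i with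
    | zero => rw [pow_zero, h1, zero_smul]
    | succ i ih =>
      rw [pow_succ, hd1 _ ((L j).pow_mem hs i) s hs, ih, triv _ ((L j).pow_mem hs i) ((I v).pow_mem hI i) _ (hd2 s hs),
        succ_nsmul]
  rw [← hdp p]
  exact hz v hv _ (pow_mem S hj s hs) ((I v).pow_mem hI p)

end H13P
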