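import Mathlib
import Pool.Agent.Lib.H13P.V3

/-! # H13P, V4: relaxed classes are determined by their values at the τ w; sums -/

namespace H13P

open H55P H13T
open H13V (RC tk pg)

variable {G M Vs : Type} [Group G] [AddCommGroup M] {ρ : G →* AddMonoid.End M} {p t : ℕ} {U : Set (Subgroup G)} {I D : Vs → Subgroup G}
  {L : ℕ → Subgroup G} {H₀ : Subgroup G} {η : G} {R : Vs → Prop} {ι : Type} {v : ι → Vs} {τ : ι → G} {ex : ι → ℕ}

theorem u8_one {c : G → M} (hc : IsC ρ (L 0) c) : c 1 = 0 := by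
  have h := hc 1 (L 0).one_mem 1 (L 0).one_mem
  rw [mul_one, sa3_one] at h
  exact left_eq_add.1 h

theorem u8_fix (S : TP ρ p t U I D L H₀ η R) {u : Vs} (hu : R u) {s : G} (hs : s ∈ L 0) (hsI : s ∈ I u) {k : ℕ} {P : M}
    (hP : p ^ k • P = 0) : ρ s P = P := by
  refine (S.hR u hu).1 s hs hsI k P ?_
  rw [smul_sub, hP, sa3_nsmul ρ (p ^ k) s P hP, sub_zero]

/-- The values at the powers of τ w. -/
theorem u8_pow (S : TP ρ p t U I D L H₀ η R) (T : TX p t I L R ι v τ ex) {d : G → M} (hd : RC ρ p t U I (L t) (L 0) R d) (w : ι) (i : ℕ) :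
    d (τ w ^ i) = i • d (τ w) := by
  induction i with
  | zero => rw [pow_zero, u8_one hd.coc, zero_smul]
  | succ i ih =>
    rw [pow_succ, hd.coc _ ((L 0).pow_mem (T.mem w) i) _ (T.mem w), ih,
      u8_fix S (T.rel w) ((L 0).pow_mem (T.mem w) i) ((I (v w)).pow_mem (T.ine w) i) (hd.kil _ (T.mem w)), succ_nsmul]

/-- The value at τ w is killed by p^(ex w). -/
theorem rc_ex (S : TP ρ p t U I D L H₀ η R) (T : TX p t I L R ι v τ ex) {d : G → M} (hd : RC ρ p t U I (L t) (L 0) R d) (w : ι) :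
    p ^ ex w • d (τ w) = 0 := by
  rw [← u8_pow S T hd]
  exact hd.rel (v w) (T.rel w) _ ((T.ord w _).2 dvd_rfl) ((I (v w)).pow_mem (T.ine w) _)

theorem rc_zero (S : TP ρ p t U I D L H₀ η R) (T : TX p t I L R ι v τ ex) (d : G → M) (hd : RC ρ p t U I (L t) (L 0) R d)
    (h : ∀ w, d (τ w) = 0) : ∃ T₀ : M, p ^ t • T₀ = 0 ∧ ∀ s ∈ L 0, d s = ρ s T₀ - T₀ := by
  refine pow_sel ρ S.hUi S.hdiv S.hfix S.sel t d hd.coc hd.cont hd.kil fun u => ?_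
  by_cases hu : R u
  · refine ⟨0, fun s hs hsI => ?_⟩
    rw [map_zero, sub_zero]
    obtain ⟨w, g, hg, hcov⟩ := T.cov u hu
    have h1 : g * s * g⁻¹ ∈ L 0 := (L 0).mul_mem ((L 0).mul_mem hg hs) ((L 0).inv_mem hg)
    obtain ⟨i, n, hn, hnI, hi⟩ := T.gen w (g * s * g⁻¹) h1 ((hcov s).1 hsI)
    have h2 : d (g * s * g⁻¹) = 0 := by
      rw [hi, hd.coc _ ((L 0).pow_mem (T.mem w) i) _ (S.hNH hn), u8_pow S T hd, h w, smul_zero, hd.rel (v w) (T.rel w) n hn hnI,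
        map_zero, add_zero]
    have h3 := sa3_self hd.coc g⁻¹ ((L 0).inv_mem hg) s hs
    rw [inv_inv, h2, map_zero, u8_fix S hu hs hsI (hd.kil _ ((L 0).inv_mem hg)), sub_self, zero_sub,
      neg_eq_zero] at h3
    exact h3
  · exact hd.loc u hu

theorem rc_add (S : TP ρ p t U I D L H₀ η R) {d d' : G → M} (hd : RC ρ p t U I (L t) (L 0) R d) (hd' : RC ρ p t U I (L t) (L 0) R d') :
    RC ρ p t U I (L t) (L 0) R (d + d') := by
  refine ⟨fun s hs t ht => ?_, ?_, fun s hs => ?_, fun u hu => ?_, fun u hu s hs hsI => ?_⟩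
  · rw [Pi.add_apply, Pi.add_apply, Pi.add_apply, hd.coc s hs t ht, hd'.coc s hs t ht, map_add]
    abel
  · obtain ⟨O, hO, h1⟩ := hd.cont
    obtain ⟨O', hO', h2⟩ := hd'.cont
    refine ⟨O ⊓ O', S.hUi O hO O' hO', fun s hs h => ?_⟩
    rw [Pi.add_apply, h1 s hs h.1, h2 s hs h.2, add_zero]
  · rw [Pi.add_apply, smul_add, hd.kil s hs, hd'.kil s hs, add_zero]
  · obtain ⟨P, hP⟩ := hd.loc u hu
    obtain ⟨Q, hQ⟩ := hd'.loc u hu
    refine ⟨P + Q, fun s hs h => ?_⟩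
    rw [Pi.add_apply, hP s hs h, hQ s hs h, map_add]
    abel
  · rw [Pi.add_apply, hd.rel u hu s hs hsI, hd'.rel u hu s hs hsI, add_zero]

theorem u9_neg {d : G → M} (hd : RC ρ p t U I (L t) (L 0) R d) : RC ρ p t U I (L t) (L 0) R (-d) := by
  refine ⟨fun s hs t ht => ?_, ?_, fun s hs => ?_, fun u hu => ?_, fun u hu s hs hsI => ?_⟩
  · rw [Pi.neg_apply, Pi.neg_apply, Pi.neg_apply, hd.coc s hs t ht, map_neg]
    abel
  · obtain ⟨O, hO, h1⟩ := hd.cont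
    exact ⟨O, hO, fun s hs h => by rw [Pi.neg_apply, h1 s hs h, neg_zero]⟩
  · rw [Pi.neg_apply, smul_neg, hd.kil s hs, neg_zero]
  · obtain ⟨P, hP⟩ := hd.loc u hu
    refine ⟨-P, fun s hs h => ?_⟩
    rw [Pi.neg_apply, hP s hs h, map_neg]
    abel
  · rw [Pi.neg_apply, hd.rel u hu s hs hsI, neg_zero]

theorem u9_zero (S : TP ρ p t U I D L H₀ η R) : RC ρ p t U I (L t) (L 0) R (0 : G → M) := by
  refine ⟨fun s _ t _ => ?_, ⟨L t, S.hN, fun s _ _ => rfl⟩, fun s _ => ?_, fun u _ => ⟨0, fun s _ _ => ?_⟩, fun u _ s _ _ => rfl⟩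
  · rw [Pi.zero_apply, Pi.zero_apply, Pi.zero_apply, map_zero, add_zero]
  · rw [Pi.zero_apply, smul_zero]
  · rw [Pi.zero_apply, map_zero, sub_zero]

theorem rc_sub (S : TP ρ p t U I D L H₀ η R) {d d' : G → M} (hd : RC ρ p t U I (L t) (L 0) R d) (hd' : RC ρ p t U I (L t) (L 0) R d') :
    RC ρ p t U I (L t) (L 0) R (d - d') := by
  rw [sub_eq_add_neg]
  exact rc_add S hd (u9_neg hd')

theorem rc_fun (S : TP ρ p t U I D L H₀ η R) [Finite ι] (𝒟 : Set (Subgroup G))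
    (hE : ∀ (w : ι) (T : M), p ^ ex w • T = 0 → ∃ d : G → M, RC ρ p t U I (L t) (L 0) R d ∧ (∀ J ∈ 𝒟, Tr ρ (L t) J d) ∧ d (τ w) = T ∧
      ∀ w', w' ≠ w → d (τ w') = 0)
    (f : ι → M) (hf : ∀ w, p ^ ex w • f w = 0) : ∃ d : G → M, RC ρ p t U I (L t) (L 0) R d ∧ (∀ J ∈ 𝒟, Tr ρ (L t) J d) ∧ ∀ w, d (τ w) = f w := by
  classical
  have : Fintype ι := Fintype.ofFinite ι
  have key : ∀ t' : Finset ι, ∃ d : G → M, RC ρ p t U I (L t) (L 0) R d ∧ (∀ J ∈ 𝒟, Tr ρ (L t) J d) ∧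
      (∀ w ∈ t', d (τ w) = f w) ∧ ∀ w, w ∉ t' → d (τ w) = 0 := by
    intro t'
    induction t' using Finset.induction_on with
    | empty =>
      refine ⟨0, u9_zero S, fun J _ => ⟨0, fun s _ _ => ?_⟩, fun w hw => absurd hw (Finset.notMem_empty w), fun w _ => rfl⟩
      rw [Pi.zero_apply, map_zero, sub_zero]
    | insert a t' ha ih =>
      obtain ⟨d, h1, h2, h3, h4⟩ := ih
      obtain ⟨e, g1, g2, g3, g4⟩ := hE a (f a) (hf a)
      refine ⟨d + e, rc_add S h1 g1, fun J hJ => ?_, fun w hw => ?_, fun w hw => ?_⟩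
      · obtain ⟨P, hP⟩ := h2 J hJ
        obtain ⟨Q, hQ⟩ := g2 J hJ
        refine ⟨P + Q, fun s hs h => ?_⟩
        rw [Pi.add_apply, hP s hs h, hQ s hs h, map_add]
        abel
      · rcases Finset.mem_insert.1 hw with rfl | hw
        · rw [Pi.add_apply, h4 w ha, g3, zero_add]
        · rw [Pi.add_apply, h3 w hw, g4 w (fun h => ha (h ▸ hw)), add_zero]
      · rw [Finset.mem_insert, not_or] at hw
        rw [Pi.add_apply, h4 w hw.2, g4 w hw.1, add_zero]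
  obtain ⟨d, h1, h2, h3, -⟩ := key Finset.univ
  exact ⟨d, h1, h2, fun w => h3 w (Finset.mem_univ w)⟩

theorem dvd_aux {p : ℕ} (hp : 0 < p) (a b m : ℕ) : p ^ a ∣ m * p ^ b ↔ p ^ (a - b) ∣ m := by
  rcases le_total a b with h | h
  · rw [Nat.sub_eq_zero_of_le h, pow_zero]
    exact ⟨fun _ => one_dvd _, fun _ => dvd_mul_of_dvd_right (pow_dvd_pow p h) m⟩
  · obtain ⟨c, rfl⟩ := Nat.exists_eq_add_of_le h
    rw [Nat.add_sub_cancel_left, pow_add, mul_comm (p ^ b)]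
    exact Nat.mul_dvd_mul_iff_right (pow_pos hp b)

/-- The powers of τ w in L j. -/
theorem ordj (S : TP ρ p t U I D L H₀ η R) (T : TX p t I L R ι v τ ex) {j : ℕ} (hj : j ≤ t) (w : ι) (m : ℕ) :
    τ w ^ m ∈ L j ↔ p ^ (ex w - (t - j)) ∣ m := by
  rw [S.hLm j hj, ← pow_mul, T.ord, dvd_aux S.hp.pos]
  exact ⟨fun h => h.2, fun h => ⟨(L 0).pow_mem (T.mem w) m, h⟩⟩

/-- The inertia group in L j. -/
theorem genj (S : TP ρ p t U I D L H₀ η R) (T : TX p t I L R ι v τ ex) {j : ℕ} (hj : j ≤ t) (w : ι) (s : G) (hs : s ∈ L j)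
    (hi : s ∈ I (v w)) : ∃ i : ℕ, ∃ n ∈ L t, n ∈ I (v w) ∧ s = (τ w ^ p ^ (ex w - (t - j))) ^ i * n := by
  obtain ⟨i, n, hn, hnI, rfl⟩ := T.gen w s (S.mono (Nat.zero_le j) hj hs) hi
  have h1 : τ w ^ i ∈ L j := by
    have h2 := (L j).mul_mem hs ((L j).inv_mem (S.mono hj le_rfl hn))
    rwa [mul_inv_cancel_right] at h2
  obtain ⟨q, hq⟩ := (ordj S T hj w i).1 h1
  exact ⟨q, n, hn, hnI, by rw [hq, pow_mul]⟩

/-- The decomposition group at a relaxed place meets every class of L 0 modulo L t. -/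
theorem dec_all (S : TP ρ p t U I D L H₀ η R) {u : Vs} (hu : R u) (h : G) (hh : h ∈ L 0) : ∃ δ ∈ D u, δ⁻¹ * h ∈ L t := by
  obtain ⟨-, φ, hφD, hφH, hφη, -⟩ := S.hR u hu
  have hle : L t ≤ H₀ := S.le0 le_rfl
  have hNn : ((L t).subgroupOf H₀).Normal := ⟨fun n hn g => by
    rw [Subgroup.mem_subgroupOf] at hn ⊢
    have h1 := S.hcomm g g.2 n n.2
    have h2 := (L t).mul_mem h1 hn
    rwa [inv_mul_cancel_right] at h2⟩
  obtain ⟨f, hf⟩ : ∃ f : H₀ →* H₀ ⧸ (L t).subgroupOf H₀, f = QuotientGroup.mk' ((L t).subgroupOf H₀) := ⟨_, rfl⟩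
  have hfe : ∀ a b : H₀, f a = f b ↔ (a : G)⁻¹ * b ∈ L t := by
    intro a b
    rw [hf, QuotientGroup.mk'_apply, QuotientGroup.mk'_apply, QuotientGroup.eq, Subgroup.mem_subgroupOf]
    rfl
  obtain ⟨x, hx⟩ : ∃ x : H₀, x = ⟨η, S.hη⟩ := ⟨_, rfl⟩
  obtain ⟨y, hy⟩ : ∃ y : H₀, y = ⟨φ, hφH⟩ := ⟨_, rfl⟩
  have hxp : (f x ^ p) ^ p ^ t = 1 := by
    rw [← pow_mul, ← pow_succ', ← map_pow, ← map_one f, eq_comm, hfe]
    rw [hx]
    show (1 : G)⁻¹ * η ^ p ^ (t + 1) ∈ L t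
    rw [inv_one, one_mul]
    exact S.hηpp
  obtain ⟨i, n, hn, hk⟩ := S.hgen _ hφη
  have h1 : f y * (f x ^ p) ^ i = f x := by
    rw [← map_pow, ← map_pow, ← map_mul, hfe]
    rw [hx, hy]
    show (φ * (η ^ p) ^ i)⁻¹ * η ∈ L t
    have e : (φ * (η ^ p) ^ i)⁻¹ * η = ((η ^ p) ^ i)⁻¹ * (φ⁻¹ * η) := by group
    rw [e, hk, inv_mul_cancel_left]
    exact hn
  have h2 : f y = f x ^ (1 - (p : ℤ) * i) := by
    rw [zpow_sub, zpow_one, zpow_mul, zpow_natCast, zpow_natCast, eq_mul_inv_iff_mul_eq]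
    exact h1
  have hcop : IsCoprime (1 - (p : ℤ) * i) ((p : ℤ) ^ t) := by
    refine IsCoprime.pow_right ⟨1, i, by ring⟩
  obtain ⟨a, b, hab⟩ := hcop
  have h3 : (f y ^ p) ^ a = f x ^ p := by
    have e1 : f x ^ p = (f x ^ p) ^ (a * (1 - (p : ℤ) * i) + b * (p : ℤ) ^ t) := by rw [hab, zpow_one]
    rw [e1, zpow_add, mul_comm b, zpow_mul _ ((p : ℤ) ^ t), ← Nat.cast_pow, zpow_natCast, hxp, one_zpow, mul_one, h2]
    rw [← zpow_natCast, ← zpow_natCast, ← zpow_mul, ← zpow_mul, ← zpow_mul]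
    congr 1
    ring
  obtain ⟨i', n', hn', rfl⟩ := S.hgen h hh
  refine ⟨((φ ^ p) ^ a) ^ i', (D u).pow_mem ((D u).zpow_mem ((D u).pow_mem hφD p) a) i', ?_⟩
  have h4 : f (((y ^ p) ^ a) ^ i') = f ((x ^ p) ^ i') := by
    rw [map_pow, map_zpow, map_pow, h3, map_pow, map_pow]
  rw [hfe] at h4
  rw [hx, hy] at h4
  have h5 : (((φ ^ p) ^ a) ^ i')⁻¹ * (η ^ p) ^ i' ∈ L t := h4
  rw [← mul_assoc]
  exact (L t).mul_mem h5 hn'

/-- Every relaxed place is conjugate under L t to one of the places v w. -/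
theorem covt (S : TP ρ p t U I D L H₀ η R) (T : TX p t I L R ι v τ ex) (u : Vs) (hu : R u) :
    ∃ w, ∃ h ∈ L t, ∀ s, s ∈ I u ↔ h * s * h⁻¹ ∈ I (v w) := by
  obtain ⟨w, h, hh, hc⟩ := T.cov u hu
  obtain ⟨δ, hδ, hn⟩ := dec_all S (T.rel w) h hh
  refine ⟨w, δ⁻¹ * h, hn, fun s => ?_⟩
  rw [hc s]
  have e1 : δ⁻¹ * h * s * (δ⁻¹ * h)⁻¹ = δ⁻¹ * (h * s * h⁻¹) * δ := by group
  rw [e1]
  constructor
  · intro h1
    have h2 := S.hDI (v w) δ⁻¹ ((D (v w)).inv_mem hδ) _ h1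
    rwa [inv_inv] at h2
  · intro h1
    have h2 := S.hDI (v w) δ hδ _ h1
    have e2 : δ * (δ⁻¹ * (h * s * h⁻¹) * δ) * δ⁻¹ = h * s * h⁻¹ := by group
    rwa [e2] at h2

end H13P
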