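import Mathlib
import Pool.Agent.Lib.H13P.V1
import Pool.Agent.Lib.H13P.V4

/-! # H13P, V5: the ideal m = (p, η - 1) acts on the relaxed classes as on their values -/

namespace H13P

open H55P H13T
open H13V (RC tk pg)

/-- The polynomials preserve the subgroups preserved by the endomorphism. -/
theorem act_stab {X : Type} [AddCommGroup X] (Z : AddSubgroup X) (F : AddMonoid.End X) (h : ∀ z ∈ Z, F z ∈ Z) (f : Polynomial ℤ) :
    ∀ z ∈ Z, (Polynomial.aeval F f : AddMonoid.End X) z ∈ Z := by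
  obtain ⟨S, hS⟩ : ∃ S : Subring (AddMonoid.End X), ∀ g, g ∈ S ↔ ∀ z ∈ Z, g z ∈ Z := ⟨
    { carrier := {g | ∀ z ∈ Z, g z ∈ Z}
      mul_mem' := fun {f g} hf hg z hz => hf _ (hg z hz)
      one_mem' := fun z hz => hz
      add_mem' := fun {f g} hf hg z hz => Z.add_mem (hf z hz) (hg z hz)
      zero_mem' := fun z _ => Z.zero_mem
      neg_mem' := fun {f} hf z hz => Z.neg_mem (hf z hz) }, fun g => Iff.rfl⟩
  have hF : F ∈ S := (hS F).2 h
  have h1 : (Polynomial.aeval F f : AddMonoid.End X) ∈ S := by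
    rw [Polynomial.aeval_eq_sum_range]
    exact S.sum_mem fun i _ => S.zsmul_mem (S.pow_mem hF i) _
  exact (hS _).1 h1

theorem act_mul {X : Type} [AddCommGroup X] (F : AddMonoid.End X) (f g : Polynomial ℤ) (z : X) :
    (Polynomial.aeval F (f * g) : AddMonoid.End X) z = (Polynomial.aeval F f : AddMonoid.End X) ((Polynomial.aeval F g : AddMonoid.End X) z) := by
  rw [map_mul]
  rfl

theorem act_p {X : Type} [AddCommGroup X] (F : AddMonoid.End X) (p : ℕ) (z : X) :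
    (Polynomial.aeval F ((p : ℕ) : Polynomial ℤ) : AddMonoid.End X) z = p • z := by
  rw [map_natCast, AddMonoid.End.natCast_apply]

theorem act_X {X : Type} [AddCommGroup X] (F : AddMonoid.End X) (z : X) :
    (Polynomial.aeval F (Polynomial.X - 1 : Polynomial ℤ) : AddMonoid.End X) z = F z - z := by
  rw [map_sub, map_one, Polynomial.aeval_X]
  rfl

theorem act_pow {X : Type} [AddCommGroup X] (F : AddMonoid.End X) (m : ℕ) (z : X) :
    (Polynomial.aeval F (Polynomial.X ^ m - 1 : Polynomial ℤ) : AddMonoid.End X) z = F^[m] z - z := by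
  rw [map_sub, map_one, map_pow, Polynomial.aeval_X]
  show (F ^ m : AddMonoid.End X) z - z = _
  rw [AddMonoid.End.coe_pow]

variable {G M Vs : Type} [Group G] [AddCommGroup M] {ρ : G →* AddMonoid.End M} {p t : ℕ} {U : Set (Subgroup G)} {I D : Vs → Subgroup G}
  {L : ℕ → Subgroup G} {H₀ : Subgroup G} {η : G} {R : Vs → Prop} {ι : Type} {v : ι → Vs} {τ : ι → G} {ex : ι → ℕ}

/-- The action of η on the functions. -/
def FE (ρ : G →* AddMonoid.End M) (η : G) : AddMonoid.End (G → M) := sa3_F ρ η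

theorem FE_apply (ρ : G →* AddMonoid.End M) (η : G) (c : G → M) : FE ρ η c = sa3_F ρ η c := rfl

/-- The action of a polynomial in η. -/
noncomputable def PA (ρ : G →* AddMonoid.End M) (η : G) (f : Polynomial ℤ) : AddMonoid.End (G → M) := Polynomial.aeval (FE ρ η) f

theorem pa_stab (ρ : G →* AddMonoid.End M) (η : G) (Z : AddSubgroup (G → M)) (h : ∀ z ∈ Z, sa3_F ρ η z ∈ Z) (f : Polynomial ℤ) :
    ∀ z ∈ Z, PA ρ η f z ∈ Z := act_stab Z (FE ρ η) h f

theorem pa_mul (ρ : G →* AddMonoid.End M) (η : G) (f g : Polynomial ℤ) (z : G → M) : PA ρ η (f * g) z = PA ρ η f (PA ρ η g z) :=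
  act_mul (FE ρ η) f g z

theorem pa_p (ρ : G →* AddMonoid.End M) (η : G) (p : ℕ) (z : G → M) : PA ρ η ((p : ℕ) : Polynomial ℤ) z = p • z := act_p (FE ρ η) p z

theorem pa_X (ρ : G →* AddMonoid.End M) (η : G) (z : G → M) : PA ρ η (Polynomial.X - 1) z = sa3_F ρ η z - z := act_X (FE ρ η) z

theorem pa_pow (ρ : G →* AddMonoid.End M) (η : G) (m : ℕ) (z : G → M) : PA ρ η (Polynomial.X ^ m - 1) z = (sa3_F ρ η)^[m] z - z :=
  act_pow (FE ρ η) m z

theorem pa_add (ρ : G →* AddMonoid.End M) (η : G) (f g : Polynomial ℤ) (z : G → M) : PA ρ η (f + g) z = PA ρ η f z + PA ρ η g z := by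
  unfold PA
  rw [map_add]
  rfl

theorem pa_zero (ρ : G →* AddMonoid.End M) (η : G) (z : G → M) : PA ρ η 0 z = 0 := by
  unfold PA
  rw [map_zero]
  rfl

theorem rc_nsmul (S : TP ρ p t U I D L H₀ η R) (k : ℕ) {d : G → M} (hd : RC ρ p t U I (L t) (L 0) R d) :
    RC ρ p t U I (L t) (L 0) R (k • d) := by
  induction k with
  | zero =>
    rw [zero_smul]
    exact u9_zero S
  | succ k ih =>
    rw [succ_nsmul]
    exact rc_add S ih hd

theorem conj0 (S : TP ρ p t U I D L H₀ η R) {j : ℕ} (hj : j ≤ t) : ∀ g ∈ H₀, ∀ s ∈ L j, g⁻¹ * s * g ∈ L j := fun g hg s hs =>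
  sa3_norm' (S.le0 hj) (S.comm hj) g hg s hs

/-- The action of η on the coboundaries. -/
theorem bd_eta (S : TP ρ p t U I D L H₀ η R) {j : ℕ} (hj : j ≤ t) (k : ℕ) : ∀ b ∈ sa3_B ρ (p ^ k) (L j), sa3_F ρ η b ∈ sa3_B ρ (p ^ k) (L j) := by
  rintro b ⟨T, hT, hb⟩
  refine ⟨ρ η T, sa3_nsmul ρ (p ^ k) η T hT, fun s hs => ?_⟩
  rw [sa3_F_apply, hb _ (conj0 S hj η S.hη s hs), sa3_bd]

/-- The action of η on the values at the inertia elements at a relaxed place. -/
theorem rc_val (S : TP ρ p t U I D L H₀ η R) {e : G → M} (he : RC ρ p t U I (L t) (L 0) R e) {u : Vs} (hu : R u) :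
    ∃ φ ∈ D u, (∀ T : M, p • T = 0 → ρ φ T = T) ∧ ∀ s ∈ L 0, s ∈ I u → sa3_F ρ η e s = ρ φ (e s) := by
  obtain ⟨hRv, φ, hφD, hφH, hφη, hφT⟩ := S.hR u hu
  refine ⟨φ, hφD, hφT, fun s hs hI => ?_⟩
  rw [sa3_F_apply]
  have triv : ∀ w ∈ L 0, w ∈ I u → ∀ x : M, p ^ t • x = 0 → ρ w x = x := by
    intro w hw hIt x hx
    refine hRv w hw hIt t x ?_
    rw [smul_sub, ← map_nsmul, hx, map_zero, sub_zero]
  have hs' : φ⁻¹ * s * φ ∈ L 0 := conj0 S (Nat.zero_le t) φ hφH s hs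
  have hI' : φ⁻¹ * s * φ ∈ I u := by
    have := S.hDI u φ⁻¹ ((D u).inv_mem hφD) s hI
    rwa [inv_inv] at this
  have e1 : η⁻¹ * s * η = (φ⁻¹ * η)⁻¹ * (φ⁻¹ * s * φ) * (φ⁻¹ * η) := by group
  have h1 := sa3_self he.coc (φ⁻¹ * η) hφη (φ⁻¹ * s * φ) hs'
  rw [triv _ hs' hI' _ (he.kil _ hφη), sub_self, sub_eq_zero, ← e1] at h1
  have h2 : ρ η (e (η⁻¹ * s * η)) = ρ φ (ρ (φ⁻¹ * η) (e (η⁻¹ * s * η))) := by
    rw [← sa3_mul, mul_inv_cancel_left]
  rw [h2, h1]
  congr 1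
  have huN : φ⁻¹ * s * φ * s⁻¹ ∈ L t := by
    have := S.hcomm φ⁻¹ (H₀.inv_mem hφH) s (S.hHH hs)
    rwa [inv_inv] at this
  have huI : φ⁻¹ * s * φ * s⁻¹ ∈ I u := (I u).mul_mem hI' ((I u).inv_mem hI)
  have h3 := he.coc _ (S.hNH huN) s hs
  rw [inv_mul_cancel_right, he.rel u hu _ huN huI, zero_add, triv _ (S.hNH huN) huI _ (he.kil s hs)] at h3
  exact h3

/-- η preserves the relaxed classes. -/
theorem rc_eta (S : TP ρ p t U I D L H₀ η R) {e : G → M} (he : RC ρ p t U I (L t) (L 0) R e) :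
    RC ρ p t U I (L t) (L 0) R (sa3_F ρ η e) := by
  have hn := conj0 S (Nat.zero_le t) η S.hη
  refine ⟨fun s hs u hu => ?_, ?_, fun s hs => sa3_nsmul ρ (p ^ t) η _ (he.kil _ (hn s hs)), fun u hu => ?_, fun u hu s hs hI => ?_⟩
  · rw [sa3_F_apply, sa3_F_apply, sa3_F_apply]
    have e1 : η⁻¹ * (s * u) * η = (η⁻¹ * s * η) * (η⁻¹ * u * η) := by group
    rw [e1, he.coc _ (hn s hs) _ (hn u hu), map_add, ← sa3_mul, ← sa3_mul]
    congr 3
    group
  · obtain ⟨O, hO, h⟩ := he.cont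
    obtain ⟨O', hO', h'⟩ := S.hUc O hO η⁻¹
    refine ⟨O', hO', fun s hs hsO => ?_⟩
    have h1 := h' s hsO
    rw [inv_inv] at h1
    rw [sa3_F_apply, h _ (hn s hs) h1, map_zero]
  · obtain ⟨v', hv1, hv2⟩ := S.hconj η S.hη u
    obtain ⟨P', hP'⟩ := he.loc v' fun h => hu (hv2.1 h)
    refine ⟨ρ η P', fun s hs hI => ?_⟩
    have h1 : η⁻¹ * s * η ∈ I v' := by
      rw [hv1]
      have e1 : η * (η⁻¹ * s * η) * η⁻¹ = s := by group
      rw [e1]
      exact hI
    rw [sa3_F_apply, hP' _ (hn s hs) h1, sa3_bd]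
  · obtain ⟨φ, -, -, h⟩ := rc_val S he hu
    rw [h s (S.hNH hs) hI, he.rel u hu s hs hI, map_zero]

/-- m^a kills, up to coboundaries, the relaxed classes with values killed by p^a. -/
theorem rc_m (S : TP ρ p t U I D L H₀ η R) (T : TX p t I L R ι v τ ex) (a : ℕ) :
    ∀ f ∈ (Ideal.span {((p : ℕ) : Polynomial ℤ), Polynomial.X - 1}) ^ a, ∀ e : G → M, RC ρ p t U I (L t) (L 0) R e →
      (∀ w, p ^ a • e (τ w) = 0) → PA ρ η f e ∈ sa3_B ρ (p ^ t) (L 0) := by
  have hstab : ∀ (f : Polynomial ℤ), ∀ b ∈ sa3_B ρ (p ^ t) (L 0),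
      PA ρ η f b ∈ sa3_B ρ (p ^ t) (L 0) :=
    fun f => pa_stab _ _ _ (bd_eta S (Nat.zero_le t) t) f
  induction a with
  | zero =>
    intro f _ e he h
    refine hstab f e ?_
    obtain ⟨T₀, h1, h2⟩ := rc_zero S T e he fun w => by
      have := h w
      rwa [pow_zero, one_smul] at this
    exact ⟨T₀, h1, h2⟩
  | succ a ih =>
    obtain ⟨J, hJ⟩ : ∃ J : Ideal (Polynomial ℤ), ∀ f, f ∈ J ↔ ∀ e : G → M, RC ρ p t U I (L t) (L 0) R e →
      (∀ w, p ^ (a + 1) • e (τ w) = 0) →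
        PA ρ η f e ∈ sa3_B ρ (p ^ t) (L 0) := ⟨
      { carrier := {f | ∀ e : G → M, RC ρ p t U I (L t) (L 0) R e → (∀ w, p ^ (a + 1) • e (τ w) = 0) →
          PA ρ η f e ∈ sa3_B ρ (p ^ t) (L 0)}
        add_mem' := fun {f g} hf hg e he h => by
          rw [pa_add]
          exact (sa3_B ρ (p ^ t) (L 0)).add_mem (hf e he h) (hg e he h)
        zero_mem' := fun e _ _ => by
          rw [pa_zero]
          exact (sa3_B ρ (p ^ t) (L 0)).zero_mem
        smul_mem' := fun c f hf e he h => by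
          show PA ρ η (c * f) e ∈ _
          rw [pa_mul]
          exact hstab c _ (hf e he h) }, fun f => Iff.rfl⟩
    have h1 : (Ideal.span {((p : ℕ) : Polynomial ℤ), Polynomial.X - 1}) ^ (a + 1) ≤ J := by
      rw [pow_succ]
      refine Ideal.mul_le.2 fun f hf g hg => ?_
      -- the generators
      have h3 : ∀ g ∈ ({((p : ℕ) : Polynomial ℤ), Polynomial.X - 1} : Set (Polynomial ℤ)), f * g ∈ J := by
        intro g hg
        rw [hJ]
        intro e he h
        rw [pa_mul]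
        rcases hg with rfl | hg
        · rw [pa_p]
          refine ih f hf _ ?_ fun w => ?_
          · exact rc_nsmul S p he
          · rw [Pi.smul_apply, ← mul_smul, ← pow_succ]
            exact h w
        · rw [Set.mem_singleton_iff] at hg
          rw [hg, pa_X]
          refine ih f hf _ (rc_sub S (rc_eta S he) he) fun w => ?_
          obtain ⟨φ, -, hφ, h4⟩ := rc_val S he (T.rel w)
          rw [Pi.sub_apply, h4 _ (T.mem w) (T.ine w), smul_sub, ← map_nsmul, hφ _ (by rw [← mul_smul, ← pow_succ']; exact h w), sub_self]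
      refine Submodule.span_induction (p := fun g _ => f * g ∈ J) (fun g hg => h3 g hg) ?_ ?_ ?_ hg
      · rw [mul_zero]
        exact J.zero_mem
      · intro x y _ _ hx hy
        rw [mul_add]
        exact J.add_mem hx hy
      · intro c x _ hx
        rw [smul_eq_mul, mul_left_comm]
        exact J.mul_mem_left _ hx
    exact fun f hf => (hJ f).1 (h1 hf)

end H13P
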