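import Mathlib
import Pool.Agent.Lib.H13P.V5

/-! # H13P, V6: one layer: an invariant class over L (j + 1) comes from a relaxed class over L 0 -/

namespace H13P

open H55P H13T
open H13V (RC tk pg)

variable {G M Vs : Type} [Group G] [AddCommGroup M] {ρ : G →* AddMonoid.End M} {p t : ℕ} {U : Set (Subgroup G)} {I D : Vs → Subgroup G}
  {L : ℕ → Subgroup G} {H₀ : Subgroup G} {η : G} {R : Vs → Prop} {ι : Type} {v : ι → Vs} {τ : ι → G} {ex : ι → ℕ}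

/-- Every class over L j comes from a relaxed class over L 0. -/
def Pj (ρ : G →* AddMonoid.End M) (p t : ℕ) (U : Set (Subgroup G)) (I : Vs → Subgroup G) (L : ℕ → Subgroup G) (R : Vs → Prop) (j : ℕ) : Prop :=
  ∀ (k : ℕ) (c : G → M), IsC ρ (L j) c → (∀ s ∈ L j, p ^ k • c s = 0) → Cont U (L j) c → (∀ v, Tr ρ (L j) (I v) c) →
    ∃ (e : G → M) (T' : M) (K : ℕ), RC ρ p t U I (L t) (L 0) R e ∧ (∀ v, R v → ∀ s ∈ L j, s ∈ I v → e s = 0) ∧ p ^ K • T' = 0 ∧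
      ∀ s ∈ L j, c s = e s + (ρ s T' - T')

theorem pj_zero (S : TP ρ p t U I D L H₀ η R) : Pj ρ p t U I L R 0 := by
  intro k c hc hk hco hl
  obtain ⟨T, hT, h1⟩ := pow_sel ρ S.hUi S.hdiv S.hfix S.sel k c hc hco hk hl
  exact ⟨0, T, k, u9_zero S, fun _ _ _ _ _ => rfl, hT, fun s hs => by rw [Pi.zero_apply, zero_add, h1 s hs]⟩

/-- A cocycle on L j, zero on the inertia of L t and at the generator τ w ^ p ^ (ex w - (t - j)) of the inertia of L j at all w, is zero on the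
inertia of L j at all relaxed places. -/
theorem lay_zero (S : TP ρ p t U I D L H₀ η R) (T : TX p t I L R ι v τ ex) {j : ℕ} (hj : j ≤ t) {k : ℕ} {d : G → M} (hd : IsC ρ (L j) d)
    (hk : ∀ s ∈ L j, p ^ k • d s = 0) (hz : ∀ u, R u → ∀ s ∈ L t, s ∈ I u → d s = 0)
    (hτ : ∀ w, d (τ w ^ p ^ (ex w - (t - j))) = 0) (u : Vs) (hu : R u) (s : G) (hs : s ∈ L j) (hi : s ∈ I u) : d s = 0 := by
  obtain ⟨w, h, hh, hcov⟩ := covt S T u hu
  have hhj : h ∈ L j := S.mono hj le_rfl hh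
  have hj0 : L j ≤ L 0 := S.mono (Nat.zero_le j) hj
  have h1 : h * s * h⁻¹ ∈ L j := (L j).mul_mem ((L j).mul_mem hhj hs) ((L j).inv_mem hhj)
  obtain ⟨i, n, hn, hnI, hi'⟩ := genj S T hj w _ h1 ((hcov s).1 hi)
  obtain ⟨σ, hσ⟩ : ∃ σ, σ = τ w ^ p ^ (ex w - (t - j)) := ⟨_, rfl⟩
  have hσL : σ ∈ L j := by
    rw [hσ, ordj S T hj]
  have hone : d 1 = 0 := by
    have h := hd 1 (one_mem _) 1 (one_mem _)
    rw [mul_one, sa3_one] at h
    exact left_eq_add.1 h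
  have hpow : ∀ i : ℕ, d (σ ^ i) = 0 := by
    intro i
    induction i with
    | zero => rw [pow_zero, hone]
    | succ i ih =>
      rw [pow_succ, hd _ ((L j).pow_mem hσL i) _ hσL, ih, hσ, hτ w, map_zero, add_zero]
  have h2 : d (h * s * h⁻¹) = 0 := by
    rw [hi', ← hσ, hd _ ((L j).pow_mem hσL i) _ (S.mono hj le_rfl hn), hpow, hz (v w) (T.rel w) n hn hnI, map_zero, add_zero]
  have h3 := sa3_self hd h⁻¹ ((L j).inv_mem hhj) s hs
  rw [inv_inv, h2, map_zero, u8_fix S hu (hj0 hs) hi (hk _ ((L j).inv_mem hhj)), sub_self, zero_sub, neg_eq_zero] at h3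
  exact h3

theorem rc_lay (S : TP ρ p t U I D L H₀ η R) (T : TX p t I L R ι v τ ex) {j : ℕ} (hj : j ≤ t) {e : G → M}
    (he : RC ρ p t U I (L t) (L 0) R e) (hz : ∀ w, p ^ (ex w - (t - j)) • e (τ w) = 0) (u : Vs) (hu : R u) (s : G) (hs : s ∈ L j)
    (hi : s ∈ I u) : e s = 0 := by
  have hj0 : L j ≤ L 0 := S.mono (Nat.zero_le j) hj
  refine lay_zero S T hj (fun a ha b hb => he.coc a (hj0 ha) b (hj0 hb)) (fun a ha => he.kil a (hj0 ha))
    (fun u hu s hs hi => he.rel u hu s hs hi) (fun w => ?_) u hu s hs hi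
  rw [u8_pow S T he, hz w]

theorem rc_val_lay (S : TP ρ p t U I D L H₀ η R) (T : TX p t I L R ι v τ ex) {j : ℕ} (hj : j ≤ t) {e : G → M}
    (he : RC ρ p t U I (L t) (L 0) R e) (h0 : ∀ v, R v → ∀ s ∈ L j, s ∈ I v → e s = 0) (w : ι) : p ^ j • e (τ w) = 0 := by
  have h1 : τ w ^ p ^ (ex w - (t - j)) ∈ L j := (ordj S T hj w _).2 dvd_rfl
  have h2 := h0 (v w) (T.rel w) _ h1 ((I (v w)).pow_mem (T.ine w) _)
  rw [u8_pow S T he] at h2
  have h3 : j = (j - (ex w - (t - j))) + (ex w - (t - j)) := by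
    have := T.le w
    omega
  rw [h3, pow_add, mul_smul, h2, smul_zero]

theorem w1 (S : TP ρ p t U I D L H₀ η R) (T : TX p t I L R ι v τ ex)
    (hE : ∀ f : ι → M, (∀ w, p ^ ex w • f w = 0) → ∃ e : G → M, RC ρ p t U I (L t) (L 0) R e ∧ ∀ w, e (τ w) = f w)
    {j : ℕ} (hj : j < t) (hP : Pj ρ p t U I L R j) (k : ℕ) (c : G → M) (hc : IsC ρ (L (j + 1)) c)
    (hk : ∀ s ∈ L (j + 1), p ^ k • c s = 0) (hco : Cont U (L (j + 1)) c) (hl : ∀ v, Tr ρ (L (j + 1)) (I v) c)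
    (hb : ∃ T : M, p ^ k • T = 0 ∧ ∀ s ∈ L (j + 1), ρ (η ^ p ^ (j + 1)) (c ((η ^ p ^ (j + 1))⁻¹ * s * η ^ p ^ (j + 1))) - c s = ρ s T - T) :
    ∃ (e : G → M) (T' : M) (K : ℕ), RC ρ p t U I (L t) (L 0) R e ∧ (∀ v, R v → ∀ s ∈ L (j + 1), s ∈ I v → e s = 0) ∧ p ^ K • T' = 0 ∧
      ∀ s ∈ L (j + 1), c s = e s + (ρ s T' - T') := by
  obtain ⟨d, d1, dco, dk, dc, dl, dp, dz⟩ := tp_rel S hj k c hc hk hco hl hb
  have hj0 : L j ≤ L 0 := S.mono (Nat.zero_le j) hj.le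
  have hj1 : L (j + 1) ≤ L j := S.mono (Nat.le_succ j) hj
  have hjt : L t ≤ L (j + 1) := S.mono hj le_rfl
  have hSw : ∀ w, ∃ Sw : M, p ^ (ex w - (t - j)) • Sw = d (τ w ^ p ^ (ex w - (t - j))) ∧ p ^ (ex w - (t - (j + 1))) • Sw = 0 := by
    intro w
    have hσ : τ w ^ p ^ (ex w - (t - j)) ∈ L j := (ordj S T hj.le w _).2 dvd_rfl
    have hσI : τ w ^ p ^ (ex w - (t - j)) ∈ I (v w) := (I (v w)).pow_mem (T.ine w) _
    rcases Nat.lt_or_ge (ex w) (t - j) with h | h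
    · refine ⟨0, ?_, smul_zero _⟩
      have h1 : τ w ^ p ^ (ex w - (t - j)) ∈ L (j + 1) := by
        rw [ordj S T hj]
        exact pow_dvd_pow p (by omega)
      rw [smul_zero, dz (v w) (T.rel w) _ h1 hσI]
    · obtain ⟨Sw, hSw⟩ := div_pow S.hdiv (ex w - (t - j)) (d (τ w ^ p ^ (ex w - (t - j))))
      refine ⟨Sw, hSw, ?_⟩
      have h1 : ex w - (t - (j + 1)) = (ex w - (t - j)) + 1 := by omega
      rw [h1, pow_succ', mul_smul, hSw]
      exact dp (v w) (T.rel w) _ hσ hσI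
  choose Sw hS1 hS2 using hSw
  obtain ⟨e, he, hev⟩ := hE Sw fun w => by
    have h1 : ex w = (ex w - (ex w - (t - (j + 1)))) + (ex w - (t - (j + 1))) := by omega
    rw [h1, pow_add, mul_smul, hS2, smul_zero]
  have e0 : ∀ u, R u → ∀ s ∈ L (j + 1), s ∈ I u → e s = 0 := fun u hu s hs hi =>
    rc_lay S T hj he (fun w => by rw [hev, hS2]) u hu s hs hi
  obtain ⟨d', hd'⟩ : ∃ d' : G → M, ∀ s, d' s = d s - e s := ⟨_, fun _ => rfl⟩
  have hd'c : IsC ρ (L j) d' := by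
    intro a ha b hb
    rw [hd', hd', hd', d1 a ha b hb, he.coc a (hj0 ha) b (hj0 hb), map_sub]
    abel
  have hd'k : ∀ s ∈ L j, p ^ (k + t) • d' s = 0 := by
    intro s hs
    rw [hd', smul_sub, pow_add, mul_smul, mul_smul, he.kil s (hj0 hs), smul_zero, sub_zero, smul_comm, dk s hs, smul_zero]
  have hd'co : Cont U (L j) d' := by
    obtain ⟨O, hO, h1⟩ := dco
    obtain ⟨O', hO', h2⟩ := he.cont
    refine ⟨O ⊓ O', S.hUi O hO O' hO', fun s hs h => ?_⟩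
    rw [hd', h1 s hs h.1, h2 s (hj0 hs) h.2, sub_zero]
  have hd'l : ∀ u, Tr ρ (L j) (I u) d' := by
    intro u
    by_cases hu : R u
    · refine ⟨0, fun s hs hi => ?_⟩
      rw [map_zero, sub_zero]
      refine lay_zero S T hj.le hd'c hd'k (fun u hu s hs hi => ?_) (fun w => ?_) u hu s hs hi
      · rw [hd', dz u hu s (hjt hs) hi, he.rel u hu s hs hi, sub_zero]
      · rw [hd', ← hS1 w, u8_pow S T he, hev, sub_self]
    · obtain ⟨P, hP'⟩ := dl u hu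
      obtain ⟨Q, hQ⟩ := he.loc u hu
      refine ⟨P - Q, fun s hs hi => ?_⟩
      rw [hd', hP' s hs hi, hQ s (hj0 hs) hi, map_sub]
      abel
  obtain ⟨e', T', K, he', h0', hT', hc'⟩ := hP (k + t) d' hd'c hd'k hd'co hd'l
  refine ⟨e + e', T', K, rc_add S he he', fun u hu s hs hi => ?_, hT', fun s hs => ?_⟩
  · rw [Pi.add_apply, e0 u hu s hs hi, h0' u hu s (hj1 hs) hi, add_zero]
  · have h1 := hc' s (hj1 hs)
    rw [hd', sub_eq_iff_eq_add] at h1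
    rw [← dc s hs, h1, Pi.add_apply]
    abel

end H13P
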