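import Mathlib
import Pool.Agent.Lib.H13P.V6

/-! # H13P, V7: every class over L t comes from a relaxed class over L 0 -/

namespace H13P

open H55P H13T
open H13V (RC tk pg)

variable {G M Vs : Type} [Group G] [AddCommGroup M] {ρ : G →* AddMonoid.End M} {p t : ℕ} {U : Set (Subgroup G)} {I D : Vs → Subgroup G}
  {L : ℕ → Subgroup G} {H₀ : Subgroup G} {η : G} {R : Vs → Prop} {ι : Type} {v : ι → Vs} {τ : ι → G} {ex : ι → ℕ}

theorem pj_succ (S : TP ρ p t U I D L H₀ η R) (T : TX p t I L R ι v τ ex)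
    (hE : ∀ f : ι → M, (∀ w, p ^ ex w • f w = 0) → ∃ e : G → M, RC ρ p t U I (L t) (L 0) R e ∧ ∀ w, e (τ w) = f w)
    {j : ℕ} (hj : j < t) (hP : Pj ρ p t U I L R j) : Pj ρ p t U I L R (j + 1) := by
  intro k c hc hk hco hl
  have hj0 : L (j + 1) ≤ L 0 := S.mono (Nat.zero_le _) hj
  have hUj := S.hLU (j + 1) hj
  have hZs : ∀ z ∈ sa3_Z ρ (p ^ k) U I (L (j + 1)) hUj S.hUi, sa3_F ρ η z ∈ sa3_Z ρ (p ^ k) U I (L (j + 1)) hUj S.hUi := fun z hz =>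
    sa3_FZ (p ^ k) U I (L (j + 1)) H₀ S.hUc (S.le0 hj) (S.comm hj) η S.hη (fun g hg v => by
      obtain ⟨v', h1, -⟩ := S.hconj g hg v
      exact ⟨v', h1⟩) z hz
  have hBs := bd_eta S (j := j + 1) hj
  have hn := conj0 S (j := j + 1) hj η S.hη
  have hcZ : c ∈ sa3_Z ρ (p ^ k) U I (L (j + 1)) hUj S.hUi := ⟨hc, hco, hk, hl⟩
  obtain ⟨J, hJ⟩ : ∃ J : Ideal (Polynomial ℤ), ∀ f, f ∈ J ↔ PA ρ η f c ∈ sa3_B ρ (p ^ k) (L (j + 1)) := ⟨
    { carrier := {f | PA ρ η f c ∈ sa3_B ρ (p ^ k) (L (j + 1))}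
      add_mem' := fun {f g} hf hg => by
        show PA ρ η (f + g) c ∈ sa3_B ρ (p ^ k) (L (j + 1))
        rw [pa_add]
        exact (sa3_B ρ (p ^ k) (L (j + 1))).add_mem hf hg
      zero_mem' := by
        show PA ρ η 0 c ∈ sa3_B ρ (p ^ k) (L (j + 1))
        rw [pa_zero]
        exact (sa3_B ρ (p ^ k) (L (j + 1))).zero_mem
      smul_mem' := fun a f hf => by
        show PA ρ η (a * f) c ∈ sa3_B ρ (p ^ k) (L (j + 1))
        rw [pa_mul]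
        exact pa_stab ρ η _ (hBs k) a _ hf }, fun f => Iff.rfl⟩
  have hJk : ((p : ℕ) : Polynomial ℤ) ^ k ∈ J := by
    rw [hJ, ← Nat.cast_pow, pa_p]
    exact ⟨0, smul_zero _, fun s hs => by rw [Pi.smul_apply, hk s hs, map_zero, sub_zero]⟩
  have hJx : Polynomial.X ^ p ^ (j + 2) - 1 ∈ J := by
    rw [hJ, pa_pow]
    have h1 : η ^ p ^ (j + 2) ∈ L (j + 1) := S.hLη (j + 1) hj
    refine ⟨c (η ^ p ^ (j + 2)), hk _ h1, fun s hs => ?_⟩
    rw [Pi.sub_apply, sa3_iter]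
    exact sa3_self hc _ h1 s hs
  obtain ⟨K, hK⟩ := m_pow p S.hp k (j + 2) J Polynomial.X hJk hJx
  have hω := om_mem p (Polynomial.X : Polynomial ℤ) (j + 1)
  obtain ⟨m, hm⟩ : ∃ m : Ideal (Polynomial ℤ), m = Ideal.span {((p : ℕ) : Polynomial ℤ), Polynomial.X - 1} := ⟨_, rfl⟩
  have hmJ : m ^ (j + 1) ≤ J := by
    refine v2_ring m J (Polynomial.X ^ p ^ (j + 1) - 1) (j + 1) K (by rw [hm]; exact hK) (by rw [hm]; exact hω) ?_
    intro g hg a ha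
    rw [hJ, pa_mul, pa_pow] at hg
    rw [hJ, pa_mul]
    obtain ⟨c', hc'⟩ : ∃ c', c' = PA ρ η g c := ⟨_, rfl⟩
    have hc'Z : c' ∈ sa3_Z ρ (p ^ k) U I (L (j + 1)) hUj S.hUi := by
      rw [hc']
      exact pa_stab ρ η _ hZs g c hcZ
    rw [← hc'] at hg ⊢
    obtain ⟨z1, z2, z3, z4⟩ := hc'Z
    obtain ⟨T₁, hT₁, hb⟩ := hg
    obtain ⟨e, T', K', he, he0, hT', hce⟩ := w1 S T hE hj hP k c' z1 z3 z2 z4 ⟨T₁, hT₁, fun s hs => by
      have h1 := hb s hs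
      rwa [Pi.sub_apply, sa3_iter] at h1⟩
    obtain ⟨T₂, hT₂, h2⟩ := rc_m S T (j + 1) a (by rw [← hm]; exact ha) e he (fun w => rc_val_lay S T hj he he0 w)
    -- the coboundary
    obtain ⟨b, hbdef⟩ : ∃ b : G → M, ∀ s, b s = ρ s T' - T' := ⟨_, fun _ => rfl⟩
    obtain ⟨T₃, hT₃, h3⟩ := pa_stab ρ η _ (hBs K') a b ⟨T', hT', fun s _ => hbdef s⟩
    -- the difference vanishes on L (j + 1)
    obtain ⟨Z₀, hZ₀⟩ : ∃ Z₀ : AddSubgroup (G → M), ∀ z, z ∈ Z₀ ↔ ∀ s ∈ L (j + 1), z s = 0 := ⟨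
      { carrier := {z | ∀ s ∈ L (j + 1), z s = 0}
        add_mem' := fun {x y} hx hy s hs => by rw [Pi.add_apply, hx s hs, hy s hs, add_zero]
        zero_mem' := fun s _ => rfl
        neg_mem' := fun {x} hx s hs => by rw [Pi.neg_apply, hx s hs, neg_zero] }, fun z => Iff.rfl⟩
    have h4 : PA ρ η a (c' - (e + b)) ∈ Z₀ := by
      refine pa_stab ρ η Z₀ (fun z hz => ?_) a _ ?_
      · rw [hZ₀] at hz ⊢
        intro s hs
        rw [sa3_F_apply, hz _ (hn s hs), map_zero]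
      · rw [hZ₀]
        intro s hs
        rw [Pi.sub_apply, Pi.add_apply, hce s hs, hbdef, sub_self]
    rw [hZ₀] at h4
    have h5 : ∀ s ∈ L (j + 1), PA ρ η a c' s = ρ s (T₂ + T₃) - (T₂ + T₃) := by
      intro s hs
      have h6 := h4 s hs
      rw [map_sub, map_add, Pi.sub_apply, Pi.add_apply, sub_eq_zero, h2 s (hj0 hs), h3 s hs] at h6
      rw [h6, map_add]
      abel
    refine ⟨T₂ + T₃, ?_, h5⟩
    have hPZ : PA ρ η a c' ∈ sa3_Z ρ (p ^ k) U I (L (j + 1)) hUj S.hUi := pa_stab ρ η _ hZs a c' ⟨z1, z2, z3, z4⟩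
    refine fix_pow S (t + K') _ ?_ fun s hs => ?_
    · rw [smul_smul, mul_comm, ← smul_smul]
      have h7 : p ^ (t + K') • (T₂ + T₃) = 0 := by
        rw [smul_add, pow_add, mul_comm, mul_smul, hT₂, smul_zero, mul_comm, mul_smul, hT₃, smul_zero, add_zero]
      rw [h7, smul_zero]
    · have hs' := S.mono hj le_rfl hs
      have h8 := hPZ.2.2.1 s hs'
      rw [h5 s hs', smul_sub, ← map_nsmul, sub_eq_zero] at h8
      exact h8
  have hωJ : Polynomial.X ^ p ^ (j + 1) - 1 ∈ J := by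
    refine hmJ ?_
    rw [← hm] at hω
    exact Ideal.pow_le_pow_right (Nat.le_succ _) hω
  rw [hJ, pa_pow] at hωJ
  obtain ⟨T₁, hT₁, hb⟩ := hωJ
  exact w1 S T hE hj hP k c hc hk hco hl ⟨T₁, hT₁, fun s hs => by
    have h1 := hb s hs
    rwa [Pi.sub_apply, sa3_iter] at h1⟩

theorem pj_all (S : TP ρ p t U I D L H₀ η R) (T : TX p t I L R ι v τ ex)
    (hE : ∀ f : ι → M, (∀ w, p ^ ex w • f w = 0) → ∃ e : G → M, RC ρ p t U I (L t) (L 0) R e ∧ ∀ w, e (τ w) = f w) :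
    ∀ j ≤ t, Pj ρ p t U I L R j := by
  intro j
  induction j with
  | zero => exact fun _ => pj_zero S
  | succ j ih => exact fun hj => pj_succ S T hE hj (ih (by omega))

end H13P
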