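import Mathlib
import Pool.Agent.Lib.H13P.V7

/-! # H13P, V8: the points fixed by L t are p-divisible; relaxed classes with trivial restriction -/

namespace H13P

open H55P H13T
open H13V (RC tk pg)

variable {G M Vs : Type} [Group G] [AddCommGroup M] {ρ : G →* AddMonoid.End M} {p t : ℕ} {U : Set (Subgroup G)} {I D : Vs → Subgroup G}
  {L : ℕ → Subgroup G} {H₀ : Subgroup G} {η : G} {R : Vs → Prop} {ι : Type} {v : ι → Vs} {τ : ι → G} {ex : ι → ℕ}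

theorem tp_up (S : TP ρ p t U I D L H₀ η R) (T : TX p t I L R ι v τ ex)
    (hE : ∀ f : ι → M, (∀ w, p ^ ex w • f w = 0) → ∃ e : G → M, RC ρ p t U I (L t) (L 0) R e ∧ ∀ w, e (τ w) = f w)
    (k : ℕ) (c : G → M) (hc : IsC ρ (L t) c) (hk : ∀ s ∈ L t, p ^ k • c s = 0)
    (hco : Cont U (L t) c) (hl : ∀ v, Tr ρ (L t) (I v) c) :
    ∃ (e : G → M) (T' : M) (K : ℕ), RC ρ p t U I (L t) (L 0) R e ∧ p ^ K • T' = 0 ∧ ∀ s ∈ L t, c s = e s + (ρ s T' - T') := by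
  obtain ⟨e, T', K, h1, -, h2, h3⟩ := pj_all S T hE t le_rfl k c hc hk hco hl
  exact ⟨e, T', K, h1, h2, h3⟩

theorem tp_div (S : TP ρ p t U I D L H₀ η R) (T : TX p t I L R ι v τ ex)
    (hE : ∀ f : ι → M, (∀ w, p ^ ex w • f w = 0) → ∃ e : G → M, RC ρ p t U I (L t) (L 0) R e ∧ ∀ w, e (τ w) = f w)
    (P : M) (hP : ∀ s ∈ L t, ρ s P = P) : ∃ Q : M, (∀ s ∈ L t, ρ s Q = Q) ∧ p • Q = P := by
  obtain ⟨Q₀, hQ₀⟩ := div_pow S.hdiv (t + 1) P
  obtain ⟨e, T', K, hRC, hT', hc⟩ := tp_up S T hE (t + 1) (fun s => ρ s Q₀ - Q₀)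
    (by
      intro s hs t ht
      show ρ (s * t) Q₀ - Q₀ = (ρ s Q₀ - Q₀) + ρ s (ρ t Q₀ - Q₀)
      have h1 : ρ (s * t) Q₀ = ρ s (ρ t Q₀) := by
        rw [map_mul]
        rfl
      rw [h1, map_sub]
      abel)
    (by
      intro s hs
      show p ^ (t + 1) • (ρ s Q₀ - Q₀) = 0
      rw [smul_sub, ← map_nsmul, hQ₀, hP s hs, sub_self])
    (by
      obtain ⟨O, hO, h1⟩ := S.hfix Q₀
      exact ⟨O, hO, fun s _ hsO => by
        show ρ s Q₀ - Q₀ = 0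
        rw [h1 s hsO, sub_self]⟩)
    (fun v => ⟨Q₀, fun s _ _ => rfl⟩)
  have hQ : ∀ s ∈ L t, ρ s (p ^ t • Q₀ - p ^ t • T') = p ^ t • Q₀ - p ^ t • T' := by
    intro s hs
    have h1 : p ^ t • e s = 0 := hRC.kil s (S.hNH hs)
    have h2 : ρ s Q₀ - Q₀ = e s + (ρ s T' - T') := hc s hs
    have h3 : ρ s (p ^ t • Q₀ - p ^ t • T') - (p ^ t • Q₀ - p ^ t • T') = p ^ t • (ρ s Q₀ - Q₀) - p ^ t • (ρ s T' - T') := by
      rw [map_sub, map_nsmul, map_nsmul, smul_sub, smul_sub]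
      abel
    rw [h2, smul_add, h1, zero_add, sub_self] at h3
    exact sub_eq_zero.1 h3
  refine ⟨p ^ t • Q₀ - p ^ t • T', hQ, ?_⟩
  have h4 : p • (p ^ t • Q₀ - p ^ t • T') = P - p ^ (t + 1) • T' := by
    rw [smul_sub, ← mul_smul, ← mul_smul, ← pow_succ', hQ₀]
  have h5 : p ^ (t + 1) • T' = 0 := by
    apply fix_pow S K
    · rw [smul_comm, hT', smul_zero]
    · intro s hs
      have h6 : p ^ (t + 1) • T' = P - p • (p ^ t • Q₀ - p ^ t • T') := by rw [h4]; abel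
      rw [h6, map_sub, hP s hs, map_nsmul, hQ s hs]
  rw [h4, h5, sub_zero]

/-- Division by p^k. -/
theorem tp_divk (S : TP ρ p t U I D L H₀ η R) (T : TX p t I L R ι v τ ex)
    (hE : ∀ f : ι → M, (∀ w, p ^ ex w • f w = 0) → ∃ e : G → M, RC ρ p t U I (L t) (L 0) R e ∧ ∀ w, e (τ w) = f w)
    (k : ℕ) (P : M) (hP : ∀ s ∈ L t, ρ s P = P) :
    ∃ Q : M, (∀ s ∈ L t, ρ s Q = Q) ∧ p ^ k • Q = P := by
  induction k with
  | zero => exact ⟨P, hP, by rw [pow_zero, one_smul]⟩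
  | succ k ih =>
    obtain ⟨Q, hQ, hQP⟩ := ih
    obtain ⟨Q', hQ', hQQ⟩ := tp_div S T hE Q hQ
    exact ⟨Q', hQ', by rw [pow_succ, mul_smul, hQQ, hQP]⟩


theorem rc_inj (S : TP ρ p t U I D L H₀ η R) (T : TX p t I L R ι v τ ex)
    (hE : ∀ f : ι → M, (∀ w, p ^ ex w • f w = 0) → ∃ e : G → M, RC ρ p t U I (L t) (L 0) R e ∧ ∀ w, e (τ w) = f w)
    (d : G → M) (hd : RC ρ p t U I (L t) (L 0) R d)
    (P : M) (hP : ∀ s ∈ L t, d s = ρ s P - P) (w : ι) : d (τ w) = 0 := by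
  have hpP : ∀ s ∈ L t, ρ s (p ^ t • P) = p ^ t • P := by
    intro s hs
    have h1 := hd.kil s (S.hNH hs)
    rw [hP s hs, smul_sub, ← map_nsmul] at h1
    exact sub_eq_zero.1 h1
  obtain ⟨Q, hQ, hQP⟩ := tp_divk S T hE t (p ^ t • P) hpP
  have hT : p ^ t • (P - Q) = 0 := by rw [smul_sub, hQP, sub_self]
  obtain ⟨f, hf⟩ : ∃ f : G → M, ∀ s, f s = d s - (ρ s (P - Q) - (P - Q)) := ⟨_, fun _ => rfl⟩
  have hfc : IsC ρ (L 0) f := by
    intro s hs t ht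
    rw [hf, hf, hf, hd.coc s hs t ht, sa3_mul]
    simp only [map_sub]
    abel
  have hfN : ∀ s ∈ L t, f s = 0 := by
    intro s hs
    rw [hf, hP s hs, map_sub, hQ s hs]
    abel
  have hfp : ∀ s ∈ L 0, p ^ t • f s = 0 := by
    intro s hs
    rw [hf, smul_sub, hd.kil s hs, smul_sub, hT, sa3_nsmul ρ (p ^ t) s _ hT]
    simp
  have hf0 : ∀ g ∈ L 0, f g = 0 := by
    intro g hg
    refine fix_pow S t _ (hfp g hg) fun n hn => ?_
    have h1 : g⁻¹ * n * g ∈ L t :=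
      sa3_norm' S.hNH (fun a ha b hb => S.hcomm a (S.hHH ha) b (S.hHH hb)) g hg n hn
    have h2 := hfc n (S.hNH hn) g hg
    have h3 := hfc g hg _ (S.hNH h1)
    rw [hfN n hn, zero_add] at h2
    rw [hfN _ h1, map_zero, add_zero] at h3
    have h4 : g * (g⁻¹ * n * g) = n * g := by group
    rw [h4] at h3
    rw [← h2, h3]
  have h5 := hf0 (τ w) (T.mem w)
  rw [hf, u8_fix S (T.rel w) (T.mem w) (T.ine w) hT, sub_self, sub_zero] at h5
  exact h5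


end H13P
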