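import Mathlib
import Pool.Agent.Lib.H13P.V8
import Pool.Agent.Lib.H13T.U10

/-! # H13P, V10: THE STRUCTURE of the p-primary part of Sha over L t -/

namespace H13P

open H55P SSG H13T
open H13V (RC tk pg mem_tk mem_pg)

variable {G M Vs : Type} [Group G] [AddCommGroup M] {Q : LS G M} {p t : ℕ} {I D : Vs → Subgroup G}
  {L : ℕ → Subgroup G} {H₀ : Subgroup G} {η : G} {R : Vs → Prop} {ι : Type} {v : ι → Vs} {τ : ι → G} {ex : ι → ℕ}

theorem hE_of (S : TP Q.act p t Q.U I D L H₀ η R) [Finite ι]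
    (hE : ∀ (w : ι) (T : M), p ^ ex w • T = 0 → ∃ d : G → M, RC Q.act p t Q.U I (L t) (L 0) R d ∧ (∀ J ∈ Q.D, Tr Q.act (L t) J d) ∧ d (τ w) = T ∧
      ∀ w', w' ≠ w → d (τ w') = 0) (f : ι → M) (hf : ∀ w, p ^ ex w • f w = 0) :
    ∃ e : G → M, RC Q.act p t Q.U I (L t) (L 0) R e ∧ ∀ w, e (τ w) = f w := by
  obtain ⟨d, h1, -, h2⟩ := rc_fun S Q.D hE f hf
  exact ⟨d, h1, h2⟩

theorem u10_isZ (S : TP Q.act p t Q.U I D L H₀ η R) {d : G → M} (hd : RC Q.act p t Q.U I (L t) (L 0) R d) (hJ : ∀ J ∈ Q.D, Tr Q.act (L t) J d) :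
    (Q.res (L t)).IsZ (fun n : L t => d n) := by
  refine ⟨fun g h => ?_, ?_, ?_⟩
  · exact hd.coc g (S.hNH g.2) h (S.hNH h.2)
  · obtain ⟨O, hO, h1⟩ := hd.cont
    exact ⟨_, ⟨O, hO, rfl⟩, fun g hg => h1 g (S.hNH g.2) (Subgroup.mem_subgroupOf.1 hg)⟩
  · rintro _ ⟨J, hJD, rfl⟩
    obtain ⟨P, hP⟩ := hJ J hJD
    exact ⟨P, fun g hg => hP g g.2 (Subgroup.mem_subgroupOf.1 hg)⟩

theorem u10_surj (S : TP Q.act p t Q.U I D L H₀ η R) [Finite ι] (T : TX p t I L R ι v τ ex) (hI : ∀ v, (∃ J ∈ Q.D, I v ≤ J) ∨ I v = ⊥)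
    (hE : ∀ (w : ι) (T : M), p ^ ex w • T = 0 → ∃ d : G → M, RC Q.act p t Q.U I (L t) (L 0) R d ∧ (∀ J ∈ Q.D, Tr Q.act (L t) J d) ∧ d (τ w) = T ∧
      ∀ w', w' ≠ w → d (τ w') = 0) (x : (Q.res (L t)).Sha) (hx : ∃ k : ℕ, p ^ k • x = 0) :
    ∃ (d : G → M) (hd : RC Q.act p t Q.U I (L t) (L 0) R d) (hJ : ∀ J ∈ Q.D, Tr Q.act (L t) J d), x = (Q.res (L t)).cl ⟨fun n : L t => d n, u10_isZ S hd hJ⟩ := by
  obtain ⟨k, hk⟩ := hx
  obtain ⟨c, rfl⟩ := (Q.res (L t)).cl_surj x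
  rw [← map_nsmul, (Q.res (L t)).cl_zero] at hk
  obtain ⟨P, hP⟩ := hk
  obtain ⟨P', hP'⟩ := div_pow S.hdiv k P
  have hZ : (Q.res (L t)).IsZ c.1 := c.2
  have hP2 : ∀ g : L t, p ^ k • c.1 g = Q.act g P - P := hP
  have hcoc : IsC Q.act (L t) (u10_c (L t) Q c.1 P') := by
    intro s hs r hr
    rw [u10_c_mem c.1 P' hs, u10_c_mem c.1 P' hr, u10_c_mem c.1 P' ((L t).mul_mem hs hr)]
    have h1 : c.1 ⟨s * r, (L t).mul_mem hs hr⟩ = c.1 ⟨s, hs⟩ + Q.act s (c.1 ⟨r, hr⟩) := hZ.mul ⟨s, hs⟩ ⟨r, hr⟩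
    rw [h1, sa3_mul, map_sub, map_sub]
    abel
  have hkil : ∀ s ∈ L t, p ^ k • u10_c (L t) Q c.1 P' s = 0 := by
    intro s hs
    rw [u10_c_mem c.1 P' hs, smul_sub, smul_sub, hP2 ⟨s, hs⟩, ← map_nsmul, hP']
    exact sub_self _
  have hcont : Cont Q.U (L t) (u10_c (L t) Q c.1 P') := by
    obtain ⟨_, ⟨O, hO, rfl⟩, h1⟩ := hZ.cont
    obtain ⟨O', hO', h2⟩ := S.hfix P'
    refine ⟨O ⊓ O', S.hUi O hO O' hO', fun s hs hsO => ?_⟩
    rw [u10_c_mem c.1 P' hs, h2 s hsO.2, h1 ⟨s, hs⟩ (Subgroup.mem_subgroupOf.2 hsO.1), sub_self, sub_zero]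
  have hloc : ∀ v, Tr Q.act (L t) (I v) (u10_c (L t) Q c.1 P') := by
    intro v
    rcases hI v with ⟨J, hJ, hIJ⟩ | hb
    · obtain ⟨Q', hQ⟩ := hZ.loc (J.subgroupOf (L t)) ⟨J, hJ, rfl⟩
      refine ⟨Q' - P', fun s hs hsI => ?_⟩
      have h1 : c.1 ⟨s, hs⟩ = Q.act s Q' - Q' := hQ ⟨s, hs⟩ (Subgroup.mem_subgroupOf.2 (hIJ hsI))
      rw [u10_c_mem c.1 P' hs, h1, map_sub]
      abel
    · refine ⟨0, fun s hs hsI => ?_⟩
      rw [hb, Subgroup.mem_bot] at hsI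
      have h1 := hcoc 1 (L t).one_mem 1 (L t).one_mem
      rw [mul_one, sa3_one] at h1
      rw [hsI, map_zero, sub_zero]
      exact left_eq_add.1 h1
  obtain ⟨e, T', -, he, -, h1⟩ := tp_up S T (hE_of S hE) k (u10_c (L t) Q c.1 P') hcoc hkil hcont hloc
  obtain ⟨d, hd, hJ, h2⟩ := rc_fun S Q.D hE (fun w => e (τ w)) (fun w => rc_ex S T he w)
  obtain ⟨T₀, -, h3⟩ := rc_zero S T (e - d) (rc_sub S he hd) (fun w => by rw [Pi.sub_apply, h2 w, sub_self])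
  refine ⟨d, hd, hJ, ?_⟩
  rw [← sub_eq_zero, ← map_sub, (Q.res (L t)).cl_zero]
  refine ⟨P' + T' + T₀, fun g => ?_⟩
  show c.1 g - d g = Q.act g (P' + T' + T₀) - (P' + T' + T₀)
  have h4 := h1 g g.2
  have h5 := h3 g (S.hNH g.2)
  rw [u10_c_mem c.1 P' g.2] at h4
  rw [Pi.sub_apply] at h5
  have h6 : c.1 ⟨(g : G), g.2⟩ = c.1 g := rfl
  rw [h6] at h4
  have h7 : c.1 g = e g + (Q.act g T' - T') + (Q.act g P' - P') := sub_eq_iff_eq_add.1 h4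
  have h8 : e g = (Q.act g T₀ - T₀) + d g := sub_eq_iff_eq_add.1 h5
  rw [h7, h8, map_add, map_add]
  abel

theorem u11_kil (S : TP Q.act p t Q.U I D L H₀ η R) {d : G → M} (hd : RC Q.act p t Q.U I (L t) (L 0) R d) (hJ : ∀ J ∈ Q.D, Tr Q.act (L t) J d) :
    p ^ t • (Q.res (L t)).cl ⟨fun n : L t => d n, u10_isZ S hd hJ⟩ = 0 := by
  rw [← map_nsmul]
  refine ((Q.res (L t)).cl_zero _).2 ⟨0, fun g => ?_⟩
  rw [map_zero, sub_zero]
  exact hd.kil g.1 (S.hNH g.2)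

/-- THE STRUCTURE THEOREM: the p-primary part is the product of the groups of points killed by p^(ex w). -/
theorem tp_iso (S : TP Q.act p t Q.U I D L H₀ η R) [Finite ι] (T : TX p t I L R ι v τ ex) (hI : ∀ v, (∃ J ∈ Q.D, I v ≤ J) ∨ I v = ⊥)
    (hE : ∀ (w : ι) (T : M), p ^ ex w • T = 0 → ∃ d : G → M, RC Q.act p t Q.U I (L t) (L 0) R d ∧ (∀ J ∈ Q.D, Tr Q.act (L t) J d) ∧ d (τ w) = T ∧
      ∀ w', w' ≠ w → d (τ w') = 0) :
    Nonempty (pg (Q.res (L t)).Sha p ≃+ ((w : ι) → tk M p (ex w))) := by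
  have hex : ∀ x : pg (Q.res (L t)).Sha p, ∃ (d : G → M) (hd : RC Q.act p t Q.U I (L t) (L 0) R d) (hJ : ∀ J ∈ Q.D, Tr Q.act (L t) J d),
      x.1 = (Q.res (L t)).cl ⟨fun n : L t => d n, u10_isZ S hd hJ⟩ := fun x => u10_surj S T hI hE x.1 x.2
  choose d hd hJ hx using hex
  -- two relaxed classes with the same class over N have the same values
  have huniq : ∀ (a b : G → M) (ha : RC Q.act p t Q.U I (L t) (L 0) R a) (hb : RC Q.act p t Q.U I (L t) (L 0) R b) (P : M),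
      (∀ g ∈ L t, a g = b g + (Q.act g P - P)) → ∀ w, a (τ w) = b (τ w) := by
    intro a b ha hb P hP w
    have h2 := rc_inj S T (hE_of S hE) (a - b) (rc_sub S ha hb) P (fun s hs => by
      rw [Pi.sub_apply, hP s hs, add_sub_cancel_left]) w
    rw [Pi.sub_apply, sub_eq_zero] at h2
    exact h2
  obtain ⟨f, hf⟩ : ∃ f : pg (Q.res (L t)).Sha p → ((w : ι) → tk M p (ex w)), ∀ x w, (f x w : M) = d x (τ w) :=
    ⟨fun x w => ⟨d x (τ w), rc_ex S T (hd x) w⟩, fun x w => rfl⟩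
  have hadd : ∀ x y, f (x + y) = f x + f y := by
    intro x y
    funext w
    apply Subtype.ext
    show (f (x + y) w : M) = (f x w : M) + (f y w : M)
    rw [hf, hf, hf]
    have h1 : (Q.res (L t)).cl ⟨fun n : L t => d (x + y) n, u10_isZ S (hd (x + y)) (hJ (x + y))⟩ =
        (Q.res (L t)).cl ⟨fun n : L t => d x n, u10_isZ S (hd x) (hJ x)⟩ + (Q.res (L t)).cl ⟨fun n : L t => d y n, u10_isZ S (hd y) (hJ y)⟩ := by
      rw [← hx, ← hx, ← hx]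
      rfl
    rw [← map_add] at h1
    obtain ⟨P, hP⟩ := ((Q.res (L t)).cl_eq _ _).1 h1
    exact huniq (d (x + y)) (d x + d y) (hd _) (rc_add S (hd x) (hd y)) P (fun g hg => hP ⟨g, hg⟩) w
  have hbij : Function.Bijective f := by
    constructor
    · intro x y hxy
      apply Subtype.ext
      rw [hx x, hx y]
      obtain ⟨T₀, -, hT₀⟩ := rc_zero S T (d x - d y) (rc_sub S (hd x) (hd y)) (fun w => by
        rw [Pi.sub_apply, ← hf, ← hf, hxy, sub_self])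
      refine ((Q.res (L t)).cl_eq _ _).2 ⟨T₀, fun g => ?_⟩
      have h4 := hT₀ g.1 (S.hNH g.2)
      rw [Pi.sub_apply, sub_eq_iff_eq_add] at h4
      rw [Q.res_act, add_comm]
      exact h4
    · intro g
      obtain ⟨e, he, hJe, h2⟩ := rc_fun S Q.D hE (fun w => (g w : M)) (fun w => (g w).2)
      let x : pg (Q.res (L t)).Sha p := ⟨(Q.res (L t)).cl ⟨fun n : L t => e n, u10_isZ S he hJe⟩, t, u11_kil S he hJe⟩
      refine ⟨x, ?_⟩
      funext w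
      apply Subtype.ext
      rw [hf, ← h2 w]
      have h3 : (Q.res (L t)).cl ⟨fun n : L t => d x n, u10_isZ S (hd x) (hJ x)⟩ = (Q.res (L t)).cl ⟨fun n : L t => e n, u10_isZ S he hJe⟩ :=
        (hx x).symm
      obtain ⟨P, hP⟩ := ((Q.res (L t)).cl_eq _ _).1 h3
      exact huniq (d x) e (hd x) he P (fun g hg => hP ⟨g, hg⟩) w
  exact ⟨AddEquiv.ofBijective (AddMonoidHom.mk' f hadd) hbij⟩

end H13P
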