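import Mathlib
import Pool.Agent.Lib.H13P.C4
import Pool.Agent.Lib.H13P.V10

/-! # H13P, module C, file C5: the classes with all values and the theorem over F -/

open NumberField IsDedekindDomain WeierstrassCurve

namespace H13P

open H55P (IQ embF eF LF Per IsHecke Pt ac acR Inert Dec Nm Coc PExt UnrP Ram RamF SelZero SelG inS decS Below)
open H35P (WAB Ker tt)
open H55K H55K.TQ
open H55K.S
open H13S (Abv)
open H13X
open H13R
open H55G (OkM LocOk)
open H13T (IsC Cont Tr RV AnW ce_p ce_val ce_bel ce_below ce_top ce_ne inert_conj abv_unique c5_red c9_hI c11_fin)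
open H13V (CycJ eN ri_main ri_ne pg tk RC)

open scoped Classical

variable {F : Type} [Field F] [NumberField F] [IQ F] {W₀ : WeierstrassCurve (𝓞 F)} {Om : ℂ}
    {m : Ideal (𝓞 F)} {ψ : Ideal (𝓞 F) →*₀ 𝓞 F} {p n t : ℕ} {M N' N : IntermediateField F (AlgebraicClosure F)}
    [NumberField M] [NumberField N'] [NumberField N] {γ : AlgebraicClosure F ≃ₐ[F] AlgebraicClosure F}

/-- The classes. -/
theorem cp_cls (hH : BaseH F W₀ Om m ψ) (hp : PrimeH F W₀ p) (c : CycP p n t M N' N γ) (hB : OkM p W₀ M) (hU : UnrP p N)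
    (hS : SelG p W₀ N')
    (hful : ∀ w : AnW p W₀ N' N, ∀ V : ValuationSubring (AlgebraicClosure F), Abv N' V w.1 → ∀ s, DecN N' V s →
      ∀ T : Pt (W₀⁄F) (AlgebraicClosure F), p ^ exP c w • T = 0 → ac (W₀⁄F) s T = T)
    {L : ℕ → Subgroup (AlgebraicClosure F ≃ₐ[F] AlgebraicClosure F)} (hL0 : L 0 = N'.fixingSubgroup) (hLt : L t = N.fixingSubgroup) {v : AnW p W₀ N' N → ValuationSubring (AlgebraicClosure F)}
    {τ : AnW p W₀ N' N → AlgebraicClosure F ≃ₐ[F] AlgebraicClosure F} (hv : ∀ w : AnW p W₀ N' N, Abv N' (v w) w.1)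
    (hram : ∀ w : AnW p W₀ N' N, ∀ a ∈ N', a ≠ 0 → ∃ x ∈ N, (v w).valuation x ^ p ^ exP c w = (v w).valuation a)
    (hpos : ∀ w : AnW p W₀ N' N, 1 ≤ exP c w)
    (hgen : ∀ w, ∀ s ∈ N'.fixingSubgroup, Inert (v w) s → ∃ k : ℕ, (τ w ^ k)⁻¹ * s ∈ N.fixingSubgroup)
    (hTX : TX p t (inS F) L (RV (W₀⁄F) p N' N) (AnW p W₀ N' N) v τ (exP c)) (w : AnW p W₀ N' N)
    (T : Pt (W₀⁄F) (AlgebraicClosure F)) (hT : p ^ exP c w • T = 0) :
    ∃ d : (AlgebraicClosure F ≃ₐ[F] AlgebraicClosure F) → Pt (W₀⁄F) (AlgebraicClosure F),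
      RC (SSG.galS (W₀⁄F) (AlgebraicClosure F)).act p t (SSG.galS (W₀⁄F) (AlgebraicClosure F)).U (inS F) N.fixingSubgroup
        N'.fixingSubgroup (RV (W₀⁄F) p N' N) d ∧
      (∀ J ∈ (SSG.galS (W₀⁄F) (AlgebraicClosure F)).D, Tr (SSG.galS (W₀⁄F) (AlgebraicClosure F)).act N.fixingSubgroup J d) ∧
      d (τ w) = T ∧ ∀ w' : AnW p W₀ N' N, w' ≠ w → d (τ w') = 0 := by
  obtain ⟨hMN, -, hx⟩ := cp_pext hp.prime.pos c
  have hfin : FiniteDimensional F N := c.fin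
  have hfin' : FiniteDimensional F N' := H55P.finDim_of_le c.le'
  obtain ⟨A, B, j, act, hA, hB', dta⟩ := SSG.exists_dtaAB hH hp
  obtain ⟨Θ, hΘ⟩ := SSG.short_iso W₀ hA hB' hH.data.ell (Ω := AlgebraicClosure F)
  obtain ⟨π, hπ, hπp⟩ := exists_prime_above (F := F) hp.prime
  have D : Dat A B Om j act m ψ π p := ⟨dta, hπ, hπp⟩
  have hUN' := cp_unr hp c hU
  have hΘ' : ∀ (s : AlgebraicClosure F ≃ₐ[F] AlgebraicClosure F) (P : Pt (WAB A B) (AlgebraicClosure F)),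
      Θ.symm (ac (WAB A B) s P) = ac (W₀⁄F) s (Θ.symm P) := fun s P => by
    apply Θ.injective
    rw [hΘ, Θ.apply_symm_apply, Θ.apply_symm_apply]
  have hS' : SelZero (WAB A B) p N' := y6_transport p N' Θ.symm hΘ' hS
  have hfxW : ∀ V : ValuationSubring (AlgebraicClosure F), Abv N' V w.1 → ∀ s, DecN N' V s →
      ∀ T : Pt (WAB A B) (AlgebraicClosure F), p ^ exP c w • T = 0 → ac (WAB A B) s T = T := by
    intro V hV s hs T hT
    apply Θ.symm.injective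
    rw [hΘ']
    exact hful w V hV s hs _ (by rw [← map_nsmul, hT, map_zero])
  have hfxI : ∀ (w' : AnW p W₀ N' N) (V : ValuationSubring (AlgebraicClosure F)), Abv N' V w'.1 → ∀ s, Inert V s →
      ∀ T : Pt (WAB A B) (AlgebraicClosure F), p ^ exP c w • T = 0 → ac (WAB A B) s T = T := by
    intro w' V hV s hs T hT
    apply Θ.symm.injective
    rw [hΘ']
    refine c5_red hH hp w'.2.1 (cp_p hp c hU w'.2) (ce_bel hV) s hs (exP c w) (Θ.symm T) ?_
    rw [smul_sub, ← map_nsmul, ← map_nsmul, hT, map_zero, map_zero, sub_zero]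
  have hRV : ∀ V : ValuationSubring (AlgebraicClosure F), Abv N' V w.1 → RV (W₀⁄F) p N' N V := fun V hV =>
    (cp_rv hH hp c hB hU hV).2 w.2
  obtain ⟨d, hd, hdτ⟩ := H13V.kum_two D (t := exP c w) (hpos w) le_rfl (N := N') (N' := N) (nb_ofR hp.prime hp.unr hUN') hfin hUN' c.le'
    hx.norm (cp_p hp c hU w.2) hfxW hS' (hv w) (hL0 ▸ hTX.mem w) (hTX.ine w) (hgen w)
    (hLt ▸ (hTX.ord w _).2 dvd_rfl) (hram w) (T := Θ T) (by rw [← map_nsmul, hT, map_zero])
  refine ⟨fun s => Θ.symm (d s), ⟨fun s hs t ht => ?_, ?_, fun s hs => ?_, fun V hV => ?_, fun V hV s hs hi => ?_⟩, fun J hJ => ?_,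
    ?_, fun w' hw' => ?_⟩
  · show Θ.symm (d (s * t)) = Θ.symm (d s) + ac (W₀⁄F) s (Θ.symm (d t))
    rw [hd.coc.mul s hs t ht, map_add, hΘ']
  · obtain ⟨L, hL, hdL⟩ := hd.coc.cont
    refine ⟨L.fixingSubgroup, ⟨L, hL, rfl⟩, fun s hs hsL => ?_⟩
    show Θ.symm (d s) = 0
    rw [hdL s hs hsL, map_zero]
  · show p ^ t • Θ.symm (d s) = 0
    have h1 : p ^ t = p ^ (t - exP c w) * p ^ exP c w := by
      rw [← pow_add, Nat.sub_add_cancel (exP_pow c hp.prime w).2]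
    rw [h1, mul_smul, ← map_nsmul, hd.tor s hs, map_zero, smul_zero]
  · by_cases hne : V = ⊤
    · refine ⟨0, fun s hs hi => ?_⟩
      have hi' : Inert V s := hi
      rw [hne] at hi'
      rw [map_zero, sub_zero, ce_top hi']
      show Θ.symm (d 1) = 0
      obtain ⟨L, hL, hdL⟩ := hd.coc.cont
      rw [hdL 1 (one_mem _) (one_mem _), map_zero]
    · obtain ⟨P, hP⟩ := hd.loc V hne (by
        rintro w' rfl hVw
        exact hV (hRV V hVw))
      refine ⟨Θ.symm P, fun s hs hi => ?_⟩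
      show Θ.symm (d s) = ac (W₀⁄F) s (Θ.symm P) - Θ.symm P
      rw [hP s hs (H55P.inert_dec V s hi), map_sub, hΘ']
  · have hs' : s ∈ N'.fixingSubgroup := IntermediateField.fixingSubgroup_antitone c.le' hs
    have hi' : Inert V s := hi
    obtain ⟨w', hw'⟩ := ce_below (ce_ne hV) N'
    have hwA := (cp_rv hH hp c hB hU hw').1 hV
    have hVp : V.valuation (p : AlgebraicClosure F) = 1 := by
      obtain ⟨⟨t, -, ht2, ht3⟩, -⟩ := hV
      exact ce_p hp hU ht2 ht3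
    show Θ.symm (d s) = 0
    by_cases hww : w' = w.1
    · obtain ⟨P, hP⟩ := hd.loc' V (ce_ne hV)
      have h1 := hP s hs (H55P.inert_dec V s hi')
      have h2 : ac (W₀⁄F) s (Θ.symm P) = Θ.symm P := by
        refine c5_red hH hp hwA.1 (cp_p hp c hU hwA) (ce_bel hw') s hi' (exP c w) (Θ.symm P) ?_
        rw [← hΘ', ← map_sub, ← map_nsmul, ← h1, hd.tor s hs', map_zero]
      rw [h1, map_sub, hΘ', h2, sub_self]
    · rw [hd.out V (by
        rintro v' rfl hv'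
        exact hww (abv_unique hw' hv')) hVp s hs' hi' (fun S hS => hfxI ⟨w', hwA⟩ V hw' s hi' S hS), map_zero]
  · obtain ⟨V, hV, rfl⟩ := hJ
    obtain ⟨P, hP⟩ := hd.loc' V hV
    refine ⟨Θ.symm P, fun s hs hi => ?_⟩
    show Θ.symm (d s) = ac (W₀⁄F) s (Θ.symm P) - Θ.symm P
    rw [hP s hs hi, map_sub, hΘ']
  · show Θ.symm (d (τ w)) = T
    rw [hdτ, Θ.symm_apply_apply]
  · have hRw : RV (W₀⁄F) p N' N (v w') := hTX.rel w'
    have hVp : (v w').valuation (p : AlgebraicClosure F) = 1 := by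
      obtain ⟨⟨t, -, ht2, ht3⟩, -⟩ := hRw
      exact ce_p hp hU ht2 ht3
    show Θ.symm (d (τ w')) = 0
    rw [hd.out (v w') (by
        rintro v' hv1 hv'
        apply hw'
        apply Subtype.ext
        rw [abv_unique (hv w') hv']
        exact hv1) hVp (τ w') (hL0 ▸ hTX.mem w') (hTX.ine w') (fun S hS =>
          hfxI w' (v w') (hv w') (τ w') (hTX.ine w') S hS), map_zero]

open SSG in
/-- THE THEOREM OVER F: the structure of the p-primary part of the Tate-Shafarevich group over N, the points. -/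
theorem cp_main (hH : BaseH F W₀ Om m ψ) (hp : PrimeH F W₀ p)
    (c : CycP p n t M N' N γ) (hU : UnrP p N) (hB : OkM p W₀ M) (hS : SelG p W₀ N')
    (nsp : ∀ w ∈ AnW p W₀ N' N, ∀ (v : HeightOneSpectrum (𝓞 M)) (V : ValuationSubring (AlgebraicClosure F)), Abv N' V w → Abv M V v →
      Ideal.absNorm v.asIdeal ≠ Ideal.absNorm w.asIdeal)
    (hful : ∀ w : AnW p W₀ N' N, ∀ V : ValuationSubring (AlgebraicClosure F), Abv N' V w.1 → ∀ s, DecN N' V s →
      ∀ T : Pt (W₀⁄F) (AlgebraicClosure F), p ^ exP c w • T = 0 → ac (W₀⁄F) s T = T) :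
    Nonempty (pg ((galS (W₀⁄F) (AlgebraicClosure F)).res N.fixingSubgroup).Sha p ≃+
        ((w : AnW p W₀ N' N) → tk (Pt (W₀⁄F) (AlgebraicClosure F)) p (exP c w))) ∧
      {P : Pt (W₀⁄F) (AlgebraicClosure F) | ∀ s ∈ N.fixingSubgroup, ac (W₀⁄F) s P = P}.Finite ∧
      ∀ P : Pt (W₀⁄F) (AlgebraicClosure F), (∀ s ∈ N.fixingSubgroup, ac (W₀⁄F) s P = P) → p • P = 0 → P = 0 := by
  obtain ⟨K, hK0, hKt, hKc, hKf⟩ := cp_lay hp.prime c
  have S := cp_tp hH hp c hU hB hS nsp hK0 hKt hKc hKf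
  have hL0 : (fun j => (K j).fixingSubgroup) 0 = N'.fixingSubgroup := by
    show (K 0).fixingSubgroup = _
    rw [hK0]
  have hLt : (fun j => (K j).fixingSubgroup) t = N.fixingSubgroup := by
    show (K t).fixingSubgroup = _
    rw [hKt]
  obtain ⟨v, τ, hv, hram, hpos, hgen, hT⟩ := cp_ti hH hp c hB hU (L := fun j => (K j).fixingSubgroup) hL0 hLt
  have hfin : Finite (AnW p W₀ N' N) := cp_fin c
  have hell : (W₀⁄F).IsElliptic := H55P.gen_ell W₀ hH.data.ell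
  have hfd : FiniteDimensional F N := c.fin
  have hE := fun (w : AnW p W₀ N' N) (T : Pt (W₀⁄F) (AlgebraicClosure F)) (hT' : p ^ exP c w • T = 0) =>
    cp_cls hH hp c hB hU hS hful hL0 hLt hv hram hpos hgen hT w T hT'
  generalize hLL : (fun j => (K j).fixingSubgroup) = L at S hL0 hLt hT
  rw [← hL0, ← hLt] at hE
  have h1 := tp_iso S hT (c9_hI (W₀⁄F)) hE
  have h2 := hE_of S hE
  rw [← hLt]
  refine ⟨h1, ?_, fun P h3 h4 => S.h0 P h4 h3⟩
  rw [hLt]
  refine c11_fin (W₀⁄F) p hp.prime N fun P hP => ?_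
  obtain ⟨Q, hQ, hQ'⟩ := tp_div S hT h2 P (by rw [hLt]; exact hP)
  exact ⟨Q, by rw [← hLt]; exact hQ, hQ'⟩

end H13P
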