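import Mathlib
import Pool.Agent.Lib.H13P.C5
import Pool.Agent.Lib.H13P.C3

/-! # H13P, module C, file C6: THE THEOREM OVER F -/

open NumberField IsDedekindDomain WeierstrassCurve

namespace H13P

open H55P (IQ Pt ac UnrP SelG)
open H55K H55K.TQ
open H55K.S
open H13S (Abv)
open H55G (OkM)
open H13T (AnW)
open H13V (eN pg tk)

open scoped Classical

open SSG in
/-- THE THEOREM OVER F: the structure of the p-primary part of the Tate-Shafarevich group over N, the points. -/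
theorem shaP_F {F : Type} [Field F] [NumberField F] [IQ F] {W₀ : WeierstrassCurve (𝓞 F)} {Om : ℂ}
    {m : Ideal (𝓞 F)} {ψ : Ideal (𝓞 F) →*₀ 𝓞 F} {p n t : ℕ} {M N' N : IntermediateField F (AlgebraicClosure F)}
    [NumberField M] [NumberField N'] [NumberField N] {γ : AlgebraicClosure F ≃ₐ[F] AlgebraicClosure F}
    (hH : BaseH F W₀ Om m ψ) (hp : PrimeH F W₀ p)
    (c : CycP p n t M N' N γ) (hU : UnrP p N) (hB : OkM p W₀ M) (hS : SelG p W₀ N')
    (nsp : ∀ w ∈ AnW p W₀ N' N, ∀ (v : HeightOneSpectrum (𝓞 M)) (V : ValuationSubring (AlgebraicClosure F)), Abv N' V w → Abv M V v →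
      Ideal.absNorm v.asIdeal ≠ Ideal.absNorm w.asIdeal)
    (ful : ∀ w ∈ AnW p W₀ N' N, eN c.le' w ^ 2 ∣ Nat.card (W₀⁄(𝓞 N' ⧸ w.asIdeal)).toAffine.Point) :
    Nonempty (pg ((galS (W₀⁄F) (AlgebraicClosure F)).res N.fixingSubgroup).Sha p ≃+
        ((w : AnW p W₀ N' N) → tk (Pt (W₀⁄F) (AlgebraicClosure F)) p ((eN c.le' w.1).factorization p))) ∧
      {P : Pt (W₀⁄F) (AlgebraicClosure F) | ∀ s ∈ N.fixingSubgroup, ac (W₀⁄F) s P = P}.Finite ∧
      ∀ P : Pt (W₀⁄F) (AlgebraicClosure F), (∀ s ∈ N.fixingSubgroup, ac (W₀⁄F) s P = P) → p • P = 0 → P = 0 :=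
  cp_main hH hp c hU hB hS nsp fun w _ hV _ hs _ hT => cp_ful hH hp c hU w (ful w.1 w.2) hV hs hT

end H13P
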